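import Pool.Agent.Q286.IX.ZerS
import Pool.Agent.Q286.EW.EffU

set_option autoImplicit false

/-!
# Project IX: the theorem at one scale
-/

open Filter Topology Finset MeasureTheory
open scoped ComplexConjugate

namespace Pool.Agent.Q286.IX

open Pool.Agent.Q286.EW

/-- `k` equations in `k + 1` unknowns -/
lemma exists_ker {k : ℕ} (l : Fin k → ((ℝ → ℂ) →ₗ[ℂ] ℂ)) (g : Fin (k + 1) → ℝ → ℂ) :
    ∃ c : Fin (k + 1) → ℂ, c ≠ 0 ∧ ∀ i, l i (lc g c) = 0 := by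
  let S : (Fin (k + 1) → ℂ) →ₗ[ℂ] (ℝ → ℂ) := ∑ j, (LinearMap.proj j : (Fin (k + 1) → ℂ) →ₗ[ℂ] ℂ).smulRight (g j)
  let T : (Fin (k + 1) → ℂ) →ₗ[ℂ] (Fin k → ℂ) := LinearMap.pi fun i => (l i).comp S
  have hT : LinearMap.ker T ≠ ⊥ := LinearMap.ker_ne_bot_of_finrank_lt (by simp)
  obtain ⟨c, hc, h0⟩ := (Submodule.ne_bot_iff _).1 hT
  refine ⟨c, h0, fun i => ?_⟩
  have h1 := congrFun (LinearMap.mem_ker.1 hc) i
  have h2 : lc g c = S c := by
    funext x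
    simp [S, lc, LinearMap.sum_apply, Finset.sum_apply]
  rw [h2]
  exact h1

/-- the disc of a bad point -/
lemma point [L : Y23.G.LFun] {ω : ℂ → ℤ} {δ0 : ℝ} (h0 : 0 < δ0) {p : ℂ} (hp : Bad (L := L) ω δ0 p) :
    ∃ (z : ℂ) (δ s : ℝ), z.im = p.im ∧ |z.re| ≤ 1 ∧ δ0 / 8 ≤ δ ∧ δ ≤ δ0 ∧
      ((z.re = 0 ∧ s = 1) ∨ (δ ≤ |z.re| ∧ (s = 1 ∨ s = -1))) ∧ ‖p - z‖ < δ / 4 ∧ ‖p - z‖ + δ / 2 ≤ 5 / 8 * δ0 ∧
      (∀ w : ℂ, L.X (1 / 2 + w) = 0 → ‖w - z‖ < δ / 2 → s * ω (1 / 2 + w) ≤ 0) ∧ s * ω (1 / 2 + p) ≤ -1 := by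
  obtain ⟨hz, hp⟩ := hp
  have hst : |p.re| ≤ 1 := by
    have h1 := Y23.G.X_strip hz
    have h2 : (1 / 2 + p).re - 1 / 2 = p.re := by simp
    rwa [h2] at h1
  rcases hp with ⟨hn, hiso⟩ | ⟨hn, hre, hiso⟩
  · have hn1 : (ω (1 / 2 + p) : ℝ) ≤ -1 := by
      have : ω (1 / 2 + p) ≤ -1 := by omega
      exact_mod_cast this
    have key : ∀ w : ℂ, L.X (1 / 2 + w) = 0 → ‖w - p‖ ≤ δ0 → (1 : ℝ) * ω (1 / 2 + w) ≤ 0 := by
      intro w hw h1
      rw [one_mul]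
      have : ω (1 / 2 + w) ≤ 0 := by
        by_contra h2
        exact absurd (hiso w hw (not_le.1 h2)) (not_lt.2 h1)
      exact_mod_cast this
    by_cases hc : |p.re| < δ0 / 8
    · have hd : ‖p - p.im * Complex.I‖ = |p.re| := by
        have : p - p.im * Complex.I = (p.re : ℂ) := by
          apply Complex.ext <;> simp
        rw [this, Complex.norm_real, Real.norm_eq_abs]
      refine ⟨p.im * Complex.I, δ0, 1, by simp, by simp, by linarith, le_rfl, Or.inl ⟨by simp, rfl⟩, by rw [hd]; linarith,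
        by rw [hd]; linarith, fun w hw h1 => key w hw ?_, by linarith⟩
      have h2 : w - p = (w - p.im * Complex.I) - (p - p.im * Complex.I) := by ring
      rw [h2]
      refine (norm_sub_le _ _).trans ?_
      rw [hd]
      linarith
    · rw [not_lt] at hc
      refine ⟨p, δ0 / 8, 1, rfl, hst, le_rfl, by linarith, Or.inr ⟨hc, Or.inl rfl⟩, by rw [sub_self, norm_zero]; linarith,
        by rw [sub_self, norm_zero]; linarith, fun w hw h1 => key w hw (by linarith), by linarith⟩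
  · have hn1 : (1 : ℝ) ≤ (ω (1 / 2 + p) : ℝ) := by
      have : 1 ≤ ω (1 / 2 + p) := by omega
      exact_mod_cast this
    refine ⟨p, δ0 / 8, -1, rfl, hst, le_rfl, by linarith, Or.inr ⟨by linarith, Or.inr rfl⟩, by rw [sub_self, norm_zero]; linarith,
        by rw [sub_self, norm_zero]; linarith, fun w hw h1 => ?_, by linarith⟩
    have : 0 ≤ ω (1 / 2 + w) := by
      by_contra h2
      have := hiso w hw (not_le.1 h2)
      linarith
    have : (0 : ℝ) ≤ ω (1 / 2 + w) := by exact_mod_cast this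
    linarith

/-- the contradiction -/
lemma final_ineqS {g0 m ψ0 c1 c0 K Γ τ n2 qq Y U n S : ℝ} (hg0 : 0 < g0) (hg1 : g0 ≤ 1) (hψc : m * ψ0 * c1 ≤ 1 / 8)
    (hY : 0 < Y) (hU : Real.exp U ≤ Real.exp (g0 / 16 * Y)) (hK0 : 0 ≤ K)
    (hK : K ≤ Real.exp ((m / 2 * (ψ0 * c1) + g0 / 8) * Y)) (hΓ0 : 0 ≤ Γ) (hΓ : 1 + Γ ≤ Real.exp (g0 / 16 * Y))
    (hτ : τ = Real.exp (-(g0 / 4 * Y))) (hn0 : 0 ≤ n) (hn : n ≤ Real.exp (g0 / 64 * Y)) (hS : 0 < S)
    (h1 : Real.exp (-(Y / 2)) < c0 / 2) (h2 : Real.exp (-(g0 / 16 * Y)) < c0 / 2)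
    (hN : n2 ≤ n * (Real.exp U * K ^ 2) * S) (hq : qq ≤ (-c0 + n ^ 2 * (Real.exp U * (1 + Γ) * τ)) * S)
    (hp : -(Real.exp (-Y) * n2) ≤ qq) : False := by
  have f1 : Real.exp (-Y) * (n * (Real.exp U * K ^ 2)) < c0 / 2 := by
    refine lt_of_le_of_lt ?_ h1
    have h3 : K ^ 2 ≤ Real.exp ((m * ψ0 * c1 + g0 / 4) * Y) := by
      calc K ^ 2 ≤ (Real.exp ((m / 2 * (ψ0 * c1) + g0 / 8) * Y)) ^ 2 := pow_le_pow_left₀ hK0 hK 2
        _ = _ := by rw [← Real.exp_nat_mul]; congr 1; push_cast; ring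
    calc Real.exp (-Y) * (n * (Real.exp U * K ^ 2))
        ≤ Real.exp (-Y) * (Real.exp (g0 / 64 * Y) * (Real.exp (g0 / 16 * Y) * Real.exp ((m * ψ0 * c1 + g0 / 4) * Y))) := by gcongr
      _ = Real.exp (-Y + (g0 / 64 * Y + (g0 / 16 * Y + (m * ψ0 * c1 + g0 / 4) * Y))) := by rw [Real.exp_add, Real.exp_add, Real.exp_add]
      _ ≤ Real.exp (-(Y / 2)) := by
          apply Real.exp_le_exp.2
          have h4 : m * ψ0 * c1 * Y ≤ 1 / 8 * Y := mul_le_mul_of_nonneg_right hψc hY.le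
          have h5 : g0 * Y ≤ 1 * Y := mul_le_mul_of_nonneg_right hg1 hY.le
          nlinarith
  have f2 : n ^ 2 * (Real.exp U * (1 + Γ) * τ) < c0 / 2 := by
    refine lt_of_le_of_lt ?_ h2
    have h3 : n ^ 2 ≤ Real.exp (g0 / 32 * Y) := by
      calc n ^ 2 ≤ (Real.exp (g0 / 64 * Y)) ^ 2 := pow_le_pow_left₀ hn0 hn 2
        _ = _ := by rw [← Real.exp_nat_mul]; congr 1; push_cast; ring
    calc n ^ 2 * (Real.exp U * (1 + Γ) * τ)
        ≤ Real.exp (g0 / 32 * Y) * (Real.exp (g0 / 16 * Y) * Real.exp (g0 / 16 * Y) * Real.exp (-(g0 / 4 * Y))) := by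
          rw [hτ]
          gcongr
      _ = Real.exp (g0 / 32 * Y + (g0 / 16 * Y + g0 / 16 * Y + -(g0 / 4 * Y))) := by rw [Real.exp_add, Real.exp_add, Real.exp_add]
      _ ≤ _ := by
          apply Real.exp_le_exp.2
          have : 0 < g0 * Y := by positivity
          nlinarith
  have h6 : Real.exp (-Y) * n2 ≤ Real.exp (-Y) * (n * (Real.exp U * K ^ 2)) * S := by
    have := mul_le_mul_of_nonneg_left hN (Real.exp_pos (-Y)).le
    linarith
  have h7 : Real.exp (-Y) * (n * (Real.exp U * K ^ 2)) * S < c0 / 2 * S := mul_lt_mul_of_pos_right f1 hS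
  have h8 : (-c0 + n ^ 2 * (Real.exp U * (1 + Γ) * τ)) * S < (-c0 + c0 / 2) * S := mul_lt_mul_of_pos_right (by linarith) hS
  linarith

/-- the theorem at one scale, with the test functions -/
def S_Fam : Prop := ∀ [L : Y23.G.LFun] (c : ℝ), c < Real.exp (Y23.G.kp (L := L) - 1) → ∃ C κ A B : ℝ, 0 < C ∧ 0 < κ ∧ 1 ≤ A ∧
  ∀ (a Y : ℝ) (ν : ℕ∞) (ω : ℂ → ℤ) (k : ℕ), A ≤ a → B * a ≤ Y → Y ≤ Real.exp (2 * a / L.m) →
    ((⌈C * a * Real.exp (2 * a / L.m)⌉₊ : ℕ) : ℕ∞) ≤ ν → (k : ℝ) ≤ Real.exp (κ * Y) → Wt (L := L) ω →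
    ∀ p : Fin (k + 1) → ℂ, (∀ j, Bad (L := L) ω (Real.exp (-(κ * Y / a))) (p j) ∧ |(p j).im| ≤ c * Real.exp (2 * a / L.m)) →
      (∀ i j, i ≠ j → 2 * Real.exp (-(κ * Y / a)) < ‖p i - p j‖ ∧ 2 * Real.exp (-(κ * Y / a)) < ‖p i + (starRingEnd ℂ) (p j)‖) →
        ∃ g : Fin (k + 1) → ℝ → ℂ, ∀ cc : Fin (k + 1) → ℂ, Y23.G.F.Hn a ν (lc g cc) ∧
          (cc ≠ 0 → QS (D := Y23.G.zd) ω (lc g cc) < -(Real.exp (-Y) * Y23.N2 (lc g cc)))

/-- **The theorem at one scale, with the test functions**. -/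
theorem famS (hR : S_RotU) (hCi : S_CirS) (hT : S_TstS) : S_Fam := by
  intro L c hc
  have hm : (1 : ℝ) ≤ L.m := Y23.G.m_one
  have hm0 : (0 : ℝ) < L.m := by linarith
  have hpi := Real.pi_gt_three
  have hpi4 := Real.pi_lt_four
  obtain ⟨c1, ψ0, d0, hcc1, hc10, hψ00, hψ01, hd0, hψc, hD⟩ := choose_psiU hm (Real.exp_pos _) hc
  obtain ⟨q, hq⟩ : ∃ q : ℝ, q = Real.exp (Y23.G.kp (L := L) - 1) := ⟨_, rfl⟩
  have hq0 : 0 < q := by rw [hq]; exact Real.exp_pos _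
  rw [← hq] at hD
  obtain ⟨g0, hg⟩ : ∃ g0 : ℝ, g0 = min d0 1 := ⟨_, rfl⟩
  have hg0 : 0 < g0 := by rw [hg]; exact lt_min hd0 one_pos
  have hgd : g0 ≤ d0 := by rw [hg]; exact min_le_left _ _
  have hg1 : g0 ≤ 1 := by rw [hg]; exact min_le_right _ _
  obtain ⟨A0, hA0, hrot⟩ := hR (L := L)
  obtain ⟨C2', hC2', hcir⟩ := hCi (L := L)
  obtain ⟨C2, hC2⟩ : ∃ C2 : ℝ, C2 = C2' + 1 := ⟨_, rfl⟩
  have hC22 : 2 ≤ C2 := by linarith
  obtain ⟨Q1, hQ1, hQ⟩ := Ek_ratioU (A := A0) hm0.le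
  obtain ⟨h, hh⟩ : ∃ h : ℝ, h = min 1 (d0 / (8 * (q * ψ0))) := ⟨_, rfl⟩
  have hh0 : 0 < h := by rw [hh]; exact lt_min one_pos (by positivity)
  have hh1 : h ≤ 1 := by rw [hh]; exact min_le_left _ _
  have hhD : h * (8 * (q * ψ0)) ≤ d0 := by
    have h1 : h ≤ d0 / (8 * (q * ψ0)) := by rw [hh]; exact min_le_right _ _
    rwa [le_div_iff₀ (by positivity)] at h1
  obtain ⟨B, c0, hB, hc0, htst⟩ := hT (L := L) A0 h hA0 hh0
  obtain ⟨C4, hC4⟩ : ∃ C4 : ℝ, C4 = Real.log (3 + c1) + 2 := ⟨_, rfl⟩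
  have hC41 : 2 ≤ C4 := by
    have : 0 ≤ Real.log (3 + c1) := Real.log_nonneg (by linarith)
    linarith
  obtain ⟨Λ, hΛ⟩ : ∃ Λ : ℝ, Λ = Real.log (4 / ψ0) + 2 := ⟨_, rfl⟩
  have hΛ0 : 0 ≤ Λ := by
    have : 0 ≤ Real.log (4 / ψ0) := Real.log_nonneg (by rw [le_div_iff₀ hψ00]; linarith)
    linarith
  obtain ⟨kq, hkq⟩ : ∃ kq : ℝ, kq = |Y23.G.kp (L := L)| + Λ := ⟨_, rfl⟩
  have hkq0 : 0 ≤ kq := by rw [hkq]; positivity
  have hl1 : 0 ≤ Real.log (1 + c1) := Real.log_nonneg (by linarith)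
  have hl36 : 1 ≤ Real.log 36 := by
    rw [Real.le_log_iff_exp_le (by norm_num)]
    have := Real.exp_one_lt_d9
    linarith
  obtain ⟨M, hM⟩ : ∃ M : ℝ, M = Real.log 36 + Q1 + L.m * kq + A0 * Λ + L.m * Real.pi + 2 * (C2 * C4) + B * (2 + kq) + 2 * A0 +
    (Real.log (1 + c1) + 2) := ⟨_, rfl⟩
  have hCC : 0 < C2 * C4 := by positivity
  have p1 : 0 ≤ L.m * kq := by positivity
  have p2 : 0 ≤ A0 * Λ := by positivity
  have p3 : 0 < L.m * Real.pi := by positivity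
  have p4 : 0 ≤ B * (2 + kq) := by positivity
  have hM1 : 1 ≤ M := by rw [hM]; linarith
  have hM0 : 0 < M := by linarith
  obtain ⟨κ', hκ'⟩ : ∃ κ' : ℝ, κ' = g0 / (32 * M) := ⟨_, rfl⟩
  have hκ'0 : 0 < κ' := by rw [hκ']; positivity
  have hκM : 2 * κ' * M = g0 / 16 := by rw [hκ']; field_simp; norm_num
  obtain ⟨κ, hκ⟩ : ∃ κ : ℝ, κ = g0 / (128 * M) := ⟨_, rfl⟩
  have hκ0 : 0 < κ := by rw [hκ]; positivity
  have hκκ : 4 * κ = κ' := by rw [hκ, hκ']; field_simp; norm_num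
  have hκg : κ ≤ g0 / 128 := by
    have h1 : κ * 1 ≤ κ * M := mul_le_mul_of_nonneg_left hM1 hκ0.le
    have h2 : κ * M = g0 / 128 := by rw [hκ]; field_simp
    linarith
  obtain ⟨C, hC⟩ : ∃ C : ℝ, C = 4 / (L.m * ψ0) * (L.m / 2 * (ψ0 * c1) + 2 * g0) + 2 * c1 + 1 := ⟨_, rfl⟩
  have hC0 : 0 < C := by rw [hC]; positivity
  obtain ⟨Y1, hY1⟩ : ∃ Y1 : ℝ, Y1 = 16 / g0 * (|Real.log (c0 / 2)| + 1) + 128 / g0 := ⟨_, rfl⟩
  have hY10 : 0 < Y1 := by rw [hY1]; positivity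
  refine ⟨C, κ, 1 + Y1, 3 / κ, hC0, hκ0, by linarith, fun a Y ν ω n ha hBY hYE hν hnY hω p hp hcon => ?_⟩
  have ha1 : 1 ≤ a := by linarith
  have ha0 : 0 < a := by linarith
  obtain ⟨E, hE⟩ : ∃ E : ℝ, E = Real.exp (2 * a / L.m) := ⟨_, rfl⟩
  have hEge1 : 1 ≤ E := by rw [hE]; exact Real.one_le_exp (by positivity)
  have hE0 : 0 < E := by linarith
  rw [← hE] at hYE hν
  simp only [← hE] at hp
  obtain ⟨δ0, hδ⟩ : ∃ δ0 : ℝ, δ0 = Real.exp (-(κ * Y / a)) := ⟨_, rfl⟩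
  have hδ00 : 0 < δ0 := by rw [hδ]; exact Real.exp_pos _
  simp only [← hδ] at hp hcon
  -- the precision
  have h3a : 3 * a ≤ κ * Y := by
    rw [div_mul_eq_mul_div, div_le_iff₀ hκ0] at hBY
    linarith
  have hκ1 : κ ≤ 1 := by linarith
  have hY0 : 0 < Y := by
    by_contra h1
    rw [not_lt] at h1
    have : κ * Y ≤ 0 := mul_nonpos_of_nonneg_of_nonpos hκ0.le h1
    linarith
  have haY : a ≤ Y := by
    have h1 : κ * Y ≤ 1 * Y := mul_le_mul_of_nonneg_right hκ1 hY0.le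
    linarith
  have hYge1 : 1 ≤ Y := by linarith
  have hYY1 : Y1 ≤ Y := by linarith
  have hMa : M * a ≤ g0 / 16 * Y := by
    have h1 : M * (3 * a) ≤ M * (κ * Y) := mul_le_mul_of_nonneg_left h3a hM0.le
    have h2 : M * (κ * Y) = g0 / 128 * Y := by rw [hκ]; field_simp
    have h3 : 0 < g0 * Y := by positivity
    have h4 : 0 < M * a := by positivity
    linarith
  have hδ1 : δ0 ≤ 1 := by
    rw [hδ]
    exact Real.exp_le_one_iff.2 (by
      have : 0 < κ * Y / a := by positivity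
      linarith)
  obtain ⟨e, hee⟩ : ∃ e : ℝ, e = Y / E := ⟨_, rfl⟩
  have heE : e * E = Y := by rw [hee]; field_simp
  have he0 : 0 < e := by rw [hee]; positivity
  have he1 : e ≤ 1 := by rw [hee, div_le_one hE0]; exact hYE
  obtain ⟨ψ, hψ⟩ : ∃ ψ : ℝ, ψ = ψ0 * e := ⟨_, rfl⟩
  have hψ0 : 0 < ψ := by rw [hψ]; positivity
  have hψ1 : ψ < 1 := by
    have : ψ0 * e ≤ ψ0 * 1 := mul_le_mul_of_nonneg_left he1 hψ00.le
    linarith
  have hφ0 : 0 ≤ Real.pi / 2 - ψ := by linarith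
  have hφ1 : Real.pi / 2 - ψ < Real.pi / 2 := by linarith
  have hφ'0 : 0 ≤ Real.pi / 2 - ψ / 2 := by linarith
  have hφ'1 : Real.pi / 2 - ψ / 2 < Real.pi / 2 := by linarith
  have hcos : Real.cos (Real.pi / 2 - ψ) = Real.sin ψ := Real.cos_pi_div_two_sub ψ
  have hcos' : Real.cos (Real.pi / 2 - ψ / 2) = Real.sin (ψ / 2) := Real.cos_pi_div_two_sub _
  have hcos0 : 0 < Real.cos (Real.pi / 2 - ψ) := Real.cos_pos_of_mem_Ioo ⟨by linarith, hφ1⟩
  have hcos'0 : 0 < Real.cos (Real.pi / 2 - ψ / 2) := Real.cos_pos_of_mem_Ioo ⟨by linarith, hφ'1⟩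
  obtain ⟨l0, hl⟩ : ∃ l : ℝ, l = -Real.log (Real.cos (Real.pi / 2 - ψ)) := ⟨_, rfl⟩
  obtain ⟨l', hl'⟩ : ∃ l' : ℝ, l' = -Real.log (Real.cos (Real.pi / 2 - ψ / 2)) := ⟨_, rfl⟩
  have hlog4 : Real.log (4 / (ψ0 * e)) ≤ Λ * a := by
    rw [hΛ]
    exact neg_log_le hψ00 hψ01 he0 heE hYge1 ha1 hm hE
  have hl0 : 0 ≤ l0 := by
    rw [hl]
    have := Real.log_nonpos hcos0.le (Real.cos_le_one _)
    linarith
  have hlΛ : l0 ≤ Λ * a := by
    rw [hl, hcos]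
    refine (neg_log_sin hψ0 hψ1.le).trans (le_trans ?_ hlog4)
    rw [← hψ]
    exact Real.log_le_log (by positivity) (div_le_div_of_nonneg_right (by norm_num) hψ0.le)
  have hl'Λ : l' ≤ Λ * a := by
    rw [hl', hcos']
    refine (neg_log_sin (by positivity) (by linarith)).trans (le_trans (le_of_eq ?_) hlog4)
    rw [← hψ]
    congr 1
    field_simp
    norm_num
  obtain ⟨k, hk⟩ : ∃ k : ℝ, k = Y23.G.kp (L := L) + Real.log (Real.cos (Real.pi / 2 - ψ)) := ⟨_, rfl⟩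
  have hN := Real.log_nonneg L.raw.hN
  have hk1 : k ≤ 1 + Real.log (2 * Real.pi) := by
    have h1 : Real.log (Real.cos (Real.pi / 2 - ψ)) ≤ 0 := Real.log_nonpos hcos0.le (Real.cos_le_one _)
    have h2 : 0 ≤ Real.log L.N / L.m := div_nonneg hN (Nat.cast_nonneg _)
    have h3 : Y23.G.kp (L := L) = 1 + Real.log (2 * Real.pi) - Real.log L.N / L.m := rfl
    rw [hk, h3]
    linarith
  have hkabs : |k| ≤ kq * a := by
    have h1 : k = Y23.G.kp (L := L) + -l0 := by rw [hk, hl]; ring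
    rw [h1]
    refine (abs_add_le _ _).trans ?_
    rw [abs_neg, abs_of_nonneg hl0, hkq, add_mul]
    have : |Y23.G.kp (L := L)| * 1 ≤ |Y23.G.kp (L := L)| * a := mul_le_mul_of_nonneg_left ha1 (abs_nonneg _)
    linarith
  have hck : ck L.m k = L.m / 2 * (q * Real.sin ψ) := by
    unfold ck
    rw [hk, show Y23.G.kp (L := L) + Real.log (Real.cos (Real.pi / 2 - ψ)) - 1 =
      (Y23.G.kp (L := L) - 1) + Real.log (Real.cos (Real.pi / 2 - ψ)) by ring, Real.exp_add, Real.exp_log hcos0, hcos, hq]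
  obtain ⟨T, hTd⟩ : ∃ T : ℝ, T = A0 * l0 := ⟨_, rfl⟩
  have hT0 : 0 ≤ T := by rw [hTd]; positivity
  have hTΛ : T ≤ A0 * Λ * a := by
    rw [hTd, mul_assoc]
    exact mul_le_mul_of_nonneg_left hlΛ hA0
  have hrot1 : ∀ w : ℂ, ‖L.X (1 / 2 + w)‖ * Real.exp (L.m * (Real.pi / 2 - ψ) / 2 * |w.im|) ≤
      Real.exp T * Real.exp (Ek L.m (Y23.G.kp + Real.log (Real.cos (Real.pi / 2 - ψ))) A0 |w.re|) / (1 + w.im ^ 2) := by
    intro w
    have h1 := hrot _ hφ0 hφ1 w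
    have h2 : Real.cos (Real.pi / 2 - ψ) ^ (-A0) = Real.exp T := by
      rw [Real.rpow_def_of_pos hcos0, hTd, hl]
      congr 1
      ring
    rwa [h2] at h1
  -- the discs
  choose z δ s hzim hzre hδδ hδle hmode hpz hpz2 hsω hsp using fun j => point (L := L) hδ00 (hp j).1
  have hδj0 : ∀ j, 0 < δ j := fun j => by have := hδδ j; linarith
  have hδj1 : ∀ j, δ j ≤ 1 := fun j => (hδle j).trans hδ1
  choose r hr1 hr2 hz hlow using fun j => hcir (z j) (δ j) (hzre j) (hδj0 j) (hδj1 j)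
  have hw0im : ∀ j, |(z j).im| ≤ c1 * E := fun j => by
    rw [hzim]
    exact (hp j).2.trans (mul_le_mul_of_nonneg_right hcc1 hE0.le)
  have hℓ0 : ∀ j, 0 ≤ Real.log (1 / δ j) := fun j => Real.log_nonneg (by rw [le_div_iff₀ (hδj0 j)]; linarith [hδj1 j])
  have hℓY : ∀ j, Real.log (1 / δ j) ≤ κ' * Y / a := fun j => by
    rw [one_div, Real.log_inv]
    have h1 := Real.log_le_log (by positivity : 0 < δ0 / 8) (hδδ j)
    rw [Real.log_div hδ00.ne' (by norm_num), hδ, Real.log_exp] at h1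
    have h2 : Real.log 8 ≤ 3 := by
      rw [Real.log_le_iff_le_exp (by norm_num)]
      have h3 := Real.quadratic_le_exp_of_nonneg (x := 3) (by norm_num)
      linarith
    have h3 : 3 ≤ κ * Y / a := by rw [le_div_iff₀ ha0]; exact h3a
    have h4 : κ' * Y / a = 4 * (κ * Y / a) := by rw [← hκκ]; ring
    rw [h4]
    linarith
  have hC2m : ∀ j, C2' * Y23.G.Lg (z j).im * (1 + Real.log (1 / δ j)) ≤ C2 * Y23.G.Lg (z j).im * (1 + Real.log (1 / δ j)) := fun j => by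
    have hLg1 := Y23.G.one_le_Lg (z j).im
    have := hℓ0 j
    rw [hC2]
    have h1 : 0 ≤ Y23.G.Lg (z j).im * (1 + Real.log (1 / δ j)) := by positivity
    have h2 : (C2' + 1) * Y23.G.Lg (z j).im * (1 + Real.log (1 / δ j)) =
        C2' * Y23.G.Lg (z j).im * (1 + Real.log (1 / δ j)) + Y23.G.Lg (z j).im * (1 + Real.log (1 / δ j)) := by ring
    linarith
  choose θ P F hθ hP hFd hFb hFo hFv hF1 using fun j => zeroS (L := L) hφ0 hT0 hrot1 (fun t u h1 h2 h3 h4 => hQ _ t u h1 h2 h3 h4) hC22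
    (hzre j) (hδj0 j) (hδj1 j) (hmode j) (hr1 j) (hr2 j)
    (fun w hw => (Real.exp_le_exp.2 (neg_le_neg (hC2m j))).trans (hz j w hw))
    (fun z' hz' => (Real.exp_le_exp.2 (by linarith [hC2m j])).trans (hlow j z' hz'))
  simp only [← hk] at hFb hFo
  -- the size of the constant
  obtain ⟨K, hK⟩ : ∃ K : ℝ, K = Real.exp ((L.m / 2 * (ψ0 * c1) + g0 / 8) * Y) := ⟨_, rfl⟩
  have hK1 : 1 ≤ K := by rw [hK]; exact Real.one_le_exp (by positivity)
  have hKle : K ≤ Real.exp ((L.m / 2 * (ψ0 * c1) + g0 / 8) * Y) := hK.le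
  have hKj : ∀ j, Real.exp (Real.log 36 + (Q1 + L.m * |k|) + P j) ≤ K := by
    intro j
    have hLg1 := Y23.G.one_le_Lg (z j).im
    have hLga : Y23.G.Lg (z j).im ≤ C4 * a := by rw [hC4]; exact lg_le hc10 hm ha1 hE (hw0im j)
    have hPeq : P j = L.m / 2 * (ψ * |(z j).im|) + L.m / 4 * (Real.pi / 2 - ψ) + 2 * (C2 * Y23.G.Lg (z j).im * (1 + Real.log (1 / δ j))) + T := by
      rw [hP j]; ring
    rw [hK]
    refine Real.exp_le_exp.2 (size_KU (l36 := Real.log 36) (Q1 := Q1) (m := L.m) (k := |k|) (kq := kq) (C2 := C2) (C4 := C4) (T := T) (AΛ := A0 * Λ)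
      (γ := |(z j).im|) (lg := Y23.G.Lg (z j).im) (ℓ := Real.log (1 / δ j)) (e := e) (E := E) (M := M) (κ := κ')
      hm0 hpi hψ0.le hφ0 hψ heE (abs_nonneg _) (hw0im j) (by linarith) (by linarith) (by linarith) hLga (hℓ0 j) (hℓY j) ha1 hκ'0 hY0 hκM hQ1 (by linarith)
      hkabs hTΛ ?_ hMa hPeq)
    constructor <;> rw [hM] <;> linarith
  have hFb' : ∀ j w, ‖F j w‖ ≤ K * Real.exp (Ek L.m k A0 |w.re|) / (1 + w.im ^ 2) := by
    intro j w
    refine (hFb j w).trans ?_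
    have := hKj j
    gcongr
  have hFo' : ∀ j w, 1 ≤ |w.im - (z j).im| → ‖F j w‖ ≤ K * ‖Yf (L := L) (θ j) w‖ := by
    intro j w hw
    exact (hFo j w hw).trans (mul_le_mul_of_nonneg_right (hKj j) (norm_nonneg _))
  have hU : B * (1 + a + |k|) ≤ g0 / 16 * Y := by
    have h1 : B * (1 + a + |k|) ≤ B * (2 + kq) * a := by
      have : 1 + a + |k| ≤ (2 + kq) * a := by linarith
      calc B * (1 + a + |k|) ≤ B * ((2 + kq) * a) := mul_le_mul_of_nonneg_left this hB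
        _ = _ := by ring
    have h2 : B * (2 + kq) * a ≤ M * a := by
      refine mul_le_mul_of_nonneg_right ?_ ha0.le
      rw [hM]
      linarith
    linarith
  obtain ⟨τ, hτ⟩ : ∃ τ : ℝ, τ = Real.exp (-(g0 / 4 * Y)) := ⟨_, rfl⟩
  have hτ1 : τ ≤ 1 := by
    rw [hτ]
    exact Real.exp_le_one_iff.2 (by
      have : 0 < g0 / 4 * Y := by positivity
      linarith)
  obtain ⟨A1, hA1⟩ : ∃ A1 : ℝ, A1 = Real.exp (A0 * l') * Real.exp (A0 + A0 * Real.log 2) := ⟨_, rfl⟩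
  have hA10 : 0 < A1 := by rw [hA1]; positivity
  have hA1E : A1 ≤ Real.exp (g0 / 16 * Y) := by
    rw [hA1, ← Real.exp_add]
    apply Real.exp_le_exp.2
    refine le_trans ?_ hMa
    have h1 : A0 * l' ≤ A0 * Λ * a := by
      rw [mul_assoc]
      exact mul_le_mul_of_nonneg_left hl'Λ hA0
    have h2 : A0 + A0 * Real.log 2 ≤ 2 * A0 * a := by
      have h21 : Real.log 2 ≤ 1 := by
        have := Real.log_two_lt_d9
        linarith
      have h22 : A0 * Real.log 2 ≤ A0 * 1 := mul_le_mul_of_nonneg_left h21 hA0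
      have h23 : 2 * A0 * 1 ≤ 2 * A0 * a := mul_le_mul_of_nonneg_left ha1 (by positivity)
      linarith
    have h3 : (A0 * Λ + 2 * A0) * a ≤ M * a := by
      refine mul_le_mul_of_nonneg_right ?_ ha0.le
      rw [hM]
      linarith
    have h4 : (A0 * Λ + 2 * A0) * a = A0 * Λ * a + 2 * A0 * a := by ring
    linarith
  have hnodes : ∀ (i : Fin (n + 1)) (j : ℤ), ν < (j.natAbs : ℕ∞) → ‖F i (Y23.G.F.nd a j)‖ ≤ τ ∧ 2 * |(z i).im| ≤ |(Y23.G.F.nd a j).im| := by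
    intro i j hj
    obtain ⟨n1, n2⟩ := node_bdU (K := K) (a := a) (e := e) hm0 hψ00 hc10 hg0 hC ha1 hEge1 hY0 heE he0 hν hj hA10 hA1E (zero_le_one.trans hK1) hKle hτ
    rw [← hψ] at n2
    have h3 := hrot _ hφ'0 hφ'1 (Y23.G.F.nd a j)
    exact nodesU hA10 hψ0.le hcos'0 hl' hA1 (hθ i) hK1 hc10 hEge1 (hw0im i) (hFo' i) h3 n1 n2
  have hsin : Real.sin ψ ≤ ψ := Real.sin_le hψ0.le
  have htail : K * Real.exp (B * (1 + a + |k|) - ck L.m k * Real.exp (2 * (a - h) / L.m)) ≤ τ := by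
    refine tail_leU (q := q) (e := e) hm0 hg0 hgd hψ00 hc10 hE heE he0 hY0 hh0.le hKle ?_ ?_ hhD hU hτ
    · rw [hck, hψ]
      exact hD e he0 he1
    · rw [hck, ← hψ]
      exact mul_le_mul_of_nonneg_left (mul_le_mul_of_nonneg_left hsin hq0.le) (by positivity)
  -- the values at the zeros
  have hωr : ∀ w : ℂ, L.X (1 / 2 + w) = 0 → ω (1 / 2 + -conj w) = ω (1 / 2 + w) := by
    intro w hw
    have h1 := hω.2 (1 / 2 + w) hw
    have h2 : 1 - conj (1 / 2 + w) = 1 / 2 + -conj w := by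
      have h3 : conj (1 / 2 + w) = 1 / 2 + conj w := by
        rw [map_add]
        congr 1
        rw [show (1 / 2 : ℂ) = ((1 / 2 : ℝ) : ℂ) by push_cast; rfl, Complex.conj_ofReal]
      rw [h3]
      ring
    rwa [h2] at h1
  have hrj : ∀ j, r j ≤ 1 / 2 := fun j => by linarith [hr2 j, hδj1 j]
  have hval : ∀ (i : Fin (n + 1)) (w : ℂ), L.X (1 / 2 + w) = 0 → (F i w = 0 ∧ F i (-conj w) = 0) ∨
      (‖F i w‖ = 1 ∧ F i (-conj w) = s i * F i w ∧ s i * ω (1 / 2 + w) ≤ 0 ∧ ‖w - (z i).im * Complex.I‖ ≤ 2) := by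
    intro i w hw
    rcases hFv i w hw with h1 | ⟨h1, h2, h3⟩
    · exact Or.inl h1
    · refine Or.inr ⟨h1, h2, ?_, ?_⟩
      · rcases h3 with h3 | h3
        · exact hsω i w hw (lt_of_lt_of_le h3 (hr2 i))
        · have := hsω i (-conj w) (X_refl hw) (lt_of_lt_of_le h3 (hr2 i))
          rwa [hωr w hw] at this
      · have hb : ∀ u : ℂ, ‖u - z i‖ < r i → ‖u - (z i).im * Complex.I‖ ≤ 2 := by
          intro u hu
          have h4 : ‖z i - (z i).im * Complex.I‖ ≤ 1 := by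
            have : z i - (z i).im * Complex.I = ((z i).re : ℂ) := by
              apply Complex.ext <;> simp
            rw [this, Complex.norm_real]
            exact hzre i
          have h5 : u - (z i).im * Complex.I = (u - z i) + (z i - (z i).im * Complex.I) := by ring
          rw [h5]
          refine (norm_add_le _ _).trans ?_
          linarith [hrj i]
        rcases h3 with h3 | h3
        · exact hb w h3
        · have h4 := hb _ h3
          have h5 : ‖-conj w - (z i).im * Complex.I‖ = ‖w - (z i).im * Complex.I‖ := by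
            rw [← RCLike.norm_conj (w - (z i).im * Complex.I), ← norm_neg (-conj w - (z i).im * Complex.I)]
            congr 1
            rw [map_sub, map_mul, Complex.conj_ofReal, Complex.conj_I]
            ring
          rwa [h5] at h4
  have hex : ∀ i : Fin (n + 1), ∃ w : ℂ, L.X (1 / 2 + w) = 0 ∧ F i w ≠ 0 ∧ s i * ω (1 / 2 + w) ≤ -1 := by
    intro i
    refine ⟨p i, (hp i).1.1, ?_, hsp i⟩
    rw [hF1 i (p i) (hp i).1.1 (lt_of_lt_of_le (hpz i) (hr1 i))]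
    exact one_ne_zero
  have hnear : ∀ (i : Fin (n + 1)) (w : ℂ), L.X (1 / 2 + w) = 0 → F i w ≠ 0 → ‖w - p i‖ ≤ 5 / 8 * δ0 ∨ ‖-conj w - p i‖ ≤ 5 / 8 * δ0 := by
    intro i w hw h1
    have hb : ∀ u : ℂ, ‖u - z i‖ < r i → ‖u - p i‖ ≤ 5 / 8 * δ0 := by
      intro u hu
      have h5 : u - p i = (u - z i) - (p i - z i) := by ring
      rw [h5]
      refine (norm_sub_le _ _).trans ?_
      linarith [hr2 i, hpz2 i]
    rcases hFv i w hw with h2 | ⟨-, -, h3 | h3⟩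
    · exact absurd h2.1 h1
    · exact Or.inl (hb w h3)
    · exact Or.inr (hb _ h3)
  have hdisj : ∀ (i j : Fin (n + 1)) (w : ℂ), i ≠ j → L.X (1 / 2 + w) = 0 → F i w = 0 ∨ F j w = 0 := by
    intro i j w hij hw
    by_contra h1
    rw [not_or] at h1
    obtain ⟨c1', c2'⟩ := hcon i j hij
    have cj : ∀ u v : ℂ, ‖-conj u - v‖ = ‖u + conj v‖ := by
      intro u v
      rw [← RCLike.norm_conj (u + conj v), ← norm_neg (-conj u - v)]
      congr 1
      rw [map_add, Complex.conj_conj]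
      ring
    have tri : ∀ u v x : ℂ, ‖u - v‖ ≤ 5 / 8 * δ0 → ‖u - x‖ ≤ 5 / 8 * δ0 → ‖v - x‖ ≤ 2 * δ0 := by
      intro u v x h2 h3
      have h5 : v - x = (u - x) - (u - v) := by ring
      rw [h5]
      refine (norm_sub_le _ _).trans ?_
      linarith
    rcases hnear i w hw h1.1 with h2 | h2 <;> rcases hnear j w hw h1.2 with h3 | h3
    · exact absurd (tri _ _ _ h2 h3) (not_le.2 c1')
    · -- `w` near `p i`, `- conj w` near `p j`
      rw [cj] at h3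
      have h4 : ‖w - -conj (p j)‖ ≤ 5 / 8 * δ0 := by rw [sub_neg_eq_add]; exact h3
      have h5 := tri _ _ _ h2 h4
      rw [sub_neg_eq_add] at h5
      exact absurd h5 (not_le.2 c2')
    · rw [cj] at h2
      have h4 : ‖w - -conj (p i)‖ ≤ 5 / 8 * δ0 := by rw [sub_neg_eq_add]; exact h2
      have h5 := tri _ _ _ h4 h3
      rw [cj] at h5
      exact absurd h5 (not_le.2 c2')
    · exact absurd (tri _ _ _ h2 h3) (not_le.2 c1')
  obtain ⟨g, hg'⟩ := htst k a (c1 * E) K τ ν (n + 1) (fun i => (z i).im) s F ω hk1 ha1 (by linarith) hK1 hw0im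
    (fun i => by
      rcases hmode i with ⟨-, h1⟩ | ⟨-, h1⟩
      · exact Or.inl h1
      · exact h1) hFd hFb' htail hτ1 hnodes hω hval hex hdisj
  refine ⟨g, fun cc => ⟨(hg' cc).1, fun hcc0 => ?_⟩⟩
  obtain ⟨hgH, hgN, hgQ⟩ := hg' cc
  by_contra hpg
  rw [not_lt] at hpg
  have hS : 0 < ∑ i, ‖cc i‖ ^ 2 := by
    obtain ⟨i, hi⟩ : ∃ i, cc i ≠ 0 := by
      by_contra h1
      push Not at h1
      exact hcc0 (funext h1)
    refine lt_of_lt_of_le (by positivity : 0 < ‖cc i‖ ^ 2) (Finset.single_le_sum (f := fun i => ‖cc i‖ ^ 2) (fun j _ => by positivity) (Finset.mem_univ i))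
  -- the last inequalities
  have hlast : Real.exp (-(g0 / 16 * Y)) < c0 / 2 := by
    have h1 : |Real.log (c0 / 2)| + 1 ≤ g0 / 16 * Y := by
      have h2 : g0 / 16 * Y1 ≤ g0 / 16 * Y := mul_le_mul_of_nonneg_left hYY1 (by positivity)
      have h3 : g0 / 16 * Y1 = |Real.log (c0 / 2)| + 1 + 8 := by rw [hY1]; field_simp; ring
      linarith
    rw [← Real.lt_log_iff_exp_lt (by positivity)]
    have := neg_abs_le (Real.log (c0 / 2))
    linarith
  have hlast2 : Real.exp (-(Y / 2)) < c0 / 2 := by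
    refine lt_of_le_of_lt (Real.exp_le_exp.2 ?_) hlast
    have : g0 * Y ≤ 1 * Y := mul_le_mul_of_nonneg_right hg1 hY0.le
    linarith
  have hγ1 : 1 + c1 * E ≤ Real.exp (g0 / 16 * Y) := by
    have h1 : |c1 * E| ≤ c1 * E := by rw [abs_of_nonneg (by positivity)]
    have h2 := gam1U (M := M) hc10 hm ha1 hE hEge1 h1 (by rw [hM]; linarith)
    rw [abs_of_nonneg (by positivity)] at h2
    exact h2.trans (Real.exp_le_exp.2 hMa)
  have hn1 : ((n + 1 : ℕ) : ℝ) ≤ Real.exp (g0 / 64 * Y) := by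
    push_cast
    have h1 : 1 ≤ Real.exp (κ * Y) := Real.one_le_exp (by positivity)
    have h2 : (2 : ℝ) ≤ Real.exp (g0 / 128 * Y) := by
      have h3 : g0 / 128 * Y1 ≤ g0 / 128 * Y := mul_le_mul_of_nonneg_left hYY1 (by positivity)
      have h4 : 1 ≤ g0 / 128 * Y1 := by
        rw [hY1]
        have h5 : g0 / 128 * (16 / g0 * (|Real.log (c0 / 2)| + 1) + 128 / g0) = (|Real.log (c0 / 2)| + 1) / 8 + 1 := by
          field_simp
          ring
        rw [h5]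
        have := abs_nonneg (Real.log (c0 / 2))
        linarith
      have h5 := Real.add_one_le_exp (g0 / 128 * Y)
      linarith
    have h3 : Real.exp (κ * Y) ≤ Real.exp (g0 / 128 * Y) := Real.exp_le_exp.2 (mul_le_mul_of_nonneg_right hκg hY0.le)
    calc (n : ℝ) + 1 ≤ 2 * Real.exp (κ * Y) := by linarith
      _ ≤ Real.exp (g0 / 128 * Y) * Real.exp (g0 / 128 * Y) := by gcongr
      _ = _ := by rw [← Real.exp_add]; congr 1; ring
  exact final_ineqS (Γ := c1 * E) (n := ((n + 1 : ℕ) : ℝ)) hg0 hg1 hψc hY0 (Real.exp_le_exp.2 hU) (by linarith) hKle (by positivity) hγ1 hτ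
    (by positivity) hn1 hS hlast2 hlast hgN hgQ hpg

end Pool.Agent.Q286.IX
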