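import Pool.Agent.Q286.IX.Stm2

set_option autoImplicit false

/-!
# Project IX: the form of a virtual L-function
-/

open Filter Topology Finset MeasureTheory
open scoped ComplexConjugate

namespace Pool.Agent.Q286.IX

open Pool.Agent.Q286.TR Pool.Agent.Q286.XG
open Pool.Agent.TH839.NA (RawT RawTL)
open Complex

/-- the facts on one L-function -/
lemma one {m p : ℕ} {Q : ℝ} {γ G : ℂ → ℂ} (h : InD m p Q γ G) :
    (∃ L : LFunction, L.m = m ∧ L.Q = Q ∧ IsComp p Q γ G L.Λ ∧ (∀ Λ, IsComp p Q γ G Λ → Λ = L.Λ) ∧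
      ∀ t, IsTr G t → ∀ (a : ℝ) (f : ℝ → ℂ), WG p Q γ t a f = W L a f) ∧
    (∃ t, IsTr G t) ∧ (∃ σ : ℝ, ∀ s : ℂ, σ < s.re → G s ≠ 0 ∧ DifferentiableAt ℂ G s) ∧
    (∀ x : ℝ, γ (1 / 2 + x * I) ≠ 0 ∧ DifferentiableAt ℂ γ (1 / 2 + x * I)) ∧
    (∀ (a : ℝ) (f : ℝ → ℂ), Y23.G.Hd a f →
      Integrable fun x : ℝ => (Real.log Q + 2 * (logDeriv γ (1 / 2 + x * I)).re) * ‖M f (1 / 2 + x * I)‖ ^ 2) ∧ Q ≠ 0 := by
  obtain ⟨⟨t, ht⟩, L, hm, hQ, hc, hu, hW⟩ := h.lf
  obtain ⟨l, b, c, X, hlm, w, ha, hγ, σ, hσ⟩ := h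
  have hQ0 : Q ≠ 0 := (lt_of_lt_of_le one_pos w.hN).ne'
  refine ⟨⟨L, hm, hQ, hc, hu, hW⟩, ⟨t, ht⟩, ⟨max σ 2, fun s hs => ?_⟩, fun x => ?_, fun a f hf => ?_, hQ0⟩
  · have h1 : σ < s.re := lt_of_le_of_lt (le_max_left _ _) hs
    have h2 : 2 < s.re := lt_of_le_of_lt (le_max_right _ _) hs
    have h3 := RawT.coef w (s := s) (by linarith)
    have h4 := RawT.lser_an w (s := s) (by linarith)
    have hopen : IsOpen {z : ℂ | σ < z.re} := isOpen_lt continuous_const Complex.continuous_re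
    have hev : G =ᶠ[𝓝 s] LSeries b := by
      filter_upwards [hopen.mem_nhds h1] with z hz
      exact hσ z (le_of_lt hz)
    exact ⟨by rw [hσ s h1.le]; exact h3.2.1, h4.congr_of_eventuallyEq hev⟩
  · have h1 := logDeriv_gam l (1 / 2 + x * I) (fun α hα => by
      have := ha α hα
      simp only [add_re, mul_re, ofReal_re, I_re, ofReal_im, I_im, mul_zero, mul_one, sub_self, add_zero]
      norm_num
      linarith)
    have e : γ = fun s => (l.map fun α => Gammaℝ (s + α)).prod := funext hγ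
    rw [e]
    exact ⟨h1.2.2, h1.2.1⟩
  · have e1 : ∀ x : ℝ, Real.log Q + 2 * (logDeriv γ (1 / 2 + x * I)).re = Y23.G.GD (L := toL (ofRawT w ha)) x := fun x => by
      rw [GD_eq, arch_eq l ha hγ]
      rfl
    obtain ⟨C, hC, hb⟩ := Y23.G.GD_bd (L := toL (ofRawT w ha))
    have hcont := Y23.G.GD_cont (L := toL (ofRawT w ha))
    simp only [e1, M_line]
    refine (hf.2.const_mul C).mono' ?_ (Eventually.of_forall fun x => ?_)
    · exact (hcont.mul ((Y23.G.TT_line_cont hf.1).norm.pow 2)).aestronglyMeasurable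
    · rw [norm_mul, Real.norm_eq_abs, Real.norm_of_nonneg (sq_nonneg _), ← mul_assoc]
      exact mul_le_mul_of_nonneg_right (hb x).1 (sq_nonneg _)

theorem virt : S_Virt := by
  intro r e m p Q γ G h
  choose hL ht0 hG hγ hI hQ0 using fun i => one (h i)
  choose L hm hQ hc hu hW using hL
  choose t0 ht0 using ht0
  -- the traces
  have htr : IsTr (fun s => ∏ i, G i s ^ e i) (fun n => ∑ i, (e i : ℂ) * t0 i n) := by
    choose σ1 h1 using ht0
    choose σ2 h2 using hG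
    have hbd : ∀ i, max (σ1 i) (σ2 i) ≤ ∑ j, |max (σ1 j) (σ2 j)| := fun i =>
      (le_abs_self _).trans (Finset.single_le_sum (f := fun j => |max (σ1 j) (σ2 j)|) (fun _ _ => abs_nonneg _) (Finset.mem_univ i))
    refine ⟨∑ j, |max (σ1 j) (σ2 j)| + 1, fun s hs => ?_⟩
    have k1 : ∀ i, σ1 i ≤ s.re := fun i => by linarith [hbd i, le_max_left (σ1 i) (σ2 i)]
    have k2 : ∀ i, σ2 i < s.re := fun i => by linarith [hbd i, le_max_right (σ1 i) (σ2 i)]
    have k3 : logDeriv (fun s => ∏ i, G i s ^ e i) s = ∑ i, (e i : ℂ) * logDeriv (G i) s := by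
      rw [logDeriv_prod (f := fun i s => G i s ^ e i) (fun i _ => zpow_ne_zero _ (h2 i s (k2 i)).1)
        (fun i _ => (h2 i s (k2 i)).2.zpow (Or.inl (h2 i s (k2 i)).1))]
      exact Finset.sum_congr rfl fun i _ => logDeriv_fun_zpow (h2 i s (k2 i)).2 (e i)
    rw [k3, ← Finset.sum_neg_distrib]
    have k4 := hasSum_sum (s := Finset.univ) (f := fun (i : Fin r) (n : ℕ) => (e i : ℂ) *
      (((ArithmeticFunction.vonMangoldt n : ℝ) : ℂ) * t0 i n * (n : ℂ) ^ (-s))) (a := fun i => (e i : ℂ) * (-logDeriv (G i) s))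
      (fun i _ => (h1 i s (k1 i)).mul_left _)
    have e1 : (fun n : ℕ => ((ArithmeticFunction.vonMangoldt n : ℝ) : ℂ) * (∑ i, (e i : ℂ) * t0 i n) * (n : ℂ) ^ (-s)) =
        fun n : ℕ => ∑ i, (e i : ℂ) * (((ArithmeticFunction.vonMangoldt n : ℝ) : ℂ) * t0 i n * (n : ℂ) ^ (-s)) := by
      funext n
      rw [Finset.mul_sum, Finset.sum_mul]
      exact Finset.sum_congr rfl fun i _ => by ring
    rw [e1]
    have e2 : ∑ i, -((e i : ℂ) * logDeriv (G i) s) = ∑ i, (e i : ℂ) * (-logDeriv (G i) s) :=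
      Finset.sum_congr rfl fun i _ => by ring
    rw [e2]
    exact k4
  refine ⟨L, fun i => ⟨hm i, hQ i⟩, hc, hu, ⟨_, htr⟩, fun t ht a f ha hf => ?_⟩
  have hun := tr_uniq ht htr
  -- the archimedean part
  have hlog : ∀ x : ℝ, Real.log (∏ i, Q i ^ e i) + 2 * (logDeriv (fun s => ∏ i, γ i s ^ e i) (1 / 2 + x * I)).re =
      ∑ i, (e i : ℝ) * (Real.log (Q i) + 2 * (logDeriv (γ i) (1 / 2 + x * I)).re) := by
    intro x
    rw [Real.log_prod (fun i _ => zpow_ne_zero _ (hQ0 i)),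
      logDeriv_prod (f := fun i s => γ i s ^ e i) (fun i _ => zpow_ne_zero _ (hγ i x).1)
        (fun i _ => (hγ i x).2.zpow (Or.inl (hγ i x).1)), Complex.re_sum, Finset.mul_sum, ← Finset.sum_add_distrib]
    refine Finset.sum_congr rfl fun i _ => ?_
    rw [Real.log_zpow, logDeriv_fun_zpow (hγ i x).2 (e i)]
    have : (((e i : ℤ) : ℂ) * logDeriv (γ i) (1 / 2 + x * I)).re = (e i : ℝ) * (logDeriv (γ i) (1 / 2 + x * I)).re := by
      rw [show ((e i : ℤ) : ℂ) = (((e i : ℤ) : ℝ) : ℂ) by push_cast; rfl, Complex.re_ofReal_mul]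
    rw [this]
    ring
  have hint : ∫ x : ℝ, (Real.log (∏ i, Q i ^ e i) + 2 * (logDeriv (fun s => ∏ i, γ i s ^ e i) (1 / 2 + x * I)).re) * ‖M f (1 / 2 + x * I)‖ ^ 2 =
      ∑ i, (e i : ℝ) * ∫ x : ℝ, (Real.log (Q i) + 2 * (logDeriv (γ i) (1 / 2 + x * I)).re) * ‖M f (1 / 2 + x * I)‖ ^ 2 := by
    simp only [hlog, Finset.sum_mul]
    rw [integral_finsetSum _ (fun i _ => by
      have := (hI i a f hf).const_mul (e i : ℝ)
      refine this.congr (Eventually.of_forall fun x => ?_)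
      simp only
      ring)]
    refine Finset.sum_congr rfl fun i _ => ?_
    rw [← integral_const_mul]
    refine integral_congr_ae (Eventually.of_forall fun x => ?_)
    simp only
    ring
  -- the prime powers
  have hpr : ∑ n ∈ Finset.Icc 1 ⌊Real.exp (2 * a)⌋₊, ((ArithmeticFunction.vonMangoldt n : ℝ) : ℂ) / ((Real.sqrt n : ℝ) : ℂ) * t n *
      (∫ x : ℝ, f (x + Real.log n) * (starRingEnd ℂ) (f x)) =
      ∑ i, (e i : ℂ) * ∑ n ∈ Finset.Icc 1 ⌊Real.exp (2 * a)⌋₊, ((ArithmeticFunction.vonMangoldt n : ℝ) : ℂ) / ((Real.sqrt n : ℝ) : ℂ) * t0 i n *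
        (∫ x : ℝ, f (x + Real.log n) * (starRingEnd ℂ) (f x)) := by
    simp only [Finset.mul_sum]
    rw [Finset.sum_comm]
    refine Finset.sum_congr rfl fun n _ => ?_
    have e1 := hun n
    rw [div_mul_eq_mul_div, e1, Finset.mul_sum, Finset.sum_div, Finset.sum_mul]
    refine Finset.sum_congr rfl fun i _ => ?_
    ring
  have hWi : ∀ i, W (L i) a f = WG (p i) (Q i) (γ i) (t0 i) a f := fun i => (hW i _ (ht0 i) a f).symm
  simp only [hWi]
  unfold WZ WG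
  rw [hint, hpr, Complex.re_sum]
  have e3 : ∀ i, ((e i : ℂ) * ∑ n ∈ Finset.Icc 1 ⌊Real.exp (2 * a)⌋₊, ((ArithmeticFunction.vonMangoldt n : ℝ) : ℂ) / ((Real.sqrt n : ℝ) : ℂ) * t0 i n *
        (∫ x : ℝ, f (x + Real.log n) * (starRingEnd ℂ) (f x))).re =
      (e i : ℝ) * (∑ n ∈ Finset.Icc 1 ⌊Real.exp (2 * a)⌋₊, ((ArithmeticFunction.vonMangoldt n : ℝ) : ℂ) / ((Real.sqrt n : ℝ) : ℂ) * t0 i n *
        (∫ x : ℝ, f (x + Real.log n) * (starRingEnd ℂ) (f x))).re := fun i => by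
    rw [show ((e i : ℤ) : ℂ) = (((e i : ℤ) : ℝ) : ℂ) by push_cast; rfl, Complex.re_ofReal_mul]
  simp only [e3]
  push_cast
  simp only [Finset.mul_sum, Finset.sum_mul, ← Finset.sum_add_distrib, ← Finset.sum_sub_distrib]
  refine Finset.sum_congr rfl fun i _ => ?_
  ring

end Pool.Agent.Q286.IX
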