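import Pool.Agent.Q286.IX.Out4
import Pool.Agent.Q286.IX.EffS
import Pool.Agent.Q286.EW.AllU
import Pool.Agent.Q198.IX.Cir
import Pool.Agent.Q149.IX.Tst
import Pool.Agent.Q68.IX.IdxD
import Pool.Agent.Q151.IX.ClsD
import Pool.Agent.Q164.IX.QuoBase
import Pool.Agent.Q166.IX.PEN
import Pool.Agent.Q162.IX.ProdZ
import Pool.Agent.Q286.IX.Virt

set_option autoImplicit false

/-!
# Project IX: all parts together
-/

namespace Pool.Agent.Q286.IX

theorem jx : JX where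
  fam := famS Pool.Agent.Q164.EW.RU.rotU (Pool.Agent.Q198.IX.cirS Pool.Agent.Q164.EW.RU.rotU)
    (Pool.Agent.Q149.IX.tstS Pool.Agent.Q162.EW.cutU Pool.Agent.Q164.EW.ker)
  idx := Pool.Agent.Q68.IX.idxD
  cls := Pool.Agent.Q151.IX.clsD
  prz := Pool.Agent.Q162.IX.prodZ
  vir := virt
  quo := Pool.Agent.Q164.IX.quo_
  pen := Pool.Agent.Q166.IX.pen

end Pool.Agent.Q286.IX
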