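import Pool.Agent.Q286.IX.Out4
import Pool.Agent.Q286.XG.EK2

set_option autoImplicit false

/-!
# Project IX: elliptic curves over number fields whose L-function is a quotient of two L-functions
-/

open Filter Topology Finset MeasureTheory Complex NumberField IsDedekindDomain
open scoped ComplexConjugate

namespace Pool.Agent.Q286.IX

open Pool.Agent.Q286.TR Pool.Agent.Q286.XG
open Pool.Agent.H921R2.TatePole (nm two_le_nm nm_summable)
open Pool.Agent.TH839.UH (EL dg mu dg_pos mu_cases)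
open Pool.Agent.TH839.UH.NF (gv)
open Pool.Agent.Q286.GB (roots facts)
open Pool.Agent.W355.UN (Conv prod_get)
open Pool.Agent.TH839.NA (RawT RawTL)

/-! ### an L-function is in the class -/

/-- the Gamma factor -/
noncomputable def gamL (L : LFunction) (s : ℂ) : ℂ := ∏ j, Gammaℝ (s + L.α j)

lemma gamL_eq (L : LFunction) (s : ℂ) : gamL L s = ((List.ofFn L.α).map fun α => Gammaℝ (s + α)).prod := by
  unfold gamL
  rw [List.map_ofFn, List.prod_ofFn]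
  rfl

lemma raw_cast {m m' r : ℕ} {N : ℝ} {b c X} (h : m = m') {a : Fin m → ℂ} {a' : Fin m' → ℂ} (ha : ∀ j : Fin m', a' j = a (j.cast h.symm))
    (w : RawT (1 / 2) m r N a b c X) : RawT (1 / 2) m' r N a' b c X := by
  subst h
  have : a' = a := funext fun j => ha j
  rw [this]
  exact w

/-- an L-function is in the class -/
lemma inD_of (L : LFunction) : InD L.m L.r L.Q (gamL L) (LSeries L.b) := by
  have hraw : RawT (1 / 2) L.m L.r L.Q L.α L.b (fun n => if n = 0 then 0 else L.c n) L.Λ := (toL L).raw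
  refine ⟨List.ofFn L.α, L.b, fun n => if n = 0 then 0 else L.c n, L.Λ, List.length_ofFn, ?_, fun α hα => ?_, fun s => gamL_eq L s,
    0, fun s _ => rfl⟩
  · exact raw_cast List.length_ofFn.symm (fun j => List.get_ofFn L.α j) hraw
  · obtain ⟨j, rfl⟩ := (List.mem_ofFn).1 hα
    exact L.α_re j

/-! ### the traces -/

lemma tr_coeffs {m : ℕ} {lam c : ℕ → ℂ} (l1 : lam 1 = 1) (cb : ∀ n : ℕ, ‖c n‖ ≤ m * Real.sqrt n) (conv : Conv lam c) {G : ℂ → ℂ}
    (hG : ∃ σ : ℝ, ∀ s : ℂ, σ ≤ s.re → G s = LSeries lam s) : IsTr G c := by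
  obtain ⟨σ, hσ⟩ := hG
  have cb' : ∀ n : ℕ, ‖c n‖ ≤ m * (n : ℝ) ^ (1 / 2 : ℝ) := fun n => by
    rw [← Real.sqrt_eq_rpow]
    exact cb n
  refine ⟨max σ 3 + 1, fun s hs => ?_⟩
  have h3 : 3 < s.re := by linarith [le_max_right σ 3]
  have h4 : σ < s.re := by linarith [le_max_left σ 3]
  have hs' : 1 < (s - ((1 / 2 : ℝ) : ℂ)).re := by
    rw [sub_re, ofReal_re]
    linarith
  obtain ⟨-, -, k3⟩ := Pool.Agent.W672.UN.coef m (fun n => lam n * Pool.Agent.TH839.NA.pw (-(1 / 2)) n)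
    (fun n => c n * Pool.Agent.TH839.NA.pw (-(1 / 2)) n) (by rw [l1, Pool.Agent.TH839.NA.pw_one, one_mul])
    (Pool.Agent.TH839.NA.cb_tw cb') (Pool.Agent.TH839.NA.conv_pw conv _) (s - ((1 / 2 : ℝ) : ℂ)) hs'
  have h5 : logDeriv (LSeries lam) s =
      -LSeries (fun n => ((ArithmeticFunction.vonMangoldt n : ℝ) : ℂ) * (c n * Pool.Agent.TH839.NA.pw (-(1 / 2)) n))
        (s - ((1 / 2 : ℝ) : ℂ)) := by
    rw [Pool.Agent.TH839.NA.lser_shift lam (1 / 2), ← k3, logDeriv_apply, logDeriv_apply, deriv_comp_sub_const]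
  have hopen : IsOpen {z : ℂ | σ < z.re} := isOpen_lt continuous_const Complex.continuous_re
  have hev : G =ᶠ[𝓝 s] LSeries lam := by
    filter_upwards [hopen.mem_nhds h4] with z hz
    exact hσ z (le_of_lt hz)
  have h6 : logDeriv G s = logDeriv (LSeries lam) s := by
    unfold logDeriv
    simp only [Pi.div_apply]
    rw [hev.deriv_eq, hev.eq_of_nhds]
  have h12 : LSeries (fun n => ((ArithmeticFunction.vonMangoldt n : ℝ) : ℂ) * (c n * Pool.Agent.TH839.NA.pw (-(1 / 2)) n))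
      (s - ((1 / 2 : ℝ) : ℂ)) = LSeries (fun n => ((ArithmeticFunction.vonMangoldt n : ℝ) : ℂ) * c n) s := by
    unfold LSeries
    refine tsum_congr fun n => ?_
    rw [← Pool.Agent.TH839.NA.term_shift _ (1 / 2) s n]
    simp only [mul_assoc]
  rw [h6, h5, neg_neg, h12]
  refine hasSum_of ?_
  refine LSeriesSummable_of_le_const_mul_rpow (x := 5 / 2) (by linarith) ⟨m, fun n hn => ?_⟩
  have h7 := cb' n
  have hn0 : (0 : ℝ) < n := by exact_mod_cast Nat.pos_of_ne_zero hn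
  have h8 : ArithmeticFunction.vonMangoldt n ≤ Real.log n := ArithmeticFunction.vonMangoldt_le_log
  have h9 : Real.log n ≤ n := (Real.log_le_sub_one_of_pos hn0).trans (by linarith)
  rw [norm_mul, Complex.norm_real, Real.norm_of_nonneg ArithmeticFunction.vonMangoldt_nonneg]
  have h10 : (n : ℝ) ^ ((5 / 2 : ℝ) - 1) = n * (n : ℝ) ^ (1 / 2 : ℝ) := by
    rw [show (5 / 2 : ℝ) - 1 = 1 + 1 / 2 by norm_num, Real.rpow_add hn0, Real.rpow_one]
  rw [h10]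
  have h11 : 0 ≤ (m : ℝ) * (n : ℝ) ^ (1 / 2 : ℝ) := by positivity
  calc ArithmeticFunction.vonMangoldt n * ‖c n‖ ≤ n * ((m : ℝ) * (n : ℝ) ^ (1 / 2 : ℝ)) := by
        apply mul_le_mul (h8.trans h9) h7 (norm_nonneg _) hn0.le
    _ = _ := by ring

/-- the L-series of an L-function is not `0` far to the right -/
lemma lser_ne (L : LFunction) {s : ℂ} (hs : 2 ≤ s.re) : LSeries L.b s ≠ 0 :=
  (RawT.coef (toL L).raw (s := s) (by norm_num; linarith)).2.1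

section
variable {K : Type} [Field K] [NumberField K]
variable {a δ : HeightOneSpectrum (𝓞 K) → ℂ}

/-- the local data of an elliptic curve -/
structure Loc (a δ : HeightOneSpectrum (𝓞 K) → ℂ) : Prop where
  ha : ∀ v, ‖a v‖ ≤ nm v
  rea : ∀ v, conj (a v) = a v
  hd : ∀ v, δ v = 0 ∨ δ v = (nm v : ℂ)

/-- the normalised Frobenius eigenvalues and the coefficients (copy of `TR.coeffs`) -/
theorem coeffs' (h : Loc a δ) :
    ∃ (β : HeightOneSpectrum (𝓞 K) → Fin 2 → ℂ) (lam c : ℕ → ℂ), lam 1 = 1 ∧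
      (∀ n : ℕ, ‖c n‖ ≤ ((dg K + dg K : ℕ) : ℝ) * Real.sqrt n) ∧
      (∀ n : ℕ, n ≠ 0 → lam n * ((Real.log n : ℝ) : ℂ) =
        ∑ d ∈ n.divisors, ((ArithmeticFunction.vonMangoldt d : ℝ) : ℂ) * c d * lam (n / d)) ∧
      (∀ s : ℂ, 2 ≤ s.re → LSeries lam s = EL a δ (s + 1 / 2)) ∧
      (∀ n : ℕ, ((ArithmeticFunction.vonMangoldt n : ℝ) : ℂ) * c n = Th nm β n) ∧
      ∀ (v : HeightOneSpectrum (𝓞 K)) (k : ℕ), ∑ j, β v j ^ k = fr a δ v k * (((Real.sqrt (nm v : ℝ) : ℝ) : ℂ) ^ k)⁻¹ := by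
  classical
  have hd := h.hd
  choose r hr1 hr2 using fun v => roots (nm v) (two_le_nm v) (a v) (δ v) (h.rea v) (h.ha v) (hd v)
  have hs0 : ∀ v : HeightOneSpectrum (𝓞 K), (0 : ℝ) < Real.sqrt (nm v : ℝ) := fun v => by
    refine Real.sqrt_pos.2 ?_
    have := two_le_nm v
    exact_mod_cast (by omega : 0 < nm v)
  obtain ⟨β, hβ⟩ : ∃ β : HeightOneSpectrum (𝓞 K) → Fin 2 → ℂ, β = fun v j => r v j * (((Real.sqrt (nm v : ℝ) : ℝ) : ℂ))⁻¹ := ⟨_, rfl⟩
  have hβn : ∀ v j, ‖β v j‖ ≤ Real.sqrt (nm v) := fun v j => by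
    rw [hβ]
    show ‖r v j * (((Real.sqrt (nm v : ℝ) : ℝ) : ℂ))⁻¹‖ ≤ _
    rw [norm_mul, norm_inv, Complex.norm_real, Real.norm_of_nonneg (hs0 v).le, ← div_eq_mul_inv, div_le_iff₀ (hs0 v),
      Real.mul_self_sqrt (Nat.cast_nonneg _)]
    exact hr1 v j
  have hsum : Summable (fun v : HeightOneSpectrum (𝓞 K) => (nm v : ℝ) ^ (-(3 / 2) : ℝ)) := nm_summable (K := K) (x := 3 / 2) (by norm_num)
  obtain ⟨lam, mu, l0, m0, l1, lsum, msum, linv, lser⟩ := facts.eul (HeightOneSpectrum (𝓞 K)) 2 (fun v => nm v) β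
    (fun v => two_le_nm v) hsum hβn
  have htrc := Pool.Agent.Q150.TR.t_TRC (HeightOneSpectrum (𝓞 K)) 2 (fun v => nm v) β (fun v => two_le_nm v) hsum hβn lam l0 lsum lser
  have hnrm := Pool.Agent.Q210.TR.t_NRM K 2 β hβn
  have hthc : ∀ n : ℕ, ‖Th (fun v : HeightOneSpectrum (𝓞 K) => nm v) β n‖ ≤
    ((2 : ℕ) : ℝ) * dg K * Real.sqrt n * ArithmeticFunction.vonMangoldt n := fun n => hnrm n
  obtain ⟨c, hc⟩ : ∃ c : ℕ → ℂ, c = fun n => Th (fun v : HeightOneSpectrum (𝓞 K) => nm v) β n / ((ArithmeticFunction.vonMangoldt n : ℝ) : ℂ) := ⟨_, rfl⟩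
  have hΛc : ∀ n : ℕ, ((ArithmeticFunction.vonMangoldt n : ℝ) : ℂ) * c n = Th nm β n := fun n => by
    rw [hc]
    rcases eq_or_ne (ArithmeticFunction.vonMangoldt n) 0 with h0 | h0
    · have h1 := hthc n
      rw [h0, mul_zero, norm_le_zero_iff] at h1
      rw [h0]
      show ((0 : ℝ) : ℂ) * _ = _
      rw [Complex.ofReal_zero, zero_mul]
      exact h1.symm
    · have h1 : ((ArithmeticFunction.vonMangoldt n : ℝ) : ℂ) ≠ 0 := by exact_mod_cast h0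
      show ((ArithmeticFunction.vonMangoldt n : ℝ) : ℂ) * (_ / _) = _
      rw [mul_div_cancel₀ _ h1]
  refine ⟨β, lam, c, l1, fun n => ?_, fun n hn => ?_, fun s hs => ?_, hΛc, fun v k => ?_⟩
  · have h2 : (0 : ℝ) ≤ ((dg K + dg K : ℕ) : ℝ) * Real.sqrt n := by positivity
    rw [hc]
    show ‖Th (fun v : HeightOneSpectrum (𝓞 K) => nm v) β n / ((ArithmeticFunction.vonMangoldt n : ℝ) : ℂ)‖ ≤ _
    rw [norm_div, Complex.norm_real, Real.norm_of_nonneg ArithmeticFunction.vonMangoldt_nonneg]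
    refine div_le_of_le_mul₀ ArithmeticFunction.vonMangoldt_nonneg h2 ?_
    refine (hthc n).trans (le_of_eq ?_)
    push_cast
    ring
  · rw [htrc n hn]
    refine Finset.sum_congr rfl fun d _ => ?_
    rw [hΛc d]
  · have h1 := lser s hs
    have h2 : LSeries lam s = ∑' n : ℕ, lam n * (n : ℂ) ^ (-s) := by
      unfold LSeries
      refine tsum_congr fun n => ?_
      rcases Nat.eq_zero_or_pos n with rfl | hn
      · rw [LSeries.term_zero, l0, zero_mul]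
      · rw [LSeries.term_of_ne_zero hn.ne', Complex.cpow_neg, div_eq_mul_inv]
    rw [h2, h1.tsum_eq]
    unfold EL
    refine tprod_congr fun v => ?_
    have hn : ((nm v : ℕ) : ℂ) ≠ 0 := by
      have := two_le_nm v
      exact_mod_cast (by omega : nm v ≠ 0)
    rw [Finset.prod_inv_distrib]
    congr 1
    obtain ⟨X, hX⟩ : ∃ X : ℂ, X = (((Real.sqrt (nm v : ℝ) : ℝ) : ℂ))⁻¹ * ((nm v : ℕ) : ℂ) ^ (-s) := ⟨_, rfl⟩
    have e0 : (((Real.sqrt (nm v : ℝ) : ℝ) : ℂ))⁻¹ = ((nm v : ℕ) : ℂ) ^ (-(1 / 2) : ℂ) := by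
      rw [Real.sqrt_eq_rpow, Complex.ofReal_cpow (Nat.cast_nonneg _), Complex.cpow_neg]
      push_cast
      rfl
    have e1 : ((nm v : ℕ) : ℂ) ^ (-(s + 1 / 2)) = X := by
      rw [hX, e0, ← Complex.cpow_add _ _ hn]
      congr 1
      ring
    have e2 : ((nm v : ℕ) : ℂ) ^ (-2 * (s + 1 / 2)) = X ^ 2 := by
      rw [← e1, ← Complex.cpow_nat_mul]
      congr 1
      push_cast
      ring
    have e3 : ∀ j : Fin 2, β v j * ((nm v : ℕ) : ℂ) ^ (-s) = r v j * X := fun j => by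
      rw [hX, hβ]
      ring
    simp only [e3]
    rw [← hr2 v X]
    unfold gv
    rw [e1, e2]
    ring
  · rw [Fin.sum_univ_two, hβ, (fr_pow (hr2 v) k).1]
    simp only [mul_pow, inv_pow]
    ring

open Pool.Agent.H921R2.TatePole in
/-- the sum over the places -/
lemma fin_part {β : HeightOneSpectrum (𝓞 K) → Fin 2 → ℂ} {c : ℕ → ℂ} (hΛc : ∀ n : ℕ, ((ArithmeticFunction.vonMangoldt n : ℝ) : ℂ) * c n = Th nm β n)
    (hsum : ∀ (v : HeightOneSpectrum (𝓞 K)) (k : ℕ), ∑ j, β v j ^ k = fr a δ v k * (((Real.sqrt (nm v : ℝ) : ℝ) : ℂ) ^ k)⁻¹)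
    (b : ℝ) (g : ℝ → ℂ) :
    ∑ n ∈ Finset.Icc 1 ⌊Real.exp (2 * b)⌋₊, ((ArithmeticFunction.vonMangoldt n : ℝ) : ℂ) / ((Real.sqrt n : ℝ) : ℂ) * c n *
      ∫ x : ℝ, g (x + Real.log n) * (starRingEnd ℂ) (g x) =
    ∑ᶠ x ∈ {x : HeightOneSpectrum (𝓞 K) × ℕ | 1 ≤ x.2 ∧ (nm x.1 : ℝ) ^ x.2 ≤ Real.exp (2 * b)},
      Real.log (nm x.1) / (nm x.1 : ℂ) ^ x.2 * fr a δ x.1 x.2 *
      ∫ y : ℝ, g (y + x.2 * Real.log (nm x.1)) * (starRingEnd ℂ) (g y) := by
  have h1 := Pool.Agent.Q210.TR.t_REG (HeightOneSpectrum (𝓞 K)) 2 (fun v => nm v) β (fun v => two_le_nm v)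
    (fun M => fin_nm M) ⌊Real.exp (2 * b)⌋₊
    (fun n => ((Real.sqrt n : ℝ) : ℂ)⁻¹ * ∫ x : ℝ, g (x + Real.log n) * (starRingEnd ℂ) (g x))
  have h2 : ∑ n ∈ Finset.Icc 1 ⌊Real.exp (2 * b)⌋₊, ((ArithmeticFunction.vonMangoldt n : ℝ) : ℂ) / ((Real.sqrt n : ℝ) : ℂ) * c n *
      ∫ x : ℝ, g (x + Real.log n) * (starRingEnd ℂ) (g x) =
      ∑ n ∈ Finset.Icc 1 ⌊Real.exp (2 * b)⌋₊, Th (fun v : HeightOneSpectrum (𝓞 K) => nm v) β n *
        (((Real.sqrt n : ℝ) : ℂ)⁻¹ * ∫ x : ℝ, g (x + Real.log n) * (starRingEnd ℂ) (g x)) := by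
    refine Finset.sum_congr rfl fun n _ => ?_
    have h3 := hΛc n
    show ((ArithmeticFunction.vonMangoldt n : ℝ) : ℂ) / ((Real.sqrt n : ℝ) : ℂ) * c n * _ = Th nm β n * _
    rw [← h3]
    ring
  rw [h2, h1]
  have hset : {x : HeightOneSpectrum (𝓞 K) × ℕ | 1 ≤ x.2 ∧ nm x.1 ^ x.2 ≤ ⌊Real.exp (2 * b)⌋₊} =
      {x : HeightOneSpectrum (𝓞 K) × ℕ | 1 ≤ x.2 ∧ (nm x.1 : ℝ) ^ x.2 ≤ Real.exp (2 * b)} := by
    ext x
    refine and_congr_right fun _ => ?_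
    rw [Nat.le_floor_iff (Real.exp_pos _).le, Nat.cast_pow]
  rw [hset]
  refine finsum_mem_congr rfl fun x hx => ?_
  have h5 : (0 : ℝ) < nm x.1 := by
    have := two_le_nm x.1
    exact_mod_cast (by omega : 0 < nm x.1)
  have h6 : Real.sqrt ((nm x.1 ^ x.2 : ℕ) : ℝ) = Real.sqrt (nm x.1 : ℝ) ^ x.2 := by
    rw [Nat.cast_pow, Real.sqrt_eq_rpow, Real.sqrt_eq_rpow, ← Real.rpow_natCast, ← Real.rpow_natCast,
      ← Real.rpow_mul h5.le, ← Real.rpow_mul h5.le, mul_comm]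
  have h7 : Real.log ((nm x.1 ^ x.2 : ℕ) : ℝ) = x.2 * Real.log (nm x.1) := by
    rw [Nat.cast_pow, Real.log_pow]
  rw [hsum x.1 x.2, h6, h7]
  have h8 : ((Real.sqrt (nm x.1 : ℝ) : ℝ) : ℂ) * ((Real.sqrt (nm x.1 : ℝ) : ℝ) : ℂ) = (nm x.1 : ℂ) := by
    rw [← Complex.ofReal_mul, Real.mul_self_sqrt h5.le]
    simp
  have h9 : (nm x.1 : ℂ) ^ x.2 = ((Real.sqrt (nm x.1 : ℝ) : ℝ) : ℂ) ^ x.2 * ((Real.sqrt (nm x.1 : ℝ) : ℝ) : ℂ) ^ x.2 := by
    rw [← mul_pow, h8]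
  rw [h9, Complex.ofReal_pow]
  rw [div_eq_mul_inv, mul_inv]
  ring

/-- the archimedean part -/
lemma arch_part {A B : LFunction} {d : ℕ} (hγ : ∀ s : ℂ, 0 < s.re → gamL A s = Gammaℂ (s + 1 / 2) ^ d * gamL B s) (x : ℝ) :
    2 * (logDeriv (fun s => gamL A s / gamL B s) (1 / 2 + x * I)).re =
      d * (2 * (digamma (1 + x * I)).re - 2 * Real.log (2 * Real.pi)) := by
  obtain ⟨z, hz⟩ : ∃ z : ℂ, z = 1 / 2 + x * I := ⟨_, rfl⟩
  have hzre : z.re = 1 / 2 := by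
    rw [hz]
    simp
  have hL : ∀ L : LFunction, gamL L z ≠ 0 ∧ DifferentiableAt ℂ (gamL L) z := by
    intro L
    have h1 := (logDeriv_gam (List.ofFn L.α) z (fun α hα => by
      obtain ⟨j, rfl⟩ := (List.mem_ofFn).1 hα
      have := L.α_re j
      rw [add_re, hzre]
      linarith))
    have e : gamL L = fun s => ((List.ofFn L.α).map fun α => Gammaℝ (s + α)).prod := funext (gamL_eq L)
    rw [e]
    exact ⟨h1.2.2, h1.2.1⟩
  have hev : (fun s => gamL A s / gamL B s) =ᶠ[𝓝 z] fun s => (([-(-1 / 2 : ℂ), -(-3 / 2 : ℂ)].map fun α => Gammaℝ (s + α)).prod) ^ d := by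
    have hopen : IsOpen {w : ℂ | 0 < w.re} := isOpen_lt continuous_const Complex.continuous_re
    have h1 : ∀ᶠ w in 𝓝 z, gamL B w ≠ 0 := (hL B).2.continuousAt.eventually_ne (hL B).1
    filter_upwards [hopen.mem_nhds (show 0 < z.re by rw [hzre]; norm_num), h1] with w hw hB
    rw [hγ w hw, mul_div_cancel_right₀ _ hB]
    simp only [List.map_cons, List.map_nil, List.prod_cons, List.prod_nil, mul_one]
    have e1 : w + -(-1 / 2 : ℂ) = w + 1 / 2 := by ring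
    have e2 : w + -(-3 / 2 : ℂ) = w + 1 / 2 + 1 := by ring
    rw [e1, e2, Gammaℝ_mul_Gammaℝ_add_one]
  have h2 := logDeriv_gam [-(-1 / 2 : ℂ), -(-3 / 2 : ℂ)] z (fun α hα => by
    simp only [List.mem_cons, List.not_mem_nil, or_false] at hα
    rcases hα with rfl | rfl
    · rw [add_re, hzre]
      norm_num
    · rw [add_re, hzre]
      norm_num)
  have h3 : logDeriv (fun s => gamL A s / gamL B s) z =
      d * logDeriv (fun s => (([-(-1 / 2 : ℂ), -(-3 / 2 : ℂ)].map fun α => Gammaℝ (s + α)).prod)) z := by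
    have e : logDeriv (fun s => gamL A s / gamL B s) z =
        logDeriv (fun s => (([-(-1 / 2 : ℂ), -(-3 / 2 : ℂ)].map fun α => Gammaℝ (s + α)).prod) ^ d) z := by
      rw [logDeriv_apply, logDeriv_apply, hev.deriv_eq, hev.eq_of_nhds]
    rw [e]
    exact logDeriv_fun_pow h2.2.1 d
  rw [← hz, h3, h2.1]
  have h4 := digamma_dup (t := x)
  have h5 : Real.log (2 * Real.pi) = Real.log 2 + Real.log Real.pi := Real.log_mul (by norm_num) Real.pi_pos.ne'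
  have e6 : (z + -(-1 / 2 : ℂ)) / 2 = (1 + x * I) / 2 := by rw [hz]; ring
  have e7 : (z + -(-3 / 2 : ℂ)) / 2 = (2 + x * I) / 2 := by rw [hz]; ring
  simp only [List.map_cons, List.map_nil, List.sum_cons, List.sum_nil, add_zero]
  rw [e6, e7, h5]
  have e8 : logDeriv Gamma ((1 + (x : ℂ) * I) / 2) = digamma ((1 + x * I) / 2) := rfl
  have e9 : logDeriv Gamma ((2 + (x : ℂ) * I) / 2) = digamma ((2 + x * I) / 2) := rfl
  rw [e8, e9]
  have e10 : ((d : ℂ) * (-(Real.log Real.pi : ℂ) / 2 + 1 / 2 * digamma ((1 + x * I) / 2) +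
      (-(Real.log Real.pi : ℂ) / 2 + 1 / 2 * digamma ((2 + x * I) / 2)))).re =
      d * (-Real.log Real.pi + 1 / 2 * ((digamma ((1 + x * I) / 2)).re + (digamma ((2 + x * I) / 2)).re)) := by
    have e11 : ((d : ℂ) * (-(Real.log Real.pi : ℂ) / 2 + 1 / 2 * digamma ((1 + x * I) / 2) +
      (-(Real.log Real.pi : ℂ) / 2 + 1 / 2 * digamma ((2 + x * I) / 2)))) =
      ((d : ℝ) : ℂ) * (((-Real.log Real.pi : ℝ) : ℂ) + ((1 / 2 : ℝ) : ℂ) * (digamma ((1 + x * I) / 2) + digamma ((2 + x * I) / 2))) := by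
      push_cast
      ring
    rw [e11, Complex.re_ofReal_mul, Complex.add_re, Complex.ofReal_re, Complex.re_ofReal_mul, Complex.add_re]
  rw [e10, h4]
  ring

end

end Pool.Agent.Q286.IX
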