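import Pool.Agent.Q286.IX.Out4

set_option autoImplicit false

/-!
# Project IX: continuation of the L-series and of the completed function
-/

open Filter Topology Complex
open scoped ComplexConjugate

namespace Pool.Agent.Q286.IX

lemma ident {F G : ℂ → ℂ} (hF : Differentiable ℂ F) (hG : Differentiable ℂ G) (h : ∃ σ : ℝ, ∀ s : ℂ, σ ≤ s.re → F s = G s) : F = G := by
  obtain ⟨σ, h⟩ := h
  have h1 : AnalyticOnNhd ℂ F Set.univ := fun z _ => hF.analyticAt z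
  have h2 : AnalyticOnNhd ℂ G Set.univ := fun z _ => hG.analyticAt z
  funext s
  refine h1.eqOn_of_preconnected_of_eventuallyEq h2 isPreconnected_univ (Set.mem_univ ((σ + 1 : ℝ) : ℂ)) ?_ (Set.mem_univ s)
  have hopen : IsOpen {z : ℂ | σ < z.re} := isOpen_lt continuous_const Complex.continuous_re
  filter_upwards [hopen.mem_nhds (show σ < (((σ + 1 : ℝ) : ℂ)).re by rw [ofReal_re]; linarith)] with z hz
  exact h z (le_of_lt hz)

lemma ord_top {f : ℂ → ℂ} (hf : Differentiable ℂ f) (h0 : ∃ s, f s ≠ 0) (s : ℂ) : analyticOrderAt f s ≠ ⊤ := by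
  intro h
  obtain ⟨w, hw⟩ := h0
  have h1 : ∀ᶠ z in 𝓝 s, f z = 0 := analyticOrderAt_eq_top.1 h
  have h2 : AnalyticOnNhd ℂ f Set.univ := fun z _ => hf.analyticAt z
  exact hw (h2.eqOn_zero_of_preconnected_of_eventuallyEq_zero isPreconnected_univ (Set.mem_univ s) h1 (Set.mem_univ w))

/-- continuation of the L-series `H` (for large real part `f = γ H g`, `δ = 1 / γ` entire and without zeros for `0 < Re s`) -/
theorem ent (hQ : S_Quo) {f g δ H : ℂ → ℂ} {x0 : ℝ} (hx0 : 0 < x0) (hf : Differentiable ℂ f) (hg : Differentiable ℂ g)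
    (hf0 : ∃ s, f s ≠ 0) (hg0 : ∃ σ : ℝ, ∀ s : ℂ, σ ≤ s.re → g s ≠ 0)
    (hfs : ∀ s, analyticOrderNatAt f (2 * x0 - conj s) = analyticOrderNatAt f s)
    (hgs : ∀ s, analyticOrderNatAt g (2 * x0 - conj s) = analyticOrderNatAt g s)
    (hδ : Differentiable ℂ δ) (hδ0 : ∀ s : ℂ, 0 < s.re → δ s ≠ 0) (hH : ∃ σ : ℝ, ∀ s : ℂ, σ ≤ s.re → δ s * f s = H s * g s) :
    ((∃ F : ℂ → ℂ, Differentiable ℂ F ∧ ∃ σ : ℝ, ∀ s : ℂ, σ ≤ s.re → F s = H s) ↔
      ∃ Λ : ℂ → ℂ, Differentiable ℂ Λ ∧ ∀ s, Λ s * g s = f s) ∧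
    ((∃ F : ℂ → ℂ, Differentiable ℂ F ∧ (∃ σ : ℝ, ∀ s : ℂ, σ ≤ s.re → F s = H s) ∧ ∀ s : ℂ, 0 < s.re → F s = 0 → s.re = x0) ↔
      ∃ Λ : ℂ → ℂ, Differentiable ℂ Λ ∧ (∀ s, Λ s * g s = f s) ∧ ∀ s, Λ s = 0 → s.re = x0) := by
  obtain ⟨σg, hσg⟩ := hg0
  obtain ⟨σH, hσH⟩ := hH
  have hg0' : ∃ s, g s ≠ 0 := ⟨(σg : ℂ), hσg _ (by rw [ofReal_re])⟩
  obtain ⟨q1, q2⟩ := hQ f g hf hg hf0 hg0'
  -- the identity for an entire continuation
  have hid : ∀ F : ℂ → ℂ, Differentiable ℂ F → (∃ σ : ℝ, ∀ s : ℂ, σ ≤ s.re → F s = H s) → (fun s => F s * g s) = fun s => δ s * f s := by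
    rintro F hF ⟨σ, hσ⟩
    refine ident (hF.mul hg) (hδ.mul hf) ⟨max σ σH, fun s hs => ?_⟩
    show F s * g s = δ s * f s
    rw [hσ s ((le_max_left _ _).trans hs), hσH s ((le_max_right _ _).trans hs)]
  -- from `F` to `Λ`
  have fwd : ∀ F : ℂ → ℂ, Differentiable ℂ F → (∃ σ : ℝ, ∀ s : ℂ, σ ≤ s.re → F s = H s) →
      ∃ Λ : ℂ → ℂ, Differentiable ℂ Λ ∧ (∀ s, Λ s * g s = f s) ∧ F = fun s => δ s * Λ s := by
    intro F hF hFH
    have e := hid F hF hFH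
    have hr : ∀ s : ℂ, 0 < s.re → analyticOrderNatAt g s ≤ analyticOrderNatAt f s := by
      intro s hs
      have h1 : analyticOrderAt (fun s => F s * g s) s = analyticOrderAt F s + analyticOrderAt g s :=
        analyticOrderAt_mul (hF.analyticAt s) (hg.analyticAt s)
      have h2 : analyticOrderAt (fun s => δ s * f s) s = analyticOrderAt δ s + analyticOrderAt f s :=
        analyticOrderAt_mul (hδ.analyticAt s) (hf.analyticAt s)
      have h3 : analyticOrderAt δ s = 0 := (hδ.analyticAt s).analyticOrderAt_eq_zero.2 (hδ0 s hs)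
      have h4 : analyticOrderAt g s ≤ analyticOrderAt f s := by
        have h5 : analyticOrderAt F s + analyticOrderAt g s = analyticOrderAt f s := by
          rw [← h1, e, h2, h3, zero_add]
        rw [← h5]
        exact le_add_self
      unfold analyticOrderNatAt
      exact ENat.toNat_le_toNat h4 (ord_top hf hf0 s)
    obtain ⟨Λ, hΛ, hΛ2⟩ := q1 fun s => by
      by_cases hs : 0 < s.re
      · exact hr s hs
      · have h1 := hr (2 * x0 - conj s) (by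
          have e1 : (2 * (x0 : ℂ) - conj s).re = 2 * x0 - s.re := by simp
          rw [e1]
          linarith)
        rwa [hfs, hgs] at h1
    refine ⟨Λ, hΛ, hΛ2, ident hF (hδ.mul hΛ) ⟨σg, fun s hs => ?_⟩⟩
    have h1 := congrFun e s
    have h2 : F s * g s = δ s * f s := h1
    rw [← hΛ2 s, ← mul_assoc] at h2
    exact mul_right_cancel₀ (hσg s hs) h2
  have bwd : ∀ Λ : ℂ → ℂ, Differentiable ℂ Λ → (∀ s, Λ s * g s = f s) → ∃ σ : ℝ, ∀ s : ℂ, σ ≤ s.re → (fun s => δ s * Λ s) s = H s := by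
    intro Λ hΛ hΛ2
    refine ⟨max σg σH, fun s hs => ?_⟩
    have h1 := hσH s ((le_max_right _ _).trans hs)
    rw [← hΛ2 s, ← mul_assoc] at h1
    exact mul_right_cancel₀ (hσg s ((le_max_left _ _).trans hs)) h1
  refine ⟨⟨?_, ?_⟩, ⟨?_, ?_⟩⟩
  · rintro ⟨F, hF, hFH⟩
    obtain ⟨Λ, h1, h2, -⟩ := fwd F hF hFH
    exact ⟨Λ, h1, h2⟩
  · rintro ⟨Λ, h1, h2⟩
    exact ⟨fun s => δ s * Λ s, hδ.mul h1, bwd Λ h1 h2⟩
  · rintro ⟨F, hF, hFH, hz⟩
    obtain ⟨Λ, h1, h2, h3⟩ := fwd F hF hFH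
    have hz' : ∀ s : ℂ, 0 < s.re → Λ s = 0 → s.re = x0 := by
      intro s hs h4
      refine hz s hs ?_
      rw [h3]
      show δ s * Λ s = 0
      rw [h4, mul_zero]
    refine ⟨Λ, h1, h2, fun s h4 => ?_⟩
    by_cases hs : 0 < s.re
    · exact hz' s hs h4
    · exfalso
      have h5 := ((q2 Λ h1 h2 s).2).1 h4
      have h6 : Λ (2 * x0 - conj s) = 0 := ((q2 Λ h1 h2 _).2).2 (by rw [hfs, hgs]; exact h5)
      have e1 : (2 * (x0 : ℂ) - conj s).re = 2 * x0 - s.re := by simp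
      have h7 := hz' _ (by rw [e1]; linarith) h6
      rw [e1] at h7
      linarith
  · rintro ⟨Λ, h1, h2, h3⟩
    refine ⟨fun s => δ s * Λ s, hδ.mul h1, bwd Λ h1 h2, fun s hs h4 => h3 s ?_⟩
    exact (mul_eq_zero.1 h4).resolve_left (hδ0 s hs)

end Pool.Agent.Q286.IX
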