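import Pool.Agent.Q286.IX.EK
import Pool.Agent.Q286.IX.Ent

set_option autoImplicit false

/-!
# Project IX: the theorem for elliptic curves over number fields
-/

open Filter Topology Finset MeasureTheory Complex NumberField IsDedekindDomain
open scoped ComplexConjugate

namespace Pool.Agent.Q286.IX

open Pool.Agent.Q286.TR Pool.Agent.Q286.XG
open Pool.Agent.H921R2.TatePole (nm two_le_nm nm_summable)
open Pool.Agent.TH839.UH (EL dg dg_pos)

section
variable {K : Type} [Field K] [NumberField K]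
variable {a δ : HeightOneSpectrum (𝓞 K) → ℂ}

/-- `L_A (s) = L_E (s + 1/2) L_B (s)`, with the right conductor and Gamma factor -/
structure QuoE (a δ : HeightOneSpectrum (𝓞 K) → ℂ) (N : ℝ) (A B : LFunction) : Prop where
  loc : Loc a δ
  hN : 0 < N
  hQ : A.Q = N * B.Q
  hr : A.r = B.r
  hγ : ∀ s : ℂ, 0 < s.re → gamL A s = Gammaℂ (s + 1 / 2) ^ dg K * gamL B s
  hL : ∃ σ : ℝ, ∀ s : ℂ, σ ≤ s.re → LSeries A.b s = EL a δ (s + 1 / 2) * LSeries B.b s

lemma isComp_of (L : LFunction) : IsComp L.r L.Q (gamL L) (LSeries L.b) L.Λ := ⟨L.entire, L.dirichlet⟩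

lemma gamC_ne {s : ℂ} (hs : 0 < s.re) : Gammaℂ s ≠ 0 := by
  rw [Gammaℂ_def]
  refine mul_ne_zero (mul_ne_zero two_ne_zero ?_) (Complex.Gamma_ne_zero_of_re_pos hs)
  rw [Ne, Complex.cpow_eq_zero_iff]
  have : (2 : ℂ) * (Real.pi : ℂ) ≠ 0 := mul_ne_zero two_ne_zero (by exact_mod_cast Real.pi_ne_zero)
  exact fun h => this h.1

/-- the theorem for `E / K` -/
theorem outK (J : JX) {A B : LFunction} {N : ℝ} (h : QuoE a δ N A B) :
    OutI (WK a δ N) (Deg 1) (fun s => (analyticOrderNatAt A.Λ (s - 1 / 2) : ℤ) - analyticOrderNatAt B.Λ (s - 1 / 2)) 1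
      ((A.m + B.m : ℕ) : ℝ) (A.Q * B.Q) ∧
    (∀ n, Exactly 1 (fun s => (analyticOrderNatAt A.Λ (s - 1 / 2) : ℤ)) n ↔ Index (W A) (Deg 1) n) ∧
    (∀ n, Index (W A) (Deg 1) n → ((∃ F : ℂ → ℂ, Differentiable ℂ F ∧ ∃ σ : ℝ, ∀ s : ℂ, σ ≤ s.re → F s = EL a δ s) ↔
      ∀ p q : ℕ, 1 ≤ p → 1 ≤ q → Index (fun b f => q * W A b f + p * WK a δ N b f) (Deg 1) n)) ∧
    ((∃ F : ℂ → ℂ, Differentiable ℂ F ∧ (∃ σ : ℝ, ∀ s : ℂ, σ ≤ s.re → F s = EL a δ s) ∧ ∀ s : ℂ, 0 < s.re → F s = 0 → s.re = 1) ↔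
      AtMost 1 (fun s => (analyticOrderNatAt A.Λ (s - 1 / 2) : ℤ) - analyticOrderNatAt B.Λ (s - 1 / 2)) 0) := by
  obtain ⟨β, lam, c, l1, cb, conv, ser, hΛc, hsum⟩ := coeffs' h.loc
  obtain ⟨σ, hσ⟩ := h.hL
  obtain ⟨L1, L2, ⟨hm1, hQ1⟩, ⟨hm2, hQ2⟩, ⟨hc1, hu1⟩, ⟨hc2, hu2⟩, -, h1, h2, h3⟩ := quot4 J (inD_of A) (inD_of B) 1 1
  have e1 : A.Λ = L1.Λ := hu1 _ (isComp_of A)
  have e2 : B.Λ = L2.Λ := hu2 _ (isComp_of B)
  have es : ∀ s : ℂ, s - ((1 : ℝ) : ℂ) + 1 / 2 = s - 1 / 2 := fun s => by push_cast; ring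
  simp only [es, ← e1, ← e2] at h1 h2 h3
  -- the traces of the quotient
  have htr : IsTr (fun s => LSeries A.b s / LSeries B.b s) c := by
    refine tr_coeffs (m := dg K + dg K) l1 cb conv ⟨max σ 2, fun s hs => ?_⟩
    rw [hσ s ((le_max_left _ _).trans hs), ser s ((le_max_right _ _).trans hs),
      mul_div_cancel_right₀ _ (lser_ne B ((le_max_right _ _).trans hs))]
  have htA0 : IsTr (LSeries A.b) (fun n => if n = 0 then 0 else A.c n) := by
    refine tr_coeffs (m := A.m) A.b_one (fun n => ?_) (fun n hn => ?_) ⟨0, fun s _ => rfl⟩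
    · by_cases hn : n = 0
      · rw [if_pos hn, norm_zero]
        positivity
      · rw [if_neg hn]
        exact A.c_bound n hn
    · rw [A.euler n hn]
      refine Finset.sum_congr rfl fun d hd => ?_
      rw [if_neg (Nat.pos_of_mem_divisors hd).ne']
  have htA : IsTr (LSeries A.b) A.c := by
    obtain ⟨σ1, h5⟩ := htA0
    refine ⟨σ1, fun s hs => ?_⟩
    have h6 := h5 s hs
    have e : (fun n : ℕ => ((ArithmeticFunction.vonMangoldt n : ℝ) : ℂ) * (if n = 0 then 0 else A.c n) * (n : ℂ) ^ (-s)) =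
        fun n : ℕ => ((ArithmeticFunction.vonMangoldt n : ℝ) : ℂ) * A.c n * (n : ℂ) ^ (-s) := by
      funext n
      by_cases hn : n = 0
      · rw [hn]
        simp
      · rw [if_neg hn]
    rw [e] at h6
    exact h6
  have hBQ : 0 < B.Q := lt_of_lt_of_le one_pos B.one_le_Q
  have eQ : A.Q / B.Q = N := by rw [h.hQ, mul_div_assoc, div_self hBQ.ne', mul_one]
  -- the form of the quotient
  have eW : WZ ((A.r : ℤ) - B.r) (A.Q / B.Q) (fun s => gamL A s / gamL B s) c = WK a δ N := by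
    funext b f
    unfold WZ WK
    rw [h.hr, sub_self, Int.cast_zero, mul_zero, zero_mul, zero_add, eQ]
    congr 1
    · congr 1
      refine integral_congr_ae (Eventually.of_forall fun t => ?_)
      simp only [mc_line]
      rw [arch_part h.hγ t]
    · exact congrArg (fun z : ℂ => 2 * z.re) (fin_part hΛc hsum b f)
  -- the form of `A`
  have eA : WG A.r A.Q (gamL A) A.c = W A := by
    funext b f
    unfold WG W
    have e3 : ∀ x : ℝ, Real.log A.Q + 2 * (logDeriv (gamL A) (1 / 2 + x * I)).re = Real.log A.Q +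
        ∑ j, ((digamma ((1 / 2 + x * I + A.α j) / 2)).re - Real.log Real.pi) := fun x => by
      rw [arch_eq (List.ofFn A.α) (fun α hα => by
        obtain ⟨j, rfl⟩ := (List.mem_ofFn).1 hα
        exact A.α_re j) (gamL_eq A)]
      congr 1
      rw [← List.sum_ofFn, ← List.sum_ofFn]
      congr 1
      have e4 : (fun j : Fin (List.ofFn A.α).length => (digamma ((1 / 2 + x * I + (List.ofFn A.α).get j) / 2)).re - Real.log Real.pi) =
          (fun α => (digamma ((1 / 2 + x * I + α) / 2)).re - Real.log Real.pi) ∘ (List.ofFn A.α).get := rfl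
      rw [e4, ← List.map_ofFn, List.ofFn_get, List.map_ofFn]
      rfl
    simp only [e3]
  have hH : OutI (WK a δ N) (Deg 1) (fun s => (analyticOrderNatAt A.Λ (s - 1 / 2) : ℤ) - analyticOrderNatAt B.Λ (s - 1 / 2)) 1
      ((A.m + B.m : ℕ) : ℝ) (A.Q * B.Q) := by
    have h4 := h1 c htr
    rw [eW] at h4
    exact h4
  have h2' := h2 A.c htA
  rw [eA] at h2'
  have h3' := h3 c A.c htr htA
  rw [eA, eW] at h3'
  -- the continuation of the L-series
  obtain ⟨δ0, hδ0⟩ : ∃ δ0 : ℂ → ℂ, δ0 = fun s => (N : ℂ) ^ (-((s - 1 / 2) / 2)) * ((Gammaℂ s)⁻¹) ^ dg K := ⟨_, rfl⟩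
  have hNc : (N : ℂ) ≠ 0 := by exact_mod_cast h.hN.ne'
  have hδd : Differentiable ℂ δ0 := by
    rw [hδ0]
    refine Differentiable.mul ?_ (Complex.differentiable_Gammaℂ_inv.pow _)
    intro s
    refine DifferentiableAt.const_cpow (by fun_prop) (Or.inl hNc)
  have hδn : ∀ s : ℂ, 0 < s.re → δ0 s ≠ 0 := by
    intro s hs
    rw [hδ0]
    refine mul_ne_zero ?_ (pow_ne_zero _ (inv_ne_zero (gamC_ne hs)))
    rw [Ne, Complex.cpow_eq_zero_iff]
    exact fun h => hNc h.1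
  have hfd : Differentiable ℂ fun s => A.Λ (s - 1 / 2) := A.entire.comp (by fun_prop)
  have hgd : Differentiable ℂ fun s => B.Λ (s - 1 / 2) := B.entire.comp (by fun_prop)
  have hord : ∀ (L : LFunction) (s : ℂ), analyticOrderNatAt (fun s => L.Λ (s - 1 / 2)) s = analyticOrderNatAt L.Λ (s - 1 / 2) := by
    intro L s
    have h5 : analyticOrderAt (L.Λ ∘ fun s : ℂ => s - 1 / 2) s = analyticOrderAt L.Λ (s - 1 / 2) := by
      refine analyticOrderAt_comp_of_deriv_ne_zero (by fun_prop) ?_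
      simp
    unfold analyticOrderNatAt
    exact congrArg ENat.toNat h5
  have hrf : ∀ (L : LFunction) (s : ℂ), analyticOrderNatAt (fun s => L.Λ (s - 1 / 2)) (2 * ((1 : ℝ) : ℂ) - conj s) =
      analyticOrderNatAt (fun s => L.Λ (s - 1 / 2)) s := by
    intro L s
    rw [hord, hord]
    have e : 2 * ((1 : ℝ) : ℂ) - conj s - 1 / 2 = 1 - conj (s - 1 / 2) := by
      rw [map_sub, map_div₀, map_one, map_ofNat]
      push_cast
      ring
    rw [e, ord_refl]
  obtain ⟨σA, hσA⟩ := A.dirichlet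
  obtain ⟨σB, hσB⟩ := B.dirichlet
  obtain ⟨w1, w2⟩ := ent J.quo (f := fun s => A.Λ (s - 1 / 2)) (g := fun s => B.Λ (s - 1 / 2)) (δ := δ0) (H := EL a δ) (x0 := 1) one_pos
    hfd hgd (by
      obtain ⟨s, hs⟩ := ne_zero A
      exact ⟨s + 1 / 2, by simpa using hs⟩)
    ⟨3, fun s hs => Y23.G.X_ne (L := toL B) (by
      rw [sub_re]
      norm_num
      linarith)⟩ (hrf A) (hrf B) hδd hδn ⟨max (max (max σA σB) σ) 1 + 3 / 2, fun s hs => by
      have k1 : (s - 1 / 2).re = s.re - 1 / 2 := by simp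
      have k2 : max (max (max σA σB) σ) 1 + 1 ≤ (s - 1 / 2).re := by rw [k1]; linarith
      have k0 := le_max_left (max (max σA σB) σ) 1
      have k0' := le_max_right (max (max σA σB) σ) 1
      have k3 := le_max_left (max σA σB) σ
      have k4 := le_max_left σA σB
      have k5 := le_max_right σA σB
      have k6 := le_max_right (max σA σB) σ
      show δ0 s * A.Λ (s - 1 / 2) = EL a δ s * B.Λ (s - 1 / 2)
      rw [hσA _ (by linarith), hσB _ (by linarith), h.hr, h.hQ]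
      have k7 := h.hγ (s - 1 / 2) (by linarith)
      have k8 := hσ (s - 1 / 2) (by linarith)
      have k9 : s - 1 / 2 + 1 / 2 = s := by ring
      rw [k9] at k7 k8
      have k10 : ∏ j, Gammaℝ (s - 1 / 2 + A.α j) = Gammaℂ s ^ dg K * ∏ j, Gammaℝ (s - 1 / 2 + B.α j) := k7
      have k11 : Gammaℂ s ≠ 0 := gamC_ne (by rw [k1] at k2; linarith)
      have k12 : ((N * B.Q : ℝ) : ℂ) ^ ((s - 1 / 2) / 2) = (N : ℂ) ^ ((s - 1 / 2) / 2) * (B.Q : ℂ) ^ ((s - 1 / 2) / 2) := by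
        rw [Complex.ofReal_mul, Complex.mul_cpow_ofReal_nonneg h.hN.le hBQ.le]
      have k13 : (N : ℂ) ^ (-((s - 1 / 2) / 2)) * (N : ℂ) ^ ((s - 1 / 2) / 2) = 1 := by
        rw [← Complex.cpow_add _ _ hNc, neg_add_cancel, Complex.cpow_zero]
      have k14 : ((Gammaℂ s)⁻¹) ^ dg K * Gammaℂ s ^ dg K = 1 := by
        rw [← mul_pow, inv_mul_cancel₀ k11, one_pow]
      rw [k10, k8, k12, hδ0]
      have k15 : ∀ n1 n2 g1 g2 P q G E LB : ℂ, n1 * n2 = 1 → g1 * g2 = 1 →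
          n1 * g1 * (P * (n2 * q * (g2 * G)) * (E * LB)) = E * (P * (q * G) * LB) := by
        intro n1 n2 g1 g2 P q G E LB h1 h2
        calc n1 * g1 * (P * (n2 * q * (g2 * G)) * (E * LB)) = (n1 * n2) * (g1 * g2) * (E * (P * (q * G) * LB)) := by ring
          _ = _ := by rw [h1, h2]; ring
      exact k15 _ _ _ _ _ _ _ _ _ k13 k14⟩
  refine ⟨hH, h2', fun n hn => (w1.trans ?_).trans (h3' n hn), w2.trans ?_⟩
  · constructor
    · rintro ⟨u, hu, hu2⟩
      refine ⟨fun s => u (s + 1 / 2), hu.comp (by fun_prop), fun s => ?_⟩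
      have := hu2 (s + 1 / 2)
      simpa using this
    · rintro ⟨u, hu, hu2⟩
      exact ⟨fun s => u (s - 1 / 2), hu.comp (by fun_prop), fun s => hu2 (s - 1 / 2)⟩
  · have k := crit J.quo hfd hgd (by
      obtain ⟨s, hs⟩ := ne_zero A
      exact ⟨s + 1 / 2, by simpa using hs⟩) (by
      obtain ⟨s, hs⟩ := ne_zero B
      exact ⟨s + 1 / 2, by simpa using hs⟩) 1
    simp only [hord] at k
    exact k.symm

end

end Pool.Agent.Q286.IX
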