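import Pool.Agent.Q286.IX.Stm
import Pool.Agent.Q286.PG.Asm
import Pool.Agent.Q286.TR.Cls
import Pool.Agent.Q286.XG.Art2

set_option autoImplicit false
set_option linter.unusedVariables false

/-!
# Project IX, second part: virtual representations, classes of functions; statements of the lemma jobs
-/

open Filter Topology Finset MeasureTheory
open scoped ComplexConjugate

namespace Pool.Agent.Q286.IX

open Pool.Agent.Q286.EW
open Pool.Agent.Q286.TR Pool.Agent.Q286.XG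

/-- a class of representatives of the functions `Hn a ν` -/
structure Cls (D : ℝ → ℕ∞ → (ℝ → ℂ) → Prop) : Prop where
  sub : ∀ {a : ℝ} {ν : ℕ∞} {f : ℝ → ℂ}, 0 < a → D a ν f → Y23.G.F.Hn a ν f
  rep : ∀ {a : ℝ} {ν : ℕ∞} {f : ℝ → ℂ}, 0 < a → Y23.G.F.Hn a ν f → ∃ g, D a ν g ∧ ∀ w, Y23.TT g w = Y23.TT f w
  lin : ∀ {a : ℝ} {ν : ℕ∞} {n : ℕ} {g : Fin n → ℝ → ℂ}, 0 < a → (∀ i, D a ν (g i)) → ∀ c : Fin n → ℂ, D a ν (lc g c)

/-- `S_EffS` for the class `D` (helper286; `1 ≤ A`) -/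
def EffD (D : ℝ → ℕ∞ → (ℝ → ℂ) → Prop) : Prop := ∀ [L : Y23.G.LFun] (c : ℝ), c < Real.exp (Y23.G.kp (L := L) - 1) →
  ∃ C κ A B : ℝ, 0 < C ∧ 0 < κ ∧ 1 ≤ A ∧
  ∀ (a Y : ℝ) (ν : ℕ∞) (ω : ℂ → ℤ) (k : ℕ) (l : Fin k → ((ℝ → ℂ) →ₗ[ℂ] ℂ)), A ≤ a → B * a ≤ Y → Y ≤ Real.exp (2 * a / L.m) →
    ((⌈C * a * Real.exp (2 * a / L.m)⌉₊ : ℕ) : ℕ∞) ≤ ν → (k : ℝ) ≤ Real.exp (κ * Y) → Wt (L := L) ω →
    (∀ f : ℝ → ℂ, D a ν f → (∀ i, l i f = 0) → -(Real.exp (-Y) * Y23.N2 f) ≤ QS (D := Y23.G.zd) ω f) →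
      ∀ p : Fin (k + 1) → ℂ, (∀ j, Bad (L := L) ω (Real.exp (-(κ * Y / a))) (p j) ∧ |(p j).im| ≤ c * Real.exp (2 * a / L.m)) →
        ∃ i j, i ≠ j ∧ (‖p i - p j‖ ≤ 2 * Real.exp (-(κ * Y / a)) ∨ ‖p i + (starRingEnd ℂ) (p j)‖ ≤ 2 * Real.exp (-(κ * Y / a)))

/-- the index theorem for the class `D` -/
def IdxD (D : ℝ → ℕ∞ → (ℝ → ℂ) → Prop) : Prop := ∀ [L : Y23.G.LFun], ∃ C : ℝ, 0 < C ∧ ∀ ω : ℂ → ℤ, Wt (L := L) ω → ∀ k : ℕ,
  (Most (L := L) ω k → ∀ a : ℝ, 0 < a → ∃ l : Fin k → ((ℝ → ℂ) →ₗ[ℂ] ℂ), ∀ (ν : ℕ∞) (f : ℝ → ℂ), D a ν f → (∀ i, l i f = 0) →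
    0 ≤ QS (D := Y23.G.zd) ω f) ∧
  ((∀ B A : ℝ, ∃ (a : ℝ) (ν : ℕ∞) (l : Fin k → ((ℝ → ℂ) →ₗ[ℂ] ℂ)), A ≤ a ∧ ((⌈C * a * Real.exp (2 * a / L.m)⌉₊ : ℕ) : ℕ∞) ≤ ν ∧
    ∀ f : ℝ → ℂ, D a ν f → (∀ i, l i f = 0) → -(Real.exp (-(B * a)) * Y23.N2 f) ≤ QS (D := Y23.G.zd) ω f) → Most (L := L) ω k)

/-- **IDXD** (job IX-IDXD): the index theorem for a class. Proof. Small changes in `Pool/Agent/Q211/IX/Idx.lean` (`EffD D` in place of `S_EffS`, `Cls.sub` in the first part; `A ≥ 1` gives `0 < a`). -/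
def S_IdxD : Prop := ∀ D : ℝ → ℕ∞ → (ℝ → ℂ) → Prop, Cls D → EffD D → IdxD D

/-- **CLSD** (job IX-CLSD): the class of the row files.
Proof. `sub`: `XG.deg_hn`; `rep`: `XG.hn_deg`; `lin`: a linear combination of trigonometric polynomials of degree at most `n`, cut off outside of `[-a, a]`, is one; for `ν = ⊤`: `XG.fd_iff` and the corresponding property of `Y23.G.Hd` (sums and multiples of functions in `MemLp`, with support in `[-a, a]`,
and `∫ Lg v ‖TT f (v I)‖² < ∞`, by `‖x + y‖² ≤ 2 ‖x‖² + 2 ‖y‖²`; induction over `n`, `Fin.sum_univ_succ`). -/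
def S_ClsD : Prop := ∀ c : ℂ, Cls (Deg c)

/-- the order of the virtual L-function `∏ Λ_i ^ (e i)` at `s` -/
noncomputable def oz {r : ℕ} (L : Fin r → Y23.G.LFun) (e : Fin r → ℤ) (s : ℂ) : ℤ := ∑ i, e i * (analyticOrderNatAt (L i).X s : ℤ)

/-- **PRODZ** (job IX-PRODZ): `S_Prod` for a virtual L-function `∏ Λ_i ^ (e i)`.
Proof. `Pool/Agent/Q176/IX/Prod.lean`: induction gives an `L` with `X = ∏ X_i ^ |e i|`, and `mult L.X = ∑ |e i| mult X_i`; the forms as there (`tm`, `tm_summable`, `QQ_eq`; finite sums). -/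
def S_ProdZ : Prop := ∀ (r : ℕ) (L : Fin r → Y23.G.LFun) (e : Fin r → ℤ), (∃ i, e i ≠ 0) →
  ∃ P : Y23.G.LFun, P.m = ∑ i, (e i).natAbs * (L i).m ∧ P.N = ∏ i, (L i).N ^ (e i).natAbs ∧
    (∀ s : ℂ, P.X s = ∏ i, (L i).X s ^ (e i).natAbs) ∧ Wt (L := P) (oz L e) ∧
    ∀ (a : ℝ) (f : ℝ → ℂ), 0 < a → Y23.G.Hd a f →
      QS (D := Y23.G.zd (L := P)) (oz L e) f = ∑ i, (e i : ℝ) * Y23.G.QQ (D := Y23.G.zd (L := L i)) f

/-- **QUO** (job IX-QUO): holomorphic quotients.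
Proof. `f`, `g` have finite orders everywhere (identity theorem). Near each `s`: `f = (z - s)^n u`, `g = (z - s)^k v`, `u s, v s ≠ 0`. If `k ≤ n` everywhere: `h = f / g` off the zeros of `g`, extended by its limits (locally `(z - s)^(n - k) u / v`; for instance `toMeromorphicNFOn`, or `Function.update` and the removable
singularity theorem, or define `h s = limUnder`). Conversely orders add (`analyticOrderNatAt_mul`). -/
def S_Quo : Prop := ∀ f g : ℂ → ℂ, Differentiable ℂ f → Differentiable ℂ g → (∃ s, f s ≠ 0) → (∃ s, g s ≠ 0) →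
  ((∀ s, analyticOrderNatAt g s ≤ analyticOrderNatAt f s) → ∃ h : ℂ → ℂ, Differentiable ℂ h ∧ ∀ s, h s * g s = f s) ∧
  ∀ h : ℂ → ℂ, Differentiable ℂ h → (∀ s, h s * g s = f s) →
    ∀ s, analyticOrderNatAt g s ≤ analyticOrderNatAt f s ∧ (h s = 0 ↔ analyticOrderNatAt g s < analyticOrderNatAt f s)

/-- at most `k` orbits `{s, 2 x0 - conj s}` of bad points -/
def AtMost (x0 : ℝ) (ω : ℂ → ℤ) (k : ℕ) : Prop := ∀ p : Fin (k + 1) → ℂ, (∀ j, ω (p j) < 0 ∨ (0 < ω (p j) ∧ (p j).re ≠ x0)) →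
  ∃ i j, i ≠ j ∧ (p i = p j ∨ p i = 2 * x0 - (starRingEnd ℂ) (p j))

/-- exactly `k` orbits of bad points -/
def Exactly (x0 : ℝ) (ω : ℂ → ℤ) (k : ℕ) : Prop := AtMost x0 ω k ∧ ∀ j, AtMost x0 ω j → k ≤ j

/-- **PEN** (job IX-PEN): holomorphy and the pencil. `m1`, `m2`: the orders of the numerator and of the denominator.
Proof. If `m2 ≤ m1` then for `p < q` `q m1 - p m2 > 0` exactly where `m1 > 0`, and it is `0` elsewhere: the bad points are those of `m1`. Conversely let `m1 s < m2 s`. (a) If `Re s = x0` or `m1 s = 0`: take `p` larger than `m1 s` and than `m1` at the (finitely many: at most `n` orbits) points with `m1 > 0`, `Re ≠ x0`, `q = p + 1`: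
`(p + 1) m1 ≠ p m2` at these points (otherwise `p` divides `m1`, `0 < m1 < p`), so they are all bad, and `s` is bad (`(p + 1) m1 s < p m2 s`) and in another orbit: at least `n + 1` orbits, a contradiction to `AtMost n`. (b) So `m1 ≥ m2` on the line and where `m1 = 0`; let `Re s ≠ x0`, `m1 s > 0`. For `q = m2 s`, `p = m1 s`, `1 ≤ p < q`: the bad points of
`q m1 - p m2` are points with `m1 > 0` off the line, and not in the orbit of `s`: at most `n - 1` orbits, a contradiction to `Exactly n` (`n ≥ 1` as `s` is bad for `m1`). It is useful to prove first: `AtMost k` iff there are `z : Fin k → ℂ` such that every bad point is `z i` or `2 x0 - conj (z i)` (cf. `cover` in `Q211/IX/Idx.lean`), and for exactly `k`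
orbits `z` can be chosen bad and in different orbits. -/
def S_Pen : Prop := ∀ (x0 : ℝ) (m1 m2 : ℂ → ℕ), (∀ s, m1 (2 * x0 - (starRingEnd ℂ) s) = m1 s) → (∀ s, m2 (2 * x0 - (starRingEnd ℂ) s) = m2 s) →
  ∀ n : ℕ, Exactly x0 (fun s => (m1 s : ℤ)) n →
    ((∀ s, m2 s ≤ m1 s) ↔ ∀ p q : ℕ, 1 ≤ p → p < q → Exactly x0 (fun s => (q : ℤ) * m1 s - p * m2 s) n)

/-- Weil's form of a virtual L-function: `r` the order of the pole, `Q` the conductor, `γ` the Gamma factor, `t` the traces (`WG` with `r : ℤ`) -/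
noncomputable def WZ (r : ℤ) (Q : ℝ) (γ : ℂ → ℂ) (t : ℕ → ℂ) (a : ℝ) (f : ℝ → ℂ) : ℝ :=
  2 * r * (M f 1 * (starRingEnd ℂ) (M f 0)).re +
    1 / (2 * Real.pi) * (∫ x : ℝ, (Real.log Q + 2 * (logDeriv γ (1 / 2 + x * Complex.I)).re) * ‖M f (1 / 2 + x * Complex.I)‖ ^ 2) -
    2 * (∑ n ∈ Finset.Icc 1 ⌊Real.exp (2 * a)⌋₊, ArithmeticFunction.vonMangoldt n / Real.sqrt n * t n *
      ∫ x : ℝ, f (x + Real.log n) * (starRingEnd ℂ) (f x)).re

/-- **VIRT** (job IX-VIRT): the form of a virtual L-function `∏ G_i ^ (e i)` (integer powers of complex numbers).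
Proof. `InD.lf` (`Q286/XG/Cl2.lean`) for each `i`: `L i`, traces `t i`, `WG (p i) (Q i) (γ i) (t i) a f = W (L i) a f`. For large real part `G i = LSeries b` is differentiable and not `0` (`W355.UN`, `Y23.G.X_ne`, or `RawT.coef`), so `logDeriv (∏ G_i ^ e_i) = ∑ e_i logDeriv G_i` near such points (`logDeriv_zpow`, `logDeriv_prod`);
so `∑ e_i t_i` are traces of the product, and `tr_uniq` gives `Λ(n) t n = ∑ e_i Λ(n) t_i n` for every `t`. `log ∏ Q_i ^ e_i = ∑ e_i log Q_i` (`Q_i ≥ 1`), `logDeriv (∏ γ_i ^ e_i) = ∑ e_i logDeriv γ_i` on the line (`logDeriv_gam`: differentiable, not `0`). The integral of the sum: each term is integrable, `Y23.G.Hd a f` contains the integrability of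
`log (3 + |v|) ‖TT f (v I)‖²` and `|log Q_i + 2 Re logDeriv γ_i| ≤ C log (3 + |v|)` (this is used in the proof of `Y23.G.weil`, see `Y23/G`). -/
def S_Virt : Prop := ∀ (r : ℕ) (e : Fin r → ℤ) (m p : Fin r → ℕ) (Q : Fin r → ℝ) (γ G : Fin r → ℂ → ℂ), (∀ i, InD (m i) (p i) (Q i) (γ i) (G i)) →
  ∃ L : Fin r → LFunction, (∀ i, (L i).m = m i ∧ (L i).Q = Q i) ∧ (∀ i, IsComp (p i) (Q i) (γ i) (G i) (L i).Λ) ∧ (∀ i Λ, IsComp (p i) (Q i) (γ i) (G i) Λ → Λ = (L i).Λ) ∧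
    (∃ t, IsTr (fun s => ∏ i, G i s ^ e i) t) ∧
    ∀ t, IsTr (fun s => ∏ i, G i s ^ e i) t → ∀ (a : ℝ) (f : ℝ → ℂ), 0 < a → Y23.G.Hd a f →
      WZ (∑ i, e i * p i) (∏ i, Q i ^ e i) (fun s => ∏ i, γ i s ^ e i) t a f = ∑ i, (e i : ℝ) * W (L i) a f

end Pool.Agent.Q286.IX
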