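import Pool.Agent.Q286.IX.EffS
import Pool.Agent.Q286.IX.Stm2

set_option autoImplicit false

/-!
# Project IX: the theorem at one scale for a class of functions
-/

open Filter Topology Finset MeasureTheory
open scoped ComplexConjugate

namespace Pool.Agent.Q286.IX

open Pool.Agent.Q286.EW
open Pool.Agent.Q286.TR Pool.Agent.Q286.XG

/-- the transform of a linear combination -/
lemma TT_lc {a : ℝ} {n : ℕ} {g : Fin n → ℝ → ℂ} (hg : ∀ i, Y23.Fa a (g i)) (c : Fin n → ℂ) (w : ℂ) :
    Y23.TT (lc g c) w = ∑ i, c i * Y23.TT (g i) w := by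
  have h : ∀ s : Finset (Fin n), Y23.Fa a (fun x => ∑ i ∈ s, c i * g i x) ∧ Y23.TT (fun x => ∑ i ∈ s, c i * g i x) w = ∑ i ∈ s, c i * Y23.TT (g i) w := by
    classical
    intro s
    induction s using Finset.induction_on with
    | empty =>
      refine ⟨?_, ?_⟩
      · simp only [Finset.sum_empty]
        exact ⟨MemLp.zero, fun _ _ => rfl⟩
      · simp only [Finset.sum_empty]
        unfold Y23.TT
        simp
    | insert i s hi ih =>
      have h1 : Y23.Fa a (fun x => c i * g i x) := Y23.Fa.smul (hg i) (c i)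
      have e : (fun x => ∑ j ∈ insert i s, c j * g j x) = (fun x => c i * g i x) + fun x => ∑ j ∈ s, c j * g j x := by
        funext x
        rw [Finset.sum_insert hi]
        rfl
      rw [e, Finset.sum_insert hi]
      refine ⟨Y23.Fa.add h1 ih.1, ?_⟩
      have h2 := Y23.TT_add h1 ih.1 w
      have h3 := Y23.TT_smul (g i) (c i) w
      refine h2.trans ?_
      rw [ih.2]
      congr 1
  exact (h Finset.univ).2

lemma lc_single {n : ℕ} (g : Fin n → ℝ → ℂ) (i : Fin n) : lc g (Pi.single i 1) = g i := by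
  funext x
  unfold lc
  rw [Finset.sum_eq_single i]
  · rw [Pi.single_eq_same, one_mul]
  · intro j _ hj
    rw [Pi.single_eq_of_ne hj, zero_mul]
  · intro h
    exact absurd (Finset.mem_univ i) h

/-- the form depends on the transform only -/
lemma QS_congr [D : Y23.G.ZD] {ω : ℂ → ℤ} {f g : ℝ → ℂ} (h : ∀ w, Y23.TT g w = Y23.TT f w) : QS ω g = QS ω f := by
  unfold QS
  refine tsum_congr fun ρ => ?_
  unfold Y23.G.GG
  rw [h, h]

/-- the theorem at one scale for a class -/
theorem effD (hF : S_Fam) (P : Pool.Agent.Q286.PG.S_ParC) {D : ℝ → ℕ∞ → (ℝ → ℂ) → Prop} (hD : Cls D) : EffD D := by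
  intro L c hc
  obtain ⟨C, κ, A, B, hC, hκ, hA, h⟩ := hF (L := L) c hc
  refine ⟨C, κ, A, B, hC, hκ, hA, fun a Y ν ω k l ha hB hY hν hk hω hpos p hp => ?_⟩
  have ha0 : 0 < a := by linarith
  by_contra hcon
  push Not at hcon
  obtain ⟨g, hg⟩ := h a Y ν ω k ha hB hY hν hk hω p hp hcon
  have hgi : ∀ i, Y23.G.F.Hn a ν (g i) := fun i => by
    have := (hg (Pi.single i 1)).1
    rwa [lc_single] at this
  choose g' hg'D hg'T using fun i => hD.rep ha0 (hgi i)
  obtain ⟨cc, hcc, hker⟩ := exists_ker l g'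
  have h1 : D a ν (lc g' cc) := hD.lin ha0 hg'D cc
  have h2 := hpos _ h1 hker
  have h3 : ∀ w, Y23.TT (lc g' cc) w = Y23.TT (lc g cc) w := by
    intro w
    rw [TT_lc (fun i => (hD.sub ha0 (hg'D i)).1) cc w, TT_lc (fun i => (hgi i).1) cc w]
    exact Finset.sum_congr rfl fun i _ => by rw [hg'T]
  have h4 : Y23.N2 (lc g' cc) = Y23.N2 (lc g cc) :=
    Pool.Agent.Q286.PG.N2_TT P ha0 (hg cc).1.1 (hD.sub ha0 h1).1 h3
  rw [QS_congr h3, h4] at h2
  have h5 := (hg cc).2 hcc
  linarith

end Pool.Agent.Q286.IX
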