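import Pool.Agent.Q286.IX.Stm2

set_option autoImplicit false

/-!
# Project IX: the theorem for the row files
-/

open Filter Topology Finset MeasureTheory
open scoped ComplexConjugate

namespace Pool.Agent.Q286.IX

open Pool.Agent.Q286.EW
open Pool.Agent.Q286.TR Pool.Agent.Q286.XG
open Pool.Agent.Q286.PG (LgX lgX_iff)

/-- `s` is a bad point, and isolated at the distance `δ` from the points with the other sign -/
def BadP (x0 : ℝ) (ω : ℂ → ℤ) (δ : ℝ) (s : ℂ) : Prop :=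
  (ω s < 0 ∧ ∀ s' : ℂ, 0 < ω s' → δ < ‖s' - s‖) ∨ (0 < ω s ∧ δ < |s.re - x0| ∧ ∀ s' : ℂ, ω s' < 0 → δ < ‖s' - s‖)

/-- the conclusions, in any normalisation -/
structure OutI (V : ℝ → (ℝ → ℂ) → ℝ) (D : ℝ → ℕ∞ → (ℝ → ℂ) → Prop) (ω : ℂ → ℤ) (x0 M N : ℝ) : Prop where
  one : ∀ c : ℝ, c < 2 * Real.pi * N ^ (-(1 / M)) → ∃ C κ A B : ℝ, 0 < C ∧ 0 < κ ∧
    ∀ (a Y : ℝ) (ν : ℕ∞) (k : ℕ) (l : Fin k → ((ℝ → ℂ) →ₗ[ℂ] ℂ)), A ≤ a → B * a ≤ Y → Y ≤ Real.exp (2 * a / M) →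
      LgX (C * a * Real.exp (2 * a / M)) ν → (k : ℝ) ≤ Real.exp (κ * Y) →
      (∀ f : ℝ → ℂ, D a ν f → (∀ i, l i f = 0) → -(Real.exp (-Y) * ∫ y : ℝ, ‖f y‖ ^ 2) ≤ V a f) →
      ∀ p : Fin (k + 1) → ℂ, (∀ j, BadP x0 ω (Real.exp (-(κ * Y / a))) (p j) ∧ |(p j).im| ≤ c * Real.exp (2 * a / M)) →
        ∃ i j, i ≠ j ∧ (‖p i - p j‖ ≤ 2 * Real.exp (-(κ * Y / a)) ∨
          ‖p i - (2 * x0 - (starRingEnd ℂ) (p j))‖ ≤ 2 * Real.exp (-(κ * Y / a)))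
  idx : ∃ C : ℝ, 0 < C ∧ ∀ k : ℕ,
    (AtMost x0 ω k → ∀ a : ℝ, 0 < a → ∃ l : Fin k → ((ℝ → ℂ) →ₗ[ℂ] ℂ), ∀ (ν : ℕ∞) (f : ℝ → ℂ), D a ν f → (∀ i, l i f = 0) → 0 ≤ V a f) ∧
    ((∀ B A : ℝ, ∃ (a : ℝ) (ν : ℕ∞) (l : Fin k → ((ℝ → ℂ) →ₗ[ℂ] ℂ)), A ≤ a ∧ LgX (C * a * Real.exp (2 * a / M)) ν ∧
      ∀ f : ℝ → ℂ, D a ν f → (∀ i, l i f = 0) → -(Real.exp (-(B * a)) * ∫ y : ℝ, ‖f y‖ ^ 2) ≤ V a f) → AtMost x0 ω k)

lemma kp_eq (P : Y23.G.LFun) : Real.exp (Y23.G.kp (L := P) - 1) = 2 * Real.pi * P.N ^ (-(1 / (P.m : ℝ))) := by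
  have hQ : 0 < P.N := lt_of_lt_of_le one_pos P.raw.hN
  have h1 : Y23.G.kp (L := P) = 1 + Real.log (2 * Real.pi) - Real.log P.N / P.m := rfl
  have hpi := Real.pi_pos
  have h2 : 1 + Real.log (2 * Real.pi) - Real.log P.N / P.m - 1 = Real.log (2 * Real.pi) + Real.log P.N * -(1 / (P.m : ℝ)) := by
    ring
  rw [Real.rpow_def_of_pos hQ, h1, h2, Real.exp_add, Real.exp_log (by positivity)]

/-- the theorem for the row files -/
theorem outI {D : ℝ → ℕ∞ → (ℝ → ℂ) → Prop} (hD : Cls D) (hE : EffD D) (hI : IdxD D) {P : Y23.G.LFun} {ω0 : ℂ → ℤ} (hω0 : Wt (L := P) ω0)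
    (hz : ∀ s, ω0 s ≠ 0 → P.X s = 0) {V : ℝ → (ℝ → ℂ) → ℝ}
    (hV : ∀ (a : ℝ) (f : ℝ → ℂ), 0 < a → Y23.G.Hd a f → V a f = QS (D := Y23.G.zd (L := P)) ω0 f)
    {M N x0 : ℝ} (hM : (P.m : ℝ) = M) (hN : P.N = N) {ω : ℂ → ℤ} (hω : ∀ s, ω s = ω0 (s - x0 + 1 / 2)) : OutI V D ω x0 M N := by
  have hsh : ∀ s : ℂ, ω s = ω0 (1 / 2 + (s - x0)) := fun s => by rw [hω, add_comm]
  have hre : ∀ s : ℂ, (s - x0).re = s.re - x0 := fun s => by simp
  have him : ∀ s : ℂ, (s - x0).im = s.im := fun s => by simp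
  -- the bad points in both normalisations
  have hbad : ∀ (δ : ℝ) (s : ℂ), BadP x0 ω δ s → Bad (L := P) ω0 δ (s - x0) := by
    intro δ s hs
    have hne : ω s ≠ 0 := by
      rcases hs with ⟨h, -⟩ | ⟨h, -⟩ <;> omega
    refine ⟨hz _ (by rw [← hsh]; exact hne), ?_⟩
    have hs' : ∀ w' : ℂ, ω0 (1 / 2 + w') = ω (w' + x0) := fun w' => by rw [hsh]; congr 1; ring
    have hd : ∀ w' : ℂ, ‖w' - (s - x0)‖ = ‖(w' + x0) - s‖ := fun w' => by congr 1; ring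
    rcases hs with ⟨h1, h2⟩ | ⟨h1, h2, h3⟩
    · refine Or.inl ⟨by rw [← hsh]; exact h1, fun w' _ hw' => ?_⟩
      rw [hd]
      exact h2 _ (by rw [← hs']; exact hw')
    · refine Or.inr ⟨by rw [← hsh]; exact h1, by rw [hre]; exact h2, fun w' _ hw' => ?_⟩
      rw [hd]
      exact h3 _ (by rw [← hs']; exact hw')
  have hrf : ∀ s s' : ℂ, ‖(s - x0) + conj (s' - x0)‖ = ‖s - (2 * x0 - conj s')‖ := by
    intro s s'
    congr 1
    rw [map_sub, Complex.conj_ofReal]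
    ring
  have hdf : ∀ s s' : ℂ, ‖(s - x0) - (s' - x0)‖ = ‖s - s'‖ := fun s s' => by congr 1; ring
  have hN2 : ∀ f : ℝ → ℂ, Y23.N2 f = ∫ y : ℝ, ‖f y‖ ^ 2 := fun f => rfl
  refine ⟨fun c hc => ?_, ?_⟩
  · obtain ⟨C, κ, A, B, hC, hκ, hA, h⟩ := hE (L := P) c (by rw [kp_eq, hM, hN]; exact hc)
    rw [hM] at h
    refine ⟨C, κ, A, B, hC, hκ, fun a Y ν k l ha hB hY hν hk hp p hpp => ?_⟩
    have ha0 : 0 < a := by linarith
    obtain ⟨i, j, hij, h1⟩ := h a Y ν ω0 k l ha hB hY (lgX_iff.1 hν) hk hω0 (fun f hf hl => by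
      rw [← hV a f ha0 (hD.sub ha0 hf).hd, hN2]
      exact hp f hf hl) (fun j => p j - x0) (fun j => ⟨hbad _ _ (hpp j).1, by rw [him]; exact (hpp j).2⟩)
    refine ⟨i, j, hij, ?_⟩
    rw [hdf, hrf] at h1
    exact h1
  · obtain ⟨C, hC, h⟩ := hI (L := P)
    rw [hM] at h
    refine ⟨C, hC, fun k => ?_⟩
    obtain ⟨h1, h2⟩ := h ω0 hω0 k
    refine ⟨fun hk a ha => ?_, fun hk p hp => ?_⟩
    · obtain ⟨l, hl⟩ := h1 (fun p hp => by
        obtain ⟨i, j, hij, h3⟩ := hk (fun j => p j + x0) (fun j => by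
          have e : ω (p j + x0) = ω0 (1 / 2 + p j) := by rw [hsh]; congr 1; ring
          rw [e]
          rcases (hp j).2 with h4 | ⟨h4, h5⟩
          · exact Or.inl h4
          · refine Or.inr ⟨h4, fun h6 => h5 ?_⟩
            have : (p j + x0).re = (p j).re + x0 := by simp
            rw [this] at h6
            linarith)
        refine ⟨i, j, hij, ?_⟩
        rcases h3 with h3 | h3
        · exact Or.inl (add_right_cancel h3)
        · right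
          rw [map_add, Complex.conj_ofReal] at h3
          linear_combination h3) a ha
      refine ⟨l, fun ν f hf hlf => ?_⟩
      rw [hV a f ha (hD.sub ha hf).hd]
      exact hl ν f hf hlf
    · have h3 : Most (L := P) ω0 k := by
        refine h2 fun B A => ?_
        obtain ⟨a, ν, l, ha, hν, hf⟩ := hk B (max A 1)
        have ha0 : 0 < a := lt_of_lt_of_le one_pos ((le_max_right _ _).trans ha)
        refine ⟨a, ν, l, (le_max_left _ _).trans ha, lgX_iff.1 hν, fun f hfD hl => ?_⟩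
        rw [← hV a f ha0 (hD.sub ha0 hfD).hd, hN2]
        exact hf f hfD hl
      obtain ⟨i, j, hij, h4⟩ := h3 (fun j => p j - x0) (fun j => by
        have hne : ω (p j) ≠ 0 := by
          rcases hp j with h | ⟨h, -⟩ <;> omega
        refine ⟨hz _ (by rw [← hsh]; exact hne), ?_⟩
        rw [← hsh]
        rcases hp j with h4 | ⟨h4, h5⟩
        · exact Or.inl h4
        · refine Or.inr ⟨h4, fun h6 => h5 ?_⟩
          rw [hre] at h6
          linarith)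
      refine ⟨i, j, hij, ?_⟩
      rcases h4 with h4 | h4
      · exact Or.inl (by linear_combination h4)
      · right
        rw [map_sub, Complex.conj_ofReal] at h4
        linear_combination h4

end Pool.Agent.Q286.IX
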