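import Pool.Agent.Q286.IX.Out
import Pool.Agent.Q286.IX.Gen
import Pool.Agent.Q286.PG.All

set_option autoImplicit false

/-!
# Project IX: the theorem for two L-functions with multiplicities, the index, the criteria
-/

open Filter Topology Finset MeasureTheory
open scoped ComplexConjugate

namespace Pool.Agent.Q286.IX

open Pool.Agent.Q286.EW
open Pool.Agent.Q286.TR Pool.Agent.Q286.XG
open Pool.Agent.Q286.PG (LgX lgX_iff)

/-- the lemma jobs -/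
structure JX : Prop where
  fam : S_Fam
  idx : S_IdxD
  cls : S_ClsD
  prz : S_ProdZ
  vir : S_Virt
  quo : S_Quo
  pen : S_Pen

lemma ord_zero {f : ℂ → ℂ} (hf : Differentiable ℂ f) {s : ℂ} (h : f s ≠ 0) : analyticOrderNatAt f s = 0 := by
  unfold analyticOrderNatAt
  rw [(hf.analyticAt s).analyticOrderAt_eq_zero.2 h]
  rfl

/-- two L-functions with multiplicities -/
theorem out2 (J : JX) {L1 L2 : LFunction} {q p : ℤ} (hqp : q ≠ 0 ∨ p ≠ 0) {V : ℝ → (ℝ → ℂ) → ℝ}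
    (hV : ∀ (a : ℝ) (f : ℝ → ℂ), 0 < a → Y23.G.Hd a f → V a f = q * W L1 a f - p * W L2 a f) (c : ℂ) {x0 M N : ℝ}
    (hM : ((q.natAbs * L1.m + p.natAbs * L2.m : ℕ) : ℝ) = M) (hN : L1.Q ^ q.natAbs * L2.Q ^ p.natAbs = N) {ω : ℂ → ℤ}
    (hω : ∀ s, ω s = q * analyticOrderNatAt L1.Λ (s - x0 + 1 / 2) - p * analyticOrderNatAt L2.Λ (s - x0 + 1 / 2)) :
    OutI V (Deg c) ω x0 M N := by
  obtain ⟨P, hPm, hPN, hPX, hPW, hPQ⟩ := J.prz 2 ![toL L1, toL L2] ![q, -p] (by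
    rcases hqp with h | h
    · exact ⟨0, by simpa using h⟩
    · exact ⟨1, by simpa using h⟩)
  have hoz : ∀ s, oz ![toL L1, toL L2] ![q, -p] s = q * analyticOrderNatAt L1.Λ s - p * analyticOrderNatAt L2.Λ s := by
    intro s
    unfold oz
    rw [Fin.sum_univ_two]
    show q * (analyticOrderNatAt L1.Λ s : ℤ) + -p * (analyticOrderNatAt L2.Λ s : ℤ) = _
    ring
  have hE : EffD (Deg c) := @effD J.fam Pool.Agent.Q286.PG.jp.par _ (J.cls c)
  refine outI (J.cls c) @hE (J.idx _ (J.cls c) @hE) hPW (fun s hs => ?_) (fun a f ha hf => ?_) (by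
      rw [← hM, hPm, Fin.sum_univ_two]
      show (((q.natAbs * L1.m + (-p).natAbs * L2.m : ℕ)) : ℝ) = _
      rw [Int.natAbs_neg]) (by
      rw [← hN, hPN, Fin.prod_univ_two]
      show L1.Q ^ q.natAbs * L2.Q ^ (-p).natAbs = _
      rw [Int.natAbs_neg]) (fun s => by rw [hω, hoz])
  · rw [hPX, Fin.prod_univ_two]
    show L1.Λ s ^ q.natAbs * L2.Λ s ^ (-p).natAbs = 0
    rw [Int.natAbs_neg]
    rw [hoz] at hs
    by_contra h0
    apply hs
    have h1 := left_ne_zero_of_mul h0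
    have h2 := right_ne_zero_of_mul h0
    have k1 : q * (analyticOrderNatAt L1.Λ s : ℤ) = 0 := by
      by_cases hq : q = 0
      · rw [hq, zero_mul]
      · rw [ord_zero L1.entire (fun h => h1 (by rw [h, zero_pow (Int.natAbs_ne_zero.2 hq)]))]
        simp
    have k2 : p * (analyticOrderNatAt L2.Λ s : ℤ) = 0 := by
      by_cases hp : p = 0
      · rw [hp, zero_mul]
      · rw [ord_zero L2.entire (fun h => h2 (by rw [h, zero_pow (Int.natAbs_ne_zero.2 hp)]))]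
        simp
    rw [k1, k2, sub_zero]
  · rw [hV a f ha hf, hPQ a f ha hf, Fin.sum_univ_two]
    show _ = (q : ℝ) * Y23.G.QQ (D := Y23.G.zd (L := toL L1)) f + ((-p : ℤ) : ℝ) * Y23.G.QQ (D := Y23.G.zd (L := toL L2)) f
    rw [W_eq L1 ha hf, W_eq L2 ha hf]
    push_cast
    ring

/-- `k` linear conditions are enough to make the form almost nonnegative, for arbitrarily large `a` -/
def Cond (V : ℝ → (ℝ → ℂ) → ℝ) (D : ℝ → ℕ∞ → (ℝ → ℂ) → Prop) (k : ℕ) : Prop := ∀ B A : ℝ, ∃ (a : ℝ) (l : Fin k → ((ℝ → ℂ) →ₗ[ℂ] ℂ)), A ≤ a ∧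
  ∀ f : ℝ → ℂ, D a ⊤ f → (∀ i, l i f = 0) → -(Real.exp (-(B * a)) * ∫ y : ℝ, ‖f y‖ ^ 2) ≤ V a f

/-- the index -/
def Index (V : ℝ → (ℝ → ℂ) → ℝ) (D : ℝ → ℕ∞ → (ℝ → ℂ) → Prop) (n : ℕ) : Prop := Cond V D n ∧ ∀ j, Cond V D j → n ≤ j

section

variable {V : ℝ → (ℝ → ℂ) → ℝ} {D : ℝ → ℕ∞ → (ℝ → ℂ) → Prop} {ω : ℂ → ℤ} {x0 M N : ℝ}

lemma OutI.cond (h : OutI V D ω x0 M N) (k : ℕ) : AtMost x0 ω k ↔ Cond V D k := by
  obtain ⟨C, hC, h1⟩ := h.idx
  refine ⟨fun hk B A => ?_, fun hk => (h1 k).2 fun B A => ?_⟩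
  · obtain ⟨l, hl⟩ := (h1 k).1 hk (max A 1) (lt_of_lt_of_le one_pos (le_max_right _ _))
    refine ⟨max A 1, l, le_max_left _ _, fun f hf hlf => le_trans ?_ (hl ⊤ f hf hlf)⟩
    have h2 : 0 ≤ ∫ y : ℝ, ‖f y‖ ^ 2 := integral_nonneg fun y => by positivity
    have h3 := mul_nonneg (Real.exp_pos (-(B * max A 1))).le h2
    linarith
  · obtain ⟨a, l, ha, hl⟩ := hk B A
    exact ⟨a, ⊤, l, ha, fun n hn => absurd hn.symm (ENat.natCast_ne_top n), hl⟩

lemma OutI.index (h : OutI V D ω x0 M N) (n : ℕ) : Exactly x0 ω n ↔ Index V D n := by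
  unfold Exactly Index
  rw [h.cond n]
  refine and_congr_right fun _ => forall_congr' fun j => ?_
  rw [h.cond j]

end

lemma atMost_zero {x0 : ℝ} {ω : ℂ → ℤ} : AtMost x0 ω 0 ↔ ∀ s, 0 ≤ ω s ∧ (0 < ω s → s.re = x0) := by
  constructor
  · intro h s
    by_contra h1
    obtain ⟨i, j, hij, -⟩ := h (fun _ => s) (fun _ => by
      by_cases h2 : ω s < 0
      · exact Or.inl h2
      · refine Or.inr ?_
        by_contra h3
        apply h1
        refine ⟨not_lt.1 h2, fun h4 => ?_⟩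
        by_contra h5
        exact h3 ⟨h4, h5⟩)
    exact hij (Fin.ext (by have := i.2; have := j.2; omega))
  · intro h p hp
    exfalso
    rcases hp 0 with h1 | ⟨h1, h2⟩
    · have := (h (p 0)).1
      omega
    · exact h2 ((h (p 0)).2 h1)

/-- no bad points: the quotient is entire, with all its zeros on the line -/
theorem crit (hQ : S_Quo) {f g : ℂ → ℂ} (hf : Differentiable ℂ f) (hg : Differentiable ℂ g) (hf0 : ∃ s, f s ≠ 0) (hg0 : ∃ s, g s ≠ 0) (x0 : ℝ) :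
    AtMost x0 (fun s => (analyticOrderNatAt f s : ℤ) - analyticOrderNatAt g s) 0 ↔
      ∃ h : ℂ → ℂ, Differentiable ℂ h ∧ (∀ s, h s * g s = f s) ∧ ∀ s, h s = 0 → s.re = x0 := by
  obtain ⟨h1, h2⟩ := hQ f g hf hg hf0 hg0
  rw [atMost_zero]
  constructor
  · intro h
    obtain ⟨u, hu, hu2⟩ := h1 fun s => by have := (h s).1; omega
    refine ⟨u, hu, hu2, fun s hs => (h s).2 ?_⟩
    have := ((h2 u hu hu2 s).2).1 hs
    omega
  · rintro ⟨u, hu, hu2, hu3⟩ s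
    obtain ⟨h3, h4⟩ := h2 u hu hu2 s
    exact ⟨by omega, fun h5 => hu3 s (h4.2 (by omega))⟩

/-- holomorphy by the index -/
theorem holo (J : JX) {f g : ℂ → ℂ} (hf : Differentiable ℂ f) (hg : Differentiable ℂ g) (hf0 : ∃ s, f s ≠ 0) (hg0 : ∃ s, g s ≠ 0) {x0 : ℝ}
    (hfs : ∀ s, analyticOrderNatAt f (2 * x0 - conj s) = analyticOrderNatAt f s)
    (hgs : ∀ s, analyticOrderNatAt g (2 * x0 - conj s) = analyticOrderNatAt g s)
    {V : ℕ → ℕ → ℝ → (ℝ → ℂ) → ℝ} {D : ℝ → ℕ∞ → (ℝ → ℂ) → Prop} {M N : ℕ → ℕ → ℝ}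
    (hO : ∀ p q : ℕ, 1 ≤ p → p < q → OutI (V q p) D (fun s => (q : ℤ) * analyticOrderNatAt f s - p * analyticOrderNatAt g s) x0 (M q p) (N q p))
    {n : ℕ} (hn : Exactly x0 (fun s => (analyticOrderNatAt f s : ℤ)) n) :
    (∃ h : ℂ → ℂ, Differentiable ℂ h ∧ ∀ s, h s * g s = f s) ↔ ∀ p q : ℕ, 1 ≤ p → p < q → Index (V q p) D n := by
  obtain ⟨h1, h2⟩ := J.quo f g hf hg hf0 hg0
  have h3 := J.pen x0 (analyticOrderNatAt f) (analyticOrderNatAt g) hfs hgs n hn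
  have h4 : (∃ h : ℂ → ℂ, Differentiable ℂ h ∧ ∀ s, h s * g s = f s) ↔ ∀ s, analyticOrderNatAt g s ≤ analyticOrderNatAt f s :=
    ⟨fun ⟨u, hu, hu2⟩ s => (h2 u hu hu2 s).1, h1⟩
  rw [h4, h3]
  refine forall_congr' fun p => forall_congr' fun q => forall_congr' fun hp => forall_congr' fun hq => ?_
  exact (hO p q hp hq).index n

end Pool.Agent.Q286.IX
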