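import Pool.Agent.Q286.IX.Out2
import Pool.Agent.Q176.IX.Prod

set_option autoImplicit false

/-!
# Project IX: the theorem for a quotient of two L-functions of the class
-/

open Filter Topology Finset MeasureTheory
open scoped ComplexConjugate

namespace Pool.Agent.Q286.IX

open Pool.Agent.Q286.EW
open Pool.Agent.Q286.TR Pool.Agent.Q286.XG
open Pool.Agent.Q286.PG (LgX lgX_iff)

/-- the form depends on the completed function only -/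
lemma W_congr {L L' : LFunction} (h : L.Λ = L'.Λ) {a : ℝ} (ha : 0 < a) {f : ℝ → ℂ} (hf : Y23.G.Hd a f) : W L a f = W L' a f := by
  rw [W_eq L ha hf, W_eq L' ha hf]
  have h1 := Pool.Agent.Q176.IX.QQ_eq (toL L) f
  have h2 := Pool.Agent.Q176.IX.QQ_eq (toL L') f
  refine h1.trans (Eq.trans ?_ h2.symm)
  refine tsum_congr fun s => ?_
  show (H370.mult L.Λ s : ℝ) * _ = (H370.mult L'.Λ s : ℝ) * _
  rw [h]

lemma ord_refl (L : LFunction) (s : ℂ) : analyticOrderNatAt L.Λ (1 - conj s) = analyticOrderNatAt L.Λ s :=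
  Y23.G.X_mrefl (L := toL L) s

lemma ne_zero (L : LFunction) : ∃ s, L.Λ s ≠ 0 := ⟨2, Y23.G.X_ne (L := toL L) (by norm_num)⟩

section

variable {m1 m2 r1 r2 : ℕ} {Q1 Q2 : ℝ} {γ1 γ2 G1 G2 : ℂ → ℂ}

/-- **The theorem for a quotient.** -/
theorem quot (J : JX) (h1 : InD m1 r1 Q1 γ1 G1) (h2 : InD m2 r2 Q2 γ2 G2) (c : ℂ) (x0 : ℝ) :
    ∃ L1 L2 : LFunction, (L1.m = m1 ∧ L1.Q = Q1) ∧ (L2.m = m2 ∧ L2.Q = Q2) ∧
      (IsComp r1 Q1 γ1 G1 L1.Λ ∧ ∀ Λ, IsComp r1 Q1 γ1 G1 Λ → Λ = L1.Λ) ∧ (IsComp r2 Q2 γ2 G2 L2.Λ ∧ ∀ Λ, IsComp r2 Q2 γ2 G2 Λ → Λ = L2.Λ) ∧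
      (∃ t, IsTr (fun s => G1 s / G2 s) t) ∧
      (∀ t, IsTr (fun s => G1 s / G2 s) t →
        OutI (WZ (r1 - r2) (Q1 / Q2) (fun s => γ1 s / γ2 s) t) (Deg c)
          (fun s => (analyticOrderNatAt L1.Λ (s - x0 + 1 / 2) : ℤ) - analyticOrderNatAt L2.Λ (s - x0 + 1 / 2)) x0 ((m1 + m2 : ℕ) : ℝ) (Q1 * Q2)) ∧
      ∀ t1 t2, IsTr G1 t1 → IsTr G2 t2 → ∀ p q : ℕ, 1 ≤ p → p < q →
        OutI (fun a f => q * WG r1 Q1 γ1 t1 a f - p * WG r2 Q2 γ2 t2 a f) (Deg c)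
          (fun s => (q : ℤ) * analyticOrderNatAt L1.Λ (s - x0 + 1 / 2) - p * analyticOrderNatAt L2.Λ (s - x0 + 1 / 2)) x0
          ((q * m1 + p * m2 : ℕ) : ℝ) (Q1 ^ q * Q2 ^ p) := by
  obtain ⟨L, hmQ, hc, hu, ht, hW⟩ := J.vir 2 ![1, -1] ![m1, m2] ![r1, r2] ![Q1, Q2] ![γ1, γ2] ![G1, G2] (fun i => by
    fin_cases i
    · exact h1
    · exact h2)
  have hG : (fun s => ∏ i : Fin 2, (![G1, G2] i) s ^ (![1, -1] i : ℤ)) = fun s => G1 s / G2 s := by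
    funext s
    rw [Fin.prod_univ_two]
    show G1 s ^ (1 : ℤ) * G2 s ^ (-1 : ℤ) = _
    rw [zpow_one, zpow_neg_one, div_eq_mul_inv]
  have hγ : (fun s => ∏ i : Fin 2, (![γ1, γ2] i) s ^ (![1, -1] i : ℤ)) = fun s => γ1 s / γ2 s := by
    funext s
    rw [Fin.prod_univ_two]
    show γ1 s ^ (1 : ℤ) * γ2 s ^ (-1 : ℤ) = _
    rw [zpow_one, zpow_neg_one, div_eq_mul_inv]
  have hQ : (∏ i : Fin 2, (![Q1, Q2] i) ^ (![1, -1] i : ℤ)) = Q1 / Q2 := by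
    rw [Fin.prod_univ_two]
    show Q1 ^ (1 : ℤ) * Q2 ^ (-1 : ℤ) = _
    rw [zpow_one, zpow_neg_one, div_eq_mul_inv]
  have hr : (∑ i : Fin 2, (![1, -1] i : ℤ) * ((![r1, r2] i : ℕ) : ℤ)) = (r1 : ℤ) - r2 := by
    rw [Fin.sum_univ_two]
    show (1 : ℤ) * (r1 : ℤ) + (-1) * (r2 : ℤ) = _
    ring
  rw [hG] at ht
  simp only [hG, hγ, hQ, hr] at hW
  refine ⟨L 0, L 1, hmQ 0, hmQ 1, ⟨hc 0, hu 0⟩, ⟨hc 1, hu 1⟩, ht, fun t htt => ?_, fun t1 t2 ht1 ht2 p q hp hpq => ?_⟩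
  · refine out2 J (L1 := L 0) (L2 := L 1) (q := 1) (p := 1) (Or.inl one_ne_zero) (fun a f ha hf => ?_) c ?_ ?_ (fun s => by ring)
    · rw [hW t htt a f ha hf, Fin.sum_univ_two]
      show ((1 : ℤ) : ℝ) * W (L 0) a f + ((-1 : ℤ) : ℝ) * W (L 1) a f = _
      push_cast
      ring
    · rw [(hmQ 0).1, (hmQ 1).1]
      show ((1 * m1 + 1 * m2 : ℕ) : ℝ) = _
      rw [one_mul, one_mul]
    · rw [(hmQ 0).2, (hmQ 1).2]
      show Q1 ^ 1 * Q2 ^ 1 = _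
      rw [pow_one, pow_one]
  · obtain ⟨-, L1', -, -, hc1, -, hW1⟩ := h1.lf
    obtain ⟨-, L2', -, -, hc2, -, hW2⟩ := h2.lf
    have e1 : L1'.Λ = (L 0).Λ := hu 0 _ hc1
    have e2 : L2'.Λ = (L 1).Λ := hu 1 _ hc2
    refine out2 J (L1 := L 0) (L2 := L 1) (q := (q : ℤ)) (p := (p : ℤ)) (Or.inl (by omega)) (fun a f ha hf => ?_) c ?_ ?_ (fun s => rfl)
    · rw [hW1 t1 ht1, hW2 t2 ht2, W_congr e1 ha hf, W_congr e2 ha hf]
      push_cast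
      ring
    · rw [(hmQ 0).1, (hmQ 1).1, Int.natAbs_natCast, Int.natAbs_natCast]
      rfl
    · rw [(hmQ 0).2, (hmQ 1).2, Int.natAbs_natCast, Int.natAbs_natCast]
      rfl

end

end Pool.Agent.Q286.IX
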