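import Pool.Agent.Q286.IX.Out3

set_option autoImplicit false

/-!
# Project IX: the pencil `q W_1 + p (W_1 - W_2)`
-/

open Filter Topology Finset MeasureTheory
open scoped ComplexConjugate

namespace Pool.Agent.Q286.IX

open Pool.Agent.Q286.EW
open Pool.Agent.Q286.TR Pool.Agent.Q286.XG
open Pool.Agent.Q286.PG (LgX lgX_iff)

lemma cond_congr {V V' : ℝ → (ℝ → ℂ) → ℝ} {D : ℝ → ℕ∞ → (ℝ → ℂ) → Prop} (h : ∀ (a : ℝ) (f : ℝ → ℂ), 0 < a → D a ⊤ f → V a f = V' a f) {k : ℕ}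
    (hk : Cond V D k) : Cond V' D k := by
  intro B A
  obtain ⟨a, l, ha, hl⟩ := hk B (max A 1)
  have ha0 : 0 < a := lt_of_lt_of_le one_pos ((le_max_right _ _).trans ha)
  exact ⟨a, l, (le_max_left _ _).trans ha, fun f hf hlf => by rw [← h a f ha0 hf]; exact hl f hf hlf⟩

lemma index_congr {V V' : ℝ → (ℝ → ℂ) → ℝ} {D : ℝ → ℕ∞ → (ℝ → ℂ) → Prop} (h : ∀ (a : ℝ) (f : ℝ → ℂ), 0 < a → D a ⊤ f → V a f = V' a f) {n : ℕ} :
    Index V D n ↔ Index V' D n := by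
  have h' : ∀ (a : ℝ) (f : ℝ → ℂ), 0 < a → D a ⊤ f → V' a f = V a f := fun a f ha hf => (h a f ha hf).symm
  exact ⟨fun hn => ⟨cond_congr h hn.1, fun j hj => hn.2 j (cond_congr h' hj)⟩,
    fun hn => ⟨cond_congr h' hn.1, fun j hj => hn.2 j (cond_congr h hj)⟩⟩

section

variable {m1 m2 r1 r2 : ℕ} {Q1 Q2 : ℝ} {γ1 γ2 G1 G2 : ℂ → ℂ}

/-- **The theorem for a quotient**, with the pencil `q W_1 + p (W_1 - W_2)`. -/
theorem quot4 (J : JX) (h1 : InD m1 r1 Q1 γ1 G1) (h2 : InD m2 r2 Q2 γ2 G2) (c : ℂ) (x0 : ℝ) :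
    ∃ L1 L2 : LFunction, (L1.m = m1 ∧ L1.Q = Q1) ∧ (L2.m = m2 ∧ L2.Q = Q2) ∧
      (IsComp r1 Q1 γ1 G1 L1.Λ ∧ ∀ Λ, IsComp r1 Q1 γ1 G1 Λ → Λ = L1.Λ) ∧ (IsComp r2 Q2 γ2 G2 L2.Λ ∧ ∀ Λ, IsComp r2 Q2 γ2 G2 Λ → Λ = L2.Λ) ∧
      (∃ t, IsTr (fun s => G1 s / G2 s) t) ∧
      (∀ t, IsTr (fun s => G1 s / G2 s) t →
        OutI (WZ (r1 - r2) (Q1 / Q2) (fun s => γ1 s / γ2 s) t) (Deg c)
          (fun s => (analyticOrderNatAt L1.Λ (s - x0 + 1 / 2) : ℤ) - analyticOrderNatAt L2.Λ (s - x0 + 1 / 2)) x0 ((m1 + m2 : ℕ) : ℝ) (Q1 * Q2)) ∧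
      (∀ t1, IsTr G1 t1 → ∀ n, Exactly x0 (fun s => (analyticOrderNatAt L1.Λ (s - x0 + 1 / 2) : ℤ)) n ↔ Index (WG r1 Q1 γ1 t1) (Deg c) n) ∧
      ∀ t t1, IsTr (fun s => G1 s / G2 s) t → IsTr G1 t1 → ∀ n, Index (WG r1 Q1 γ1 t1) (Deg c) n →
        ((∃ h : ℂ → ℂ, Differentiable ℂ h ∧ ∀ s, h s * L2.Λ s = L1.Λ s) ↔
          ∀ p q : ℕ, 1 ≤ p → 1 ≤ q → Index (fun a f => q * WG r1 Q1 γ1 t1 a f + p * WZ (r1 - r2) (Q1 / Q2) (fun s => γ1 s / γ2 s) t a f) (Deg c) n) := by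
  obtain ⟨L, hmQ, hc, hu, ht, hW⟩ := J.vir 2 ![1, -1] ![m1, m2] ![r1, r2] ![Q1, Q2] ![γ1, γ2] ![G1, G2] (fun i => by
    fin_cases i
    · exact h1
    · exact h2)
  have hG : (fun s => ∏ i : Fin 2, (![G1, G2] i) s ^ (![1, -1] i : ℤ)) = fun s => G1 s / G2 s := by
    funext s
    rw [Fin.prod_univ_two]
    show G1 s ^ (1 : ℤ) * G2 s ^ (-1 : ℤ) = _
    rw [zpow_one, zpow_neg_one, div_eq_mul_inv]
  have hγ : (fun s => ∏ i : Fin 2, (![γ1, γ2] i) s ^ (![1, -1] i : ℤ)) = fun s => γ1 s / γ2 s := by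
    funext s
    rw [Fin.prod_univ_two]
    show γ1 s ^ (1 : ℤ) * γ2 s ^ (-1 : ℤ) = _
    rw [zpow_one, zpow_neg_one, div_eq_mul_inv]
  have hQ : (∏ i : Fin 2, (![Q1, Q2] i) ^ (![1, -1] i : ℤ)) = Q1 / Q2 := by
    rw [Fin.prod_univ_two]
    show Q1 ^ (1 : ℤ) * Q2 ^ (-1 : ℤ) = _
    rw [zpow_one, zpow_neg_one, div_eq_mul_inv]
  have hr : (∑ i : Fin 2, (![1, -1] i : ℤ) * ((![r1, r2] i : ℕ) : ℤ)) = (r1 : ℤ) - r2 := by
    rw [Fin.sum_univ_two]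
    show (1 : ℤ) * (r1 : ℤ) + (-1) * (r2 : ℤ) = _
    ring
  rw [hG] at ht
  simp only [hG, hγ, hQ, hr] at hW
  have hWt : ∀ t, IsTr (fun s => G1 s / G2 s) t → ∀ (a : ℝ) (f : ℝ → ℂ), 0 < a → Y23.G.Hd a f →
      WZ (r1 - r2) (Q1 / Q2) (fun s => γ1 s / γ2 s) t a f = W (L 0) a f - W (L 1) a f := by
    intro t ht a f ha hf
    rw [hW t ht a f ha hf, Fin.sum_univ_two]
    show ((1 : ℤ) : ℝ) * W (L 0) a f + ((-1 : ℤ) : ℝ) * W (L 1) a f = _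
    push_cast
    ring
  obtain ⟨-, L1', -, -, hc1, -, hW1⟩ := h1.lf
  have e1 : L1'.Λ = (L 0).Λ := hu 0 _ hc1
  have hW0 : ∀ t1, IsTr G1 t1 → ∀ (a : ℝ) (f : ℝ → ℂ), 0 < a → Y23.G.Hd a f → WG r1 Q1 γ1 t1 a f = W (L 0) a f := by
    intro t1 ht1 a f ha hf
    rw [hW1 t1 ht1, W_congr e1 ha hf]
  have hex : ∀ t1, IsTr G1 t1 → ∀ n,
      Exactly x0 (fun s => (analyticOrderNatAt (L 0).Λ (s - x0 + 1 / 2) : ℤ)) n ↔ Index (WG r1 Q1 γ1 t1) (Deg c) n := by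
    intro t1 ht1 n
    refine (out2 J (L1 := L 0) (L2 := L 1) (q := 1) (p := 0) (Or.inl one_ne_zero) (V := WG r1 Q1 γ1 t1) (fun a f ha hf => ?_) c rfl rfl
      (x0 := x0) (ω := fun s => (analyticOrderNatAt (L 0).Λ (s - x0 + 1 / 2) : ℤ)) (fun s => by ring)).index n
    rw [hW0 t1 ht1 a f ha hf]
    push_cast
    ring
  refine ⟨L 0, L 1, hmQ 0, hmQ 1, ⟨hc 0, hu 0⟩, ⟨hc 1, hu 1⟩, ht, fun t htt => ?_, hex, fun t t1 htt ht1 n hn => ?_⟩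
  · refine out2 J (L1 := L 0) (L2 := L 1) (q := 1) (p := 1) (Or.inl one_ne_zero) (fun a f ha hf => ?_) c ?_ ?_ (fun s => by ring)
    · rw [hWt t htt a f ha hf]
      push_cast
      ring
    · rw [(hmQ 0).1, (hmQ 1).1]
      show ((1 * m1 + 1 * m2 : ℕ) : ℝ) = _
      rw [one_mul, one_mul]
    · rw [(hmQ 0).2, (hmQ 1).2]
      show Q1 ^ 1 * Q2 ^ 1 = _
      rw [pow_one, pow_one]
  · have hn' := (hex t1 ht1 n).2 hn
    have er : ∀ s : ℂ, (2 * (x0 : ℂ) - conj s) - x0 + 1 / 2 = 1 - conj (s - x0 + 1 / 2) := by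
      intro s
      rw [map_add, map_sub, Complex.conj_ofReal, map_div₀, map_one, map_ofNat]
      ring
    have hrefl : ∀ (LL : LFunction) (s : ℂ), analyticOrderNatAt LL.Λ ((2 * (x0 : ℂ) - conj s) - x0 + 1 / 2) =
        analyticOrderNatAt LL.Λ (s - x0 + 1 / 2) := by
      intro LL s
      rw [er, ord_refl]
    have h4 : (∃ h : ℂ → ℂ, Differentiable ℂ h ∧ ∀ s, h s * (L 1).Λ s = (L 0).Λ s) ↔
        ∀ s, analyticOrderNatAt (L 1).Λ (s - x0 + 1 / 2) ≤ analyticOrderNatAt (L 0).Λ (s - x0 + 1 / 2) := by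
      obtain ⟨k1, k2⟩ := J.quo (L 0).Λ (L 1).Λ (L 0).entire (L 1).entire (ne_zero _) (ne_zero _)
      refine ⟨fun ⟨u, hu, hu2⟩ s => (k2 u hu hu2 _).1, fun h => k1 fun s => ?_⟩
      have := h (s + x0 - 1 / 2)
      rwa [show s + x0 - 1 / 2 - x0 + 1 / 2 = s by ring] at this
    rw [h4, J.pen x0 (fun s => analyticOrderNatAt (L 0).Λ (s - x0 + 1 / 2)) (fun s => analyticOrderNatAt (L 1).Λ (s - x0 + 1 / 2))
      (hrefl _) (hrefl _) n hn']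
    have key : ∀ p q : ℕ, 1 ≤ q →
        (Exactly x0 (fun s => ((q + p : ℕ) : ℤ) * analyticOrderNatAt (L 0).Λ (s - x0 + 1 / 2) -
          p * analyticOrderNatAt (L 1).Λ (s - x0 + 1 / 2)) n ↔
        Index (fun a f => q * WG r1 Q1 γ1 t1 a f + p * WZ (r1 - r2) (Q1 / Q2) (fun s => γ1 s / γ2 s) t a f) (Deg c) n) := by
      intro p q hq
      refine (out2 J (L1 := L 0) (L2 := L 1) (q := ((q + p : ℕ) : ℤ)) (p := (p : ℤ)) (Or.inl (by omega))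
        (V := fun a f => q * WG r1 Q1 γ1 t1 a f + p * WZ (r1 - r2) (Q1 / Q2) (fun s => γ1 s / γ2 s) t a f)
        (fun a f ha hf => ?_) c rfl rfl (x0 := x0) (fun s => rfl)).index n
      rw [hWt t htt a f ha hf, hW0 t1 ht1 a f ha hf]
      push_cast
      ring
    constructor
    · intro h p q hp hq
      exact (key p q hq).1 (h p (q + p) hp (by omega))
    · intro h p q hp hpq
      have := (key p (q - p) (by omega)).2 (h p (q - p) hp (by omega))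
      rwa [Nat.sub_add_cancel hpq.le] at this

end

end Pool.Agent.Q286.IX
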