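import Pool.Agent.Q286.EW.Stm2

set_option autoImplicit false
set_option linter.unusedVariables false

/-!
# Project IX (the index of Weil's form of a quotient of L-functions): statements of the lemma jobs

THEOREM. Let `Λ = Λ_1 / Λ_2` be a quotient of two completed L-functions (for instance an Artin L-function, by Brauer), `M` the sum of the degrees, `N` the product of the conductors, `W = W_1 - W_2`. A bad point is a pole of `Λ`, or a zero or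
pole off the critical line. (1) For large `a` the negative index of `W` on `[-a, a]` is the number of the orbits `{s, 1 - conj s}` of bad points. (2) One scale: if `W ≥ - exp (- Y) ∫ |f|²` on a subspace given by `k` linear conditions then there are at most `k`
isolated (at the distance `exp (- κ Y / a)`) orbits of bad points of height at most `c exp (2 a / M)`.
For `k = 0`: a criterion for Artin's conjecture together with GRH.

Every statement is a `def S_xxx : Prop`; prove `theorem xxx : S_xxx` in a file of your own. Here `L : Y23.G.LFun` is the product `Λ_1 Λ_2`; `ω` gives each zero `s` of `L.X` the weight `ord_s Λ_1 - ord_s Λ_2`.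
-/

open Filter Topology Finset MeasureTheory
open scoped ComplexConjugate

namespace Pool.Agent.Q286.IX

open Pool.Agent.Q286.EW

/-- the form with the weights `ω` (`Y23.G.QQ` for `ω = mu`) -/
noncomputable def QS [D : Y23.G.ZD] (ω : ℂ → ℤ) (f : ℝ → ℂ) : ℝ :=
  ∑' ρ : Y23.G.Zt, (ω ρ : ℝ) * (Y23.G.GG f f ((ρ : ℂ) - 1 / 2)).re

/-- the linear combination -/
noncomputable def lc {n : ℕ} (g : Fin n → ℝ → ℂ) (c : Fin n → ℂ) : ℝ → ℂ := fun x => ∑ i, c i * g i x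

/-- admissible weights: at most the multiplicity, and symmetric -/
def Wt [L : Y23.G.LFun] (ω : ℂ → ℤ) : Prop := (∀ s : ℂ, L.X s = 0 → |(ω s : ℝ)| ≤ (Y23.G.zd (L := L)).mul s) ∧
  ∀ s : ℂ, L.X s = 0 → ω (1 - conj s) = ω s

/-- **CIRS** (job IX-CIR): `S_CirU` for any centre and any radius. Uses `S_RotU`.
Proof. That of `Q166.EW.cirU` with `δ` in place of `w0.re` (and `‖w0 - z0‖ ≤ σ + 1`, `‖- conj w0 - z0‖ ≤ σ + 1` from `|w0.re| ≤ 1`); it never uses that `w0` is a zero except for `δ ≤ 1`. -/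
def S_CirS : Prop := ∀ [L : Y23.G.LFun], ∃ C : ℝ, 1 ≤ C ∧ ∀ (w0 : ℂ) (δ : ℝ), |w0.re| ≤ 1 → 0 < δ → δ ≤ 1 → ∃ r : ℝ, δ / 4 ≤ r ∧ r ≤ δ / 2 ∧
  (∀ w : ℂ, L.X (1 / 2 + w) = 0 → Real.exp (-(C * Y23.G.Lg w0.im * (1 + Real.log (1 / δ)))) ≤ |‖w - w0‖ - r|) ∧
  ∀ z : ℂ, (‖z - w0‖ = r ∨ ‖z - -(starRingEnd ℂ) w0‖ = r) →
    Real.exp (-(L.m * Real.pi / 4 * |w0.im|) - C * Y23.G.Lg w0.im * (1 + Real.log (1 / δ))) ≤ ‖L.X (1 / 2 + z)‖

/-- **TSTS** (job IX-TST): `S_TstU` for several functions and for the weights `ω`. Uses `S_CutU`, `S_Ker`.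
Proof. For each `i` the function `g i` is the one of `Q149.EW.tstU` (it gives `Hn a ν (g i)`, `N2 (g i) ≤ exp U K²`, `U = B (1 + a + |k|)`, and, `T_i w = TT κ (w - γ_i I)`, `‖TT (g i) w - F_i w T_i w‖ ≤ P τ (1 / (1 + |Im w|) + 1 / (1 + |Im w - γ_i|))` for `|Re w| ≤ 1`).
`N2 (lc g c) ≤ (∑ |c_i|)² max N2 ≤ n (∑ |c_i|²) max N2`. At a zero `w` at most one `F_i w` is not `0`, and then `F_j (- conj w) = 0` for `j ≠ i`; so `TT (lc g c) w conj (TT (lc g c) (- conj w))` is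
`|c_i|² |F_i w|² s_i T_i w conj (T_i (- conj w))` up to terms `|c_i| |c_j| (...)`, which are bounded as in `tstU` (`ptw`, `sum_part`, `|ω| ≤ mu`), in total by `exp U (1 + Γ) τ (∑ |c_i|)²`.
As `s_i ω ≤ 0` at all zeros with `F_i w ≠ 0`, and `≤ -1` at one of them, and `Re (T_i w conj (T_i (- conj w))) ≥ c0`, the main part is at most `- c0 ∑ |c_i|²`. -/
def S_TstS : Prop := ∀ [L : Y23.G.LFun] (A h : ℝ), 0 ≤ A → 0 < h → ∃ B c0 : ℝ, 0 ≤ B ∧ 0 < c0 ∧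
  ∀ (k a Γ K τ : ℝ) (ν : ℕ∞) (n : ℕ) (γ s : Fin n → ℝ) (F : Fin n → ℂ → ℂ) (ω : ℂ → ℤ),
    k ≤ 1 + Real.log (2 * Real.pi) → 1 ≤ a → h ≤ a → 1 ≤ K → (∀ i, |γ i| ≤ Γ) → (∀ i, s i = 1 ∨ s i = -1) → (∀ i, Differentiable ℂ (F i)) →
    (∀ i w, ‖F i w‖ ≤ K * Real.exp (Ek L.m k A |w.re|) / (1 + w.im ^ 2)) →
    K * Real.exp (B * (1 + a + |k|) - ck L.m k * Real.exp (2 * (a - h) / L.m)) ≤ τ → τ ≤ 1 →
    (∀ (i : Fin n) (j : ℤ), ν < (j.natAbs : ℕ∞) → ‖F i (Y23.G.F.nd a j)‖ ≤ τ ∧ 2 * |γ i| ≤ |(Y23.G.F.nd a j).im|) →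
    Wt (L := L) ω →
    (∀ (i : Fin n) (w : ℂ), L.X (1 / 2 + w) = 0 → (F i w = 0 ∧ F i (-(starRingEnd ℂ) w) = 0) ∨
      (‖F i w‖ = 1 ∧ F i (-(starRingEnd ℂ) w) = s i * F i w ∧ s i * ω (1 / 2 + w) ≤ 0 ∧ ‖w - γ i * Complex.I‖ ≤ 2)) →
    (∀ i : Fin n, ∃ w : ℂ, L.X (1 / 2 + w) = 0 ∧ F i w ≠ 0 ∧ s i * ω (1 / 2 + w) ≤ -1) →
    (∀ (i j : Fin n) (w : ℂ), i ≠ j → L.X (1 / 2 + w) = 0 → F i w = 0 ∨ F j w = 0) →
      ∃ g : Fin n → ℝ → ℂ, ∀ c : Fin n → ℂ, Y23.G.F.Hn a ν (lc g c) ∧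
        Y23.N2 (lc g c) ≤ n * (Real.exp (B * (1 + a + |k|)) * K ^ 2) * ∑ i, ‖c i‖ ^ 2 ∧
        QS (D := Y23.G.zd) ω (lc g c) ≤ (-c0 + n ^ 2 * (Real.exp (B * (1 + a + |k|)) * (1 + Γ) * τ)) * ∑ i, ‖c i‖ ^ 2

/-- the point `1 / 2 + w` is a pole, or a zero off the line, and isolated at the distance `δ` from the points with the other sign -/
def Bad [L : Y23.G.LFun] (ω : ℂ → ℤ) (δ : ℝ) (w : ℂ) : Prop := L.X (1 / 2 + w) = 0 ∧
  ((ω (1 / 2 + w) < 0 ∧ ∀ w' : ℂ, L.X (1 / 2 + w') = 0 → 0 < ω (1 / 2 + w') → δ < ‖w' - w‖) ∨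
   (0 < ω (1 / 2 + w) ∧ δ < |w.re| ∧ ∀ w' : ℂ, L.X (1 / 2 + w') = 0 → ω (1 / 2 + w') < 0 → δ < ‖w' - w‖))

/-- **EFFS** (helper286): the theorem at one scale. Uses `S_RotU`, `S_CirS`, `S_TstS`. -/
def S_EffS : Prop := ∀ [L : Y23.G.LFun] (c : ℝ), c < Real.exp (Y23.G.kp (L := L) - 1) → ∃ C κ A B : ℝ, 0 < C ∧ 0 < κ ∧
  ∀ (a Y : ℝ) (ν : ℕ∞) (ω : ℂ → ℤ) (k : ℕ) (l : Fin k → ((ℝ → ℂ) →ₗ[ℂ] ℂ)), A ≤ a → B * a ≤ Y → Y ≤ Real.exp (2 * a / L.m) →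
    ((⌈C * a * Real.exp (2 * a / L.m)⌉₊ : ℕ) : ℕ∞) ≤ ν → (k : ℝ) ≤ Real.exp (κ * Y) → Wt (L := L) ω →
    (∀ f : ℝ → ℂ, Y23.G.F.Hn a ν f → (∀ i, l i f = 0) → -(Real.exp (-Y) * Y23.N2 f) ≤ QS (D := Y23.G.zd) ω f) →
      ∀ p : Fin (k + 1) → ℂ, (∀ j, Bad (L := L) ω (Real.exp (-(κ * Y / a))) (p j) ∧ |(p j).im| ≤ c * Real.exp (2 * a / L.m)) →
        ∃ i j, i ≠ j ∧ (‖p i - p j‖ ≤ 2 * Real.exp (-(κ * Y / a)) ∨ ‖p i + (starRingEnd ℂ) (p j)‖ ≤ 2 * Real.exp (-(κ * Y / a)))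

/-- there are at most `k` orbits of bad points -/
def Most [L : Y23.G.LFun] (ω : ℂ → ℤ) (k : ℕ) : Prop := ∀ p : Fin (k + 1) → ℂ,
  (∀ j, L.X (1 / 2 + p j) = 0 ∧ (ω (1 / 2 + p j) < 0 ∨ (0 < ω (1 / 2 + p j) ∧ (p j).re ≠ 0))) →
    ∃ i j, i ≠ j ∧ (p i = p j ∨ p i = -(starRingEnd ℂ) (p j))

/-- **IDX** (job IX-IDX): the index theorem. Uses `S_EffS`.
Proof. (a) If `Most ω k` fails for some `k` there are `k + 1` bad points in different orbits, fixed; the zeros of `L.X` are discrete (`Y23.G.win_finite`), so for some `δ0 > 0` they are isolated as in `Bad` for all `δ ≤ δ0` and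
`‖p i - p j‖`, `‖p i + conj (p j)‖ > 2 δ0` for `i ≠ j`; with `B'` so large that `exp (- κ B') ≤ δ0` and `B' ≥ B`, and `A'` such that `B' a ≤ exp (2 a / m)`, the heights are at most `c exp (2 a / m)` (any `c > 0` fixed) and `k ≤ exp (κ B' a)`, `S_EffS` (with `Y = B' a`)
contradicts the right side. (b) If `Most ω k`: choose a maximal family `q : Fin k' → ℂ`, `k' ≤ k`, of bad points in different orbits (every bad point is `q i` or `- conj (q i)`) and the linear forms `f ↦ TT f (q i)`... `Y23.TT` is linear only on integrable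
functions: use a linear map on `ℝ → ℂ` which agrees with it on the functions `Fa a` (a linear extension: `LinearMap.exists_extend` from the submodule of the functions with `Fa a`, `MemLp`; or, as `Hn a ν ⊆ Fa a`, define it on this submodule and extend).
Then for `f` in the kernel each term of `QS ω f` is `≥ 0`: at a bad point `TT f w = 0` or `TT f (- conj w) = 0`, so the term is `0`; at the others `ω = 0`, or `ω > 0` and `Re w = 0`, `- conj w = w`, the term is `ω ‖TT f w‖² ≥ 0`. `tsum_nonneg`. -/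
def S_Idx : Prop := ∀ [L : Y23.G.LFun], ∃ C : ℝ, 0 < C ∧ ∀ ω : ℂ → ℤ, Wt (L := L) ω → ∀ k : ℕ,
  (Most (L := L) ω k → ∀ a : ℝ, 0 < a → ∃ l : Fin k → ((ℝ → ℂ) →ₗ[ℂ] ℂ), ∀ (ν : ℕ∞) (f : ℝ → ℂ), Y23.G.F.Hn a ν f → (∀ i, l i f = 0) →
    0 ≤ QS (D := Y23.G.zd) ω f) ∧
  ((∀ B A : ℝ, ∃ (a : ℝ) (ν : ℕ∞) (l : Fin k → ((ℝ → ℂ) →ₗ[ℂ] ℂ)), A ≤ a ∧ ((⌈C * a * Real.exp (2 * a / L.m)⌉₊ : ℕ) : ℕ∞) ≤ ν ∧
    ∀ f : ℝ → ℂ, Y23.G.F.Hn a ν f → (∀ i, l i f = 0) → -(Real.exp (-(B * a)) * Y23.N2 f) ≤ QS (D := Y23.G.zd) ω f) → Most (L := L) ω k)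

/-- the weights of the quotient -/
noncomputable def quo (L1 L2 : Y23.G.LFun) (s : ℂ) : ℤ := ((Y23.G.zd (L := L1)).mul s : ℤ) - (Y23.G.zd (L := L2)).mul s

/-- **PROD** (job IX-PROD): the product of two L-functions, and the form of the quotient.
Proof. `Pool.Agent.Q177.CG.rawMul` (`S_RawMul` in `Q240/CG`; `Fin m → ℂ` and lists: `List.ofFn`; how it is used: look for `rawMul` in `Pool/Agent/Q240/CG`, `Q286/TR`) gives `L.raw`. `mul` is `H370.mult` (the order of vanishing); it is additive for products of entire functions not identically `0`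
(`analyticOrderNatAt_mul` or the corresponding lemma of `H370`). `Wt`: `|x - y| ≤ x + y` and `mrefl`. The form: all three sums are absolutely convergent for `Hd a f` (see `Y23/G/Co.lean`, `Y23/G/Dm.lean`, where the summability of the terms of `QQ` is proved); the sum over the zeros of `L.X` of
`mul1 · term` is `QQ` of `L1` (the zeros of `L.X` which are not zeros of `L1.X` have `mul1 = 0`; `tsum_subtype` and indicator functions, or `Equiv`/injective maps `tsum_eq_tsum_of_ne_zero_bij`). -/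
def S_Prod : Prop := ∀ (L1 L2 : Y23.G.LFun), ∃ L : Y23.G.LFun, L.m = L1.m + L2.m ∧ L.N = L1.N * L2.N ∧ (∀ s : ℂ, L.X s = L1.X s * L2.X s) ∧
  Wt (L := L) (quo L1 L2) ∧ ∀ (a : ℝ) (f : ℝ → ℂ), 0 < a → Y23.G.Hd a f →
    QS (D := Y23.G.zd (L := L)) (quo L1 L2) f = Y23.G.QQ (D := Y23.G.zd (L := L1)) f - Y23.G.QQ (D := Y23.G.zd (L := L2)) f

end Pool.Agent.Q286.IX
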