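import Pool.Agent.Q286.IX.Stm
import Pool.Agent.Q286.EW.ZeroU
import Pool.Agent.Q164.EW.Int

set_option autoImplicit false

/-!
# Project IX: the interpolating functions
-/

open Filter Topology Metric
open scoped ComplexConjugate

namespace Pool.Agent.Q286.IX

open Pool.Agent.Q286.EW

/-- one disc -/
lemma oneB {m k A Q : ℝ} (hQ : ∀ t u : ℝ, 0 ≤ t → t ≤ 2 → 0 ≤ u → u ≤ 2 → Ek m k A t ≤ Q + Ek m k A u)
    {Y : ℂ → ℂ} (hY : Differentiable ℂ Y) (hb : ∀ w, ‖Y w‖ ≤ Real.exp (Ek m k A |w.re|) / (1 + w.im ^ 2))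
    {c : ℂ} (hc : |c.re| ≤ 1) {r η μ : ℝ} (hr0 : 0 < r) (hr1 : r ≤ 1 / 2) (hη : 0 < η) (hη1 : η ≤ 1 / 4)
    (hz : ∀ w, Y w = 0 → η ≤ |‖w - c‖ - r|) (hμ : 0 < μ) (hl : ∀ z, ‖z - c‖ = r → μ ≤ ‖Y z‖) :
    ∃ F : ℂ → ℂ, Differentiable ℂ F ∧ (∀ w, ‖F w‖ ≤ 9 * Real.exp Q / (η * μ) * Real.exp (Ek m k A |w.re|) / (1 + w.im ^ 2)) ∧
      (∀ w, 1 ≤ |w.im - c.im| → ‖F w‖ ≤ 1 / (η * μ) * ‖Y w‖) ∧
      ∀ w, Y w = 0 → (‖w - c‖ < r → F w = 1) ∧ (r < ‖w - c‖ → F w = 0) := by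
  obtain ⟨F, hFd, hFv, hFb⟩ := Pool.Agent.Q164.EW.one hY hr0 hη hμ hz hl
  have hQ0 : 0 ≤ Q := by
    have := hQ 0 0 le_rfl (by norm_num) le_rfl (by norm_num)
    linarith
  have hημ : 0 < η * μ := mul_pos hη hμ
  obtain ⟨b, hbdef⟩ : ∃ b : ℝ, b = r + η / 2 := ⟨_, rfl⟩
  have hb0 : 0 < b := by rw [hbdef]; positivity
  have hb1 : b ≤ 5 / 8 := by rw [hbdef]; linarith
  have hout : ∀ w, b ≤ ‖w - c‖ → ‖F w‖ ≤ 1 / (η * μ) * ‖Y w‖ := by
    intro w h1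
    rw [hbdef] at h1
    refine (hFb w h1).trans (mul_le_mul_of_nonneg_right ?_ (norm_nonneg _))
    exact div_le_div_of_nonneg_right (by linarith) hημ.le
  have hin : ∀ w, ‖w - c‖ ≤ b → ‖F w‖ ≤ 9 * Real.exp Q / (η * μ) * Real.exp (Ek m k A |w.re|) / (1 + w.im ^ 2) := by
    intro w hw
    have hwc : ∀ z : ℂ, ‖z - c‖ ≤ b → |z.re| ≤ 2 := by
      intro z hz'
      have h1 := (Complex.abs_re_le_norm (z - c)).trans hz'
      rw [Complex.sub_re] at h1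
      have h2 := abs_sub_abs_le_abs_sub z.re c.re
      linarith
    refine Complex.norm_le_of_forall_mem_frontier_norm_le (U := ball c b) isBounded_ball hFd.diffContOnCl (fun u hu => ?_) (z := w) ?_
    · rw [frontier_ball _ hb0.ne', mem_sphere, dist_eq_norm] at hu
      refine (hout u hu.ge).trans ?_
      have hure := hwc u hu.le
      have hwre := hwc w hw
      have h3 : Real.exp (Ek m k A |u.re|) ≤ Real.exp Q * Real.exp (Ek m k A |w.re|) := by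
        rw [← Real.exp_add]
        exact Real.exp_le_exp.2 (hQ _ _ (abs_nonneg _) hure (abs_nonneg _) hwre)
      have h4 : 1 + w.im ^ 2 ≤ 9 * (1 + u.im ^ 2) := by
        have h5 : ‖w - u‖ ≤ 2 := by
          have : w - u = (w - c) - (u - c) := by ring
          rw [this]
          refine (norm_sub_le _ _).trans ?_
          linarith
        have h6 := (Complex.abs_im_le_norm (w - u)).trans h5
        rw [Complex.sub_im] at h6
        have h7 : (w.im - u.im) ^ 2 ≤ 4 := by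
          rw [← sq_abs]
          have := abs_nonneg (w.im - u.im)
          nlinarith
        nlinarith [sq_nonneg (w.im - 2 * u.im)]
      calc 1 / (η * μ) * ‖Y u‖ ≤ 1 / (η * μ) * (Real.exp (Ek m k A |u.re|) / (1 + u.im ^ 2)) := by
            exact mul_le_mul_of_nonneg_left (hb u) (by positivity)
        _ ≤ 1 / (η * μ) * (Real.exp Q * Real.exp (Ek m k A |w.re|) / (1 + u.im ^ 2)) := by gcongr
        _ ≤ 1 / (η * μ) * (Real.exp Q * Real.exp (Ek m k A |w.re|) * (9 / (1 + w.im ^ 2))) := by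
            rw [div_eq_mul_inv (Real.exp Q * Real.exp (Ek m k A |w.re|))]
            gcongr
            rw [inv_eq_one_div, div_le_div_iff₀ (by positivity) (by positivity)]
            linarith
        _ = _ := by ring
    · rw [closure_ball _ hb0.ne', mem_closedBall, dist_eq_norm]
      exact hw
  refine ⟨F, hFd, fun w => ?_, fun w hw => ?_, hFv⟩
  · by_cases h1 : ‖w - c‖ ≤ b
    · exact hin w h1
    · rw [not_le] at h1
      refine (hout w h1.le).trans ?_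
      have he : 1 ≤ Real.exp Q := Real.one_le_exp hQ0
      have hE := Real.exp_pos (Ek m k A |w.re|)
      calc 1 / (η * μ) * ‖Y w‖ ≤ 1 / (η * μ) * (Real.exp (Ek m k A |w.re|) / (1 + w.im ^ 2)) :=
            mul_le_mul_of_nonneg_left (hb w) (by positivity)
        _ = 1 * 1 / (η * μ) * Real.exp (Ek m k A |w.re|) / (1 + w.im ^ 2) := by ring
        _ ≤ 9 * Real.exp Q / (η * μ) * Real.exp (Ek m k A |w.re|) / (1 + w.im ^ 2) := by
            gcongr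
            norm_num
  · have h1 : |w.im - c.im| ≤ ‖w - c‖ := by
      have := Complex.abs_im_le_norm (w - c)
      rwa [Complex.sub_im] at this
    exact hout w (by linarith)

/-- the interpolating function: a disc with its centre on the line, or a disc and its reflection with the sign `s` -/
lemma exS {m k A Q : ℝ} (hQ : ∀ t u : ℝ, 0 ≤ t → t ≤ 2 → 0 ≤ u → u ≤ 2 → Ek m k A t ≤ Q + Ek m k A u)
    {Y : ℂ → ℂ} (hY : Differentiable ℂ Y) (hb : ∀ w, ‖Y w‖ ≤ Real.exp (Ek m k A |w.re|) / (1 + w.im ^ 2))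
    (hs : ∀ w, Y w = 0 → Y (-conj w) = 0) {w0 : ℂ} {δ : ℝ} (hw1 : |w0.re| ≤ 1) (hδ0 : 0 < δ) (hδ1 : δ ≤ 1) {s : ℝ}
    (hmode : (w0.re = 0 ∧ s = 1) ∨ (δ ≤ |w0.re| ∧ (s = 1 ∨ s = -1))) {r η μ : ℝ}
    (hr1 : δ / 4 ≤ r) (hr2 : r ≤ δ / 2) (hη : 0 < η) (hη1 : η ≤ δ / 4)
    (hz : ∀ w, Y w = 0 → η ≤ |‖w - w0‖ - r|) (hμ : 0 < μ) (hl : ∀ z, ‖z - w0‖ = r ∨ ‖z - -conj w0‖ = r → μ ≤ ‖Y z‖) :
    ∃ F : ℂ → ℂ, Differentiable ℂ F ∧ (∀ w, ‖F w‖ ≤ 36 * Real.exp Q / (η * μ) * Real.exp (Ek m k A |w.re|) / (1 + w.im ^ 2)) ∧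
      (∀ w, 1 ≤ |w.im - w0.im| → ‖F w‖ ≤ 4 / (η * μ) * ‖Y w‖) ∧
      (∀ w, Y w = 0 → (F w = 0 ∧ F (-conj w) = 0) ∨ (‖F w‖ = 1 ∧ F (-conj w) = s * F w ∧ (‖w - w0‖ < r ∨ ‖-conj w - w0‖ < r))) ∧
      ∀ w, Y w = 0 → ‖w - w0‖ < r → F w = 1 := by
  have hr0 : 0 < r := by linarith
  have hz2 : ∀ w, Y w = 0 → η ≤ |‖w - -conj w0‖ - r| := fun w hw => by
    have := hz _ (hs w hw)
    rwa [refl_dist] at this
  have hre2 : (-conj w0).re = -w0.re := by simp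
  have him2 : (-conj w0).im = w0.im := by simp
  have hημ : 0 < η * μ := mul_pos hη hμ
  obtain ⟨F1, d1, b1, o1, v1⟩ := oneB hQ hY hb hw1 hr0 (by linarith) hη (by linarith) hz hμ (fun z h => hl z (Or.inl h))
  obtain ⟨F2, d2, b2, o2, v2⟩ := oneB hQ hY hb (c := -conj w0) (by rw [hre2, abs_neg]; exact hw1) hr0 (by linarith) hη (by linarith) hz2 hμ
    (fun z h => hl z (Or.inr h))
  rw [him2] at o2
  have e1 : ∀ w, ‖-conj w - w0‖ = ‖w - -conj w0‖ := fun w => refl_dist w w0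
  have e2 : ∀ w, ‖-conj w - -conj w0‖ = ‖w - w0‖ := fun w => by
    rw [← RCLike.norm_conj (w - w0), map_sub, ← norm_neg (conj w - conj w0)]
    congr 1
    ring
  have hne : ∀ w, Y w = 0 → ‖w - w0‖ ≠ r := fun w hw h => by
    have := hz w hw
    rw [h, sub_self, abs_zero] at this
    linarith
  have hne2 : ∀ w, Y w = 0 → ‖w - -conj w0‖ ≠ r := fun w hw h => by
    have := hz2 w hw
    rw [h, sub_self, abs_zero] at this
    linarith
  rcases hmode with ⟨h0, rfl⟩ | ⟨h0, hs1⟩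
  · -- the centre is on the line
    have hw0 : -conj w0 = w0 := by
      apply Complex.ext
      · rw [hre2, h0, neg_zero]
      · exact him2
    refine ⟨F1, d1, fun w => (b1 w).trans ?_, fun w hw => (o1 w hw).trans ?_, fun w hw => ?_, fun w hw h => (v1 w hw).1 h⟩
    · have hE := Real.exp_pos (Ek m k A |w.re|)
      gcongr
      norm_num
    · gcongr
      norm_num
    · rcases lt_or_gt_of_ne (hne w hw) with h | h
      · right
        have hA := (v1 w hw).1 h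
        have hB := (v1 _ (hs w hw)).1 (by rw [e1, hw0]; exact h)
        exact ⟨by rw [hA, norm_one], by rw [hA, hB]; simp, Or.inl h⟩
      · left
        exact ⟨(v1 w hw).2 h, (v1 _ (hs w hw)).2 (by rw [e1, hw0]; exact h)⟩
  · -- a pair
    have hsn : ‖(s : ℂ)‖ = 1 := by
      rcases hs1 with rfl | rfl <;> simp
    have hss : (s : ℂ) * s = 1 := by
      rcases hs1 with rfl | rfl <;> simp
    have hd : ‖w0 - -conj w0‖ = 2 * |w0.re| := by
      have : w0 - -conj w0 = ((2 * w0.re : ℝ) : ℂ) := by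
        rw [sub_neg_eq_add, Complex.add_conj]
      rw [this, Complex.norm_real, Real.norm_eq_abs, abs_mul, abs_two]
    have hdis : ∀ w, ‖w - w0‖ < r → r < ‖w - -conj w0‖ := by
      intro w h
      have h2 : ‖w0 - -conj w0‖ ≤ ‖w - w0‖ + ‖w - -conj w0‖ := by
        rw [← norm_neg (w - w0)]
        have : w0 - -conj w0 = -(w - w0) + (w - -conj w0) := by ring
        rw [this]
        exact norm_add_le _ _
      rw [hd] at h2
      linarith
    have hdis2 : ∀ w, ‖w - -conj w0‖ < r → r < ‖w - w0‖ := by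
      intro w h
      by_contra h2
      rw [not_lt] at h2
      have h3 : ‖w0 - -conj w0‖ ≤ ‖w - w0‖ + ‖w - -conj w0‖ := by
        rw [← norm_neg (w - w0)]
        have : w0 - -conj w0 = -(w - w0) + (w - -conj w0) := by ring
        rw [this]
        exact norm_add_le _ _
      rw [hd] at h3
      linarith
    refine ⟨fun w => F1 w + s * F2 w, d1.add (d2.const_mul _), fun w => ?_, fun w hw => ?_, fun w hw => ?_, fun w hw h => ?_⟩
    · have h1 := b1 w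
      have h2 := b2 w
      have h3 : ‖F1 w + s * F2 w‖ ≤ ‖F1 w‖ + ‖F2 w‖ := by
        refine (norm_add_le _ _).trans ?_
        rw [norm_mul, hsn, one_mul]
      have hE := Real.exp_pos (Ek m k A |w.re|)
      have h4 : 36 * Real.exp Q / (η * μ) * Real.exp (Ek m k A |w.re|) / (1 + w.im ^ 2) =
          4 * (9 * Real.exp Q / (η * μ) * Real.exp (Ek m k A |w.re|) / (1 + w.im ^ 2)) := by ring
      have h5 : 0 ≤ 9 * Real.exp Q / (η * μ) * Real.exp (Ek m k A |w.re|) / (1 + w.im ^ 2) := by positivity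
      show ‖F1 w + s * F2 w‖ ≤ _
      linarith
    · have h1 := o1 w hw
      have h2 := o2 w hw
      have h3 : ‖F1 w + s * F2 w‖ ≤ ‖F1 w‖ + ‖F2 w‖ := by
        refine (norm_add_le _ _).trans ?_
        rw [norm_mul, hsn, one_mul]
      have h4 : 4 / (η * μ) * ‖Y w‖ = 4 * (1 / (η * μ) * ‖Y w‖) := by ring
      have h5 : 0 ≤ 1 / (η * μ) * ‖Y w‖ := by positivity
      show ‖F1 w + s * F2 w‖ ≤ _
      linarith
    · show (F1 w + s * F2 w = 0 ∧ F1 (-conj w) + s * F2 (-conj w) = 0) ∨ (‖F1 w + s * F2 w‖ = 1 ∧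
        F1 (-conj w) + s * F2 (-conj w) = s * (F1 w + s * F2 w) ∧ _)
      have a1 := v1 w hw
      have a2 := v2 w hw
      have a3 := v1 _ (hs w hw)
      have a4 := v2 _ (hs w hw)
      rw [e1] at a3
      rw [e2] at a4
      rcases lt_or_gt_of_ne (hne w hw) with h | h
      · right
        have h' := hdis w h
        rw [a1.1 h, a2.2 h', a3.2 h', a4.1 h]
        refine ⟨by simp, by ring, Or.inl h⟩
      · rcases lt_or_gt_of_ne (hne2 w hw) with h' | h'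
        · right
          rw [a1.2 h, a2.1 h', a3.1 h', a4.2 h]
          refine ⟨by rw [zero_add, mul_one, hsn], by rw [zero_add, mul_one, hss]; ring, Or.inr ?_⟩
          rw [e1]
          exact h'
        · left
          rw [a1.2 h, a2.2 h', a3.2 h', a4.2 h]
          simp
    · show F1 w + s * F2 w = 1
      rw [(v1 w hw).1 h, (v2 w hw).2 (hdis w h)]
      simp

/-- the function of a bad point -/
lemma zeroS [L : Y23.G.LFun] {φ A0 Q T C2 : ℝ} (hφ0 : 0 ≤ φ) (hT0 : 0 ≤ T)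
    (hrot : ∀ w : ℂ, ‖L.X (1 / 2 + w)‖ * Real.exp (L.m * φ / 2 * |w.im|) ≤
      Real.exp T * Real.exp (Ek L.m (Y23.G.kp + Real.log (Real.cos φ)) A0 |w.re|) / (1 + w.im ^ 2))
    (hQ : ∀ t u : ℝ, 0 ≤ t → t ≤ 2 → 0 ≤ u → u ≤ 2 → Ek L.m (Y23.G.kp + Real.log (Real.cos φ)) A0 t ≤
      Q + Ek L.m (Y23.G.kp + Real.log (Real.cos φ)) A0 u) (hC2 : 2 ≤ C2)
    {w0 : ℂ} {δ : ℝ} (hw1 : |w0.re| ≤ 1) (hδ0 : 0 < δ) (hδ1 : δ ≤ 1) {s : ℝ}
    (hmode : (w0.re = 0 ∧ s = 1) ∨ (δ ≤ |w0.re| ∧ (s = 1 ∨ s = -1))) {r : ℝ} (hr1 : δ / 4 ≤ r) (hr2 : r ≤ δ / 2)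
    (hz : ∀ w : ℂ, L.X (1 / 2 + w) = 0 → Real.exp (-(C2 * Y23.G.Lg w0.im * (1 + Real.log (1 / δ)))) ≤ |‖w - w0‖ - r|)
    (hlow : ∀ z : ℂ, (‖z - w0‖ = r ∨ ‖z - -conj w0‖ = r) →
      Real.exp (-(L.m * Real.pi / 4 * |w0.im|) - C2 * Y23.G.Lg w0.im * (1 + Real.log (1 / δ))) ≤ ‖L.X (1 / 2 + z)‖) :
    ∃ (θ P : ℝ) (F : ℂ → ℂ), |θ| ≤ L.m * φ / 2 ∧
      P = L.m * Real.pi / 4 * |w0.im| - L.m * φ / 2 * (|w0.im| - 1 / 2) + 2 * (C2 * Y23.G.Lg w0.im * (1 + Real.log (1 / δ))) + T ∧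
      Differentiable ℂ F ∧
      (∀ w, ‖F w‖ ≤ Real.exp (Real.log 36 + Q + P) * Real.exp (Ek L.m (Y23.G.kp + Real.log (Real.cos φ)) A0 |w.re|) / (1 + w.im ^ 2)) ∧
      (∀ w, 1 ≤ |w.im - w0.im| → ‖F w‖ ≤ Real.exp (Real.log 36 + Q + P) * ‖Yf (L := L) θ w‖) ∧
      (∀ w, L.X (1 / 2 + w) = 0 → (F w = 0 ∧ F (-conj w) = 0) ∨
        (‖F w‖ = 1 ∧ F (-conj w) = s * F w ∧ (‖w - w0‖ < r ∨ ‖-conj w - w0‖ < r))) ∧
      ∀ w, L.X (1 / 2 + w) = 0 → ‖w - w0‖ < r → F w = 1 := by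
  have hm : (1 : ℝ) ≤ L.m := Y23.G.m_one
  have hm0 : (0 : ℝ) < L.m := by linarith
  have hLg1 := Y23.G.one_le_Lg w0.im
  obtain ⟨ℓ, hℓ⟩ : ∃ ℓ : ℝ, ℓ = Real.log (1 / δ) := ⟨_, rfl⟩
  have hℓ0 : 0 ≤ ℓ := by rw [hℓ]; exact Real.log_nonneg (by rw [le_div_iff₀ hδ0]; linarith)
  obtain ⟨Λ0, hΛ⟩ : ∃ Λ0 : ℝ, Λ0 = C2 * Y23.G.Lg w0.im * (1 + Real.log (1 / δ)) := ⟨_, rfl⟩
  have hΛ2 : 2 * (1 + ℓ) ≤ Λ0 := by
    rw [hΛ, ← hℓ]
    refine mul_le_mul_of_nonneg_right ?_ (by linarith)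
    nlinarith
  rw [← hΛ] at hz hlow
  obtain ⟨η, hη⟩ : ∃ η : ℝ, η = Real.exp (-Λ0) := ⟨_, rfl⟩
  have hη0 : 0 < η := by rw [hη]; exact Real.exp_pos _
  have hηδ : η ≤ δ / 4 := by
    have h1 : η ≤ Real.exp (-(2 * (1 + ℓ))) := by rw [hη]; exact Real.exp_le_exp.2 (by linarith)
    have h2 : Real.exp (-(2 * (1 + ℓ))) ≤ Real.exp (-2) * Real.exp (-ℓ) := by
      rw [← Real.exp_add]
      exact Real.exp_le_exp.2 (by linarith)
    have h3 : Real.exp (-ℓ) = δ := by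
      rw [hℓ, ← Real.log_inv, one_div, inv_inv, Real.exp_log hδ0]
    have h4 : Real.exp (-2) ≤ 1 / 4 := by
      rw [Real.exp_neg, ← one_div]
      refine one_div_le_one_div_of_le (by norm_num) ?_
      have h5 := Real.quadratic_le_exp_of_nonneg (x := 2) (by norm_num)
      linarith
    rw [h3] at h2
    nlinarith
  rw [← hη] at hz
  have hr0 : 0 < r := by linarith
  obtain ⟨γ, hγ⟩ : ∃ γ : ℝ, γ = w0.im := ⟨_, rfl⟩
  -- the rotation
  obtain ⟨θ, hθ, hθγ⟩ : ∃ θ : ℝ, |θ| ≤ L.m * φ / 2 ∧ ∀ y : ℝ, |y - γ| ≤ 1 / 2 → L.m * φ / 2 * (|γ| - 1 / 2) ≤ θ * y := by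
    have ht : 0 ≤ (L.m : ℝ) * φ / 2 := by positivity
    rcases le_total 0 γ with h | h
    · refine ⟨L.m * φ / 2, by rw [abs_of_nonneg ht], fun y hy => mul_le_mul_of_nonneg_left ?_ ht⟩
      rw [abs_of_nonneg h]
      linarith [(abs_le.1 hy).1]
    · refine ⟨-(L.m * φ / 2), by rw [abs_neg, abs_of_nonneg ht], fun y hy => ?_⟩
      rw [abs_of_nonpos h]
      have h2 := (abs_le.1 hy).2
      nlinarith
  rw [← hγ] at hlow
  obtain ⟨P0, hP0⟩ : ∃ P0 : ℝ, P0 = L.m * Real.pi / 4 * |γ| - L.m * φ / 2 * (|γ| - 1 / 2) + Λ0 := ⟨_, rfl⟩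
  obtain ⟨μ, hμ⟩ : ∃ μ : ℝ, μ = Real.exp (-T) * Real.exp (-P0) := ⟨_, rfl⟩
  have hμ0 : 0 < μ := by rw [hμ]; positivity
  set Y : ℂ → ℂ := fun w => ((Real.exp (-T) : ℝ) : ℂ) * Yf (L := L) θ w with hY
  have hYn : ∀ w, ‖Y w‖ = Real.exp (-T) * ‖Yf (L := L) θ w‖ := fun w => by
    rw [hY, norm_mul, Complex.norm_real, Real.norm_of_nonneg (Real.exp_pos _).le]
  have hYz : ∀ w, Y w = 0 ↔ L.X (1 / 2 + w) = 0 := fun w => by
    rw [hY, mul_eq_zero, Yf_zero (L := L)]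
    have : ((Real.exp (-T) : ℝ) : ℂ) ≠ 0 := by exact_mod_cast (Real.exp_pos _).ne'
    exact ⟨fun h => h.resolve_left this, Or.inr⟩
  have hl : ∀ z : ℂ, ‖z - w0‖ = r ∨ ‖z - -conj w0‖ = r → μ ≤ ‖Y z‖ := by
    intro z hzz
    have him : |z.im - γ| ≤ 1 / 2 := by
      have hr12 : r ≤ 1 / 2 := by linarith
      rw [hγ]
      rcases hzz with h1 | h1
      · have h3 := Complex.abs_im_le_norm (z - w0)
        rw [h1, Complex.sub_im] at h3
        linarith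
      · have h3 := Complex.abs_im_le_norm (z - -conj w0)
        rw [h1, Complex.sub_im, Complex.neg_im, Complex.conj_im, neg_neg] at h3
        linarith
    have h1 := hlow z hzz
    have h2 := hθγ z.im him
    rw [hYn, norm_Yf, hμ]
    refine mul_le_mul_of_nonneg_left ?_ (Real.exp_pos _).le
    calc Real.exp (-P0) ≤ Real.exp (-(L.m * Real.pi / 4 * |γ|) - Λ0 + θ * z.im) := by
          apply Real.exp_le_exp.2
          rw [hP0]
          linarith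
      _ = Real.exp (-(L.m * Real.pi / 4 * |γ|) - Λ0) * Real.exp (θ * z.im) := Real.exp_add _ _
      _ ≤ _ := mul_le_mul_of_nonneg_right h1 (Real.exp_pos _).le
  have hYb : ∀ z : ℂ, ‖Y z‖ ≤ Real.exp (Ek L.m (Y23.G.kp + Real.log (Real.cos φ)) A0 |z.re|) / (1 + z.im ^ 2) := by
    intro z
    rw [hYn, norm_Yf]
    have h1 := le_trans (mul_le_mul_of_nonneg_left (Real.exp_le_exp.2 (mul_im_le z.im hθ)) (norm_nonneg (L.X (1 / 2 + z)))) (hrot z)
    calc Real.exp (-T) * (‖L.X (1 / 2 + z)‖ * Real.exp (θ * z.im)) ≤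
        Real.exp (-T) * (Real.exp T * Real.exp (Ek L.m (Y23.G.kp + Real.log (Real.cos φ)) A0 |z.re|) / (1 + z.im ^ 2)) :=
          mul_le_mul_of_nonneg_left h1 (Real.exp_pos _).le
      _ = (Real.exp (-T) * Real.exp T) * (Real.exp (Ek L.m (Y23.G.kp + Real.log (Real.cos φ)) A0 |z.re|) / (1 + z.im ^ 2)) := by ring
      _ = _ := by rw [← Real.exp_add, neg_add_cancel, Real.exp_zero, one_mul]
  have hYd : Differentiable ℂ Y := (Yf_diff (L := L) θ).const_mul _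
  obtain ⟨F, hFd, hFb, hFo, hFv, hF1⟩ := exS hQ hYd hYb (fun z hz' => (hYz _).2 (X_refl ((hYz _).1 hz')))
    hw1 hδ0 hδ1 hmode hr1 hr2 hη0 hηδ (fun z hz' => hz z ((hYz _).1 hz')) hμ0 hl
  have hQ0 : 0 ≤ Q := by
    have := hQ 0 0 le_rfl (by norm_num) le_rfl (by norm_num)
    linarith
  obtain ⟨P, hP⟩ : ∃ P : ℝ, P = L.m * Real.pi / 4 * |γ| - L.m * φ / 2 * (|γ| - 1 / 2) + 2 * Λ0 + T := ⟨_, rfl⟩
  have hKexp : 36 * Real.exp Q / (η * μ) = Real.exp (Real.log 36 + Q + P) := by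
    have h1 : Real.log 36 + Q + P = Real.log 36 + Q + Λ0 + T + P0 := by rw [hP, hP0]; ring
    rw [h1, Real.exp_add, Real.exp_add, Real.exp_add, Real.exp_add, Real.exp_log (by norm_num), hμ, hη, Real.exp_neg, Real.exp_neg, Real.exp_neg]
    field_simp
  have h4K : 4 / (η * μ) ≤ Real.exp (Real.log 36 + Q + P) := by
    rw [← hKexp]
    have : 1 ≤ Real.exp Q := Real.one_le_exp hQ0
    exact div_le_div_of_nonneg_right (by linarith) (by positivity)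
  rw [hKexp] at hFb
  rw [← hΛ]
  rw [← hγ]
  refine ⟨θ, P, F, hθ, hP, hFd, hFb, fun w hw => ?_, fun w hw => ?_, fun w hw h => hF1 w ((hYz w).2 hw) h⟩
  · rw [hγ] at hw
    refine (hFo w hw).trans ?_
    rw [hYn]
    have h5 : Real.exp (-T) * ‖Yf (L := L) θ w‖ ≤ ‖Yf (L := L) θ w‖ :=
      mul_le_of_le_one_left (norm_nonneg _) (Real.exp_le_one_iff.2 (by linarith))
    calc 4 / (η * μ) * (Real.exp (-T) * ‖Yf (L := L) θ w‖) ≤ 4 / (η * μ) * ‖Yf (L := L) θ w‖ :=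
          mul_le_mul_of_nonneg_left h5 (by positivity)
      _ ≤ _ := mul_le_mul_of_nonneg_right h4K (norm_nonneg _)
  · exact hFv w ((hYz w).2 hw)

end Pool.Agent.Q286.IX
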